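import Pool.Agent.Helper48.MG.Card

/-!
# Pairing of natural numbers, codes of finite pieces of reals, sections
-/

set_option autoImplicit false

namespace Pool.Agent.Helper48.MG

variable {M : Type} [ZFM M]
variable {α β γ δ : Type} [Cl M α] [Cl M β] [Cl M γ] [Cl M δ]

theorem exists_add : ∃ f : N M → N M → N M, IF M (fun q : N M × N M => f q.1 q.2) ∧
    (∀ a, f a 0 = a) ∧ ∀ a b, f a (sc b) = sc (f a b) := by
  obtain ⟨f, hf, h0, hs⟩ := N.exists_rec (M := M) (γ := N M) (β := N M) (fun a => a)
    (fun _ _ x => sc x) (by fun_prop) (by fun_prop)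
  exact ⟨f, hf, h0, hs⟩

/-- an internal injection `N × N → N` -/
theorem exists_pr : ∃ p : N M → N M → N M, IF M (fun q : N M × N M => p q.1 q.2) ∧
    ∀ a b c d, p a b = p c d → a = c ∧ b = d := by
  classical
  obtain ⟨add, hadd, add0, adds⟩ := exists_add (M := M)
  have adds' : ∀ a b, add (sc a) b = sc (add a b) := by
    intro a
    have h1 : IF M (fun b : N M => add (sc a) b = sc (add a b)) := by
      have h2 : IF M (fun b : N M => add (sc a) b) :=
        hadd.comp (g := fun b : N M => (sc a, b)) (by fun_prop)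
      have h3 : IF M (fun b : N M => add a b) := hadd.comp (g := fun b : N M => (a, b)) (by fun_prop)
      fun_prop
    refine N.ind _ h1 ?_ ?_
    · rw [add0, add0]
    · intro b ih; rw [adds, adds, ih]
  -- predecessor
  obtain ⟨pd, hpd, pd0, pds⟩ := N.exists_rec (M := M) (γ := Unit) (β := N M) (fun _ => 0)
    (fun _ n _ => n) (by fun_prop) (by fun_prop)
  let nx : N M × N M → N M × N M := fun p => if p.2 = 0 then (0, sc p.1) else (sc p.1, pd () p.2)
  have hnx : IF M nx := by
    have h1 : IF M (fun p : N M × N M => pd () p.2) :=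
      hpd.comp (g := fun p : N M × N M => ((), p.2)) (by fun_prop)
    show IF M (fun p : N M × N M => if p.2 = 0 then (0, sc p.1) else (sc p.1, pd () p.2))
    fun_prop
  obtain ⟨e, he, e0, es⟩ := N.exists_rec (M := M) (γ := Unit) (β := N M × N M) (fun _ => (0, 0))
    (fun _ _ x => nx x) (by fun_prop) (hnx.comp (g := fun q : Unit × N M × N M × N M => q.2.2)
      (by fun_prop))
  have he' : IF M (fun n : N M => e () n) := he.comp (g := fun n : N M => ((), n)) (by fun_prop)
  have hsurj : ∀ s a b : N M, add a b = s → ∃ n, e () n = (a, b) := by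
    have h1 : IF M (fun s : N M => ∀ a b : N M, add a b = s → ∃ n, e () n = (a, b)) := by
      have h3 : IF M (fun b : (N M × N M) × N M => add b.1.2 b.2) :=
        hadd.comp (g := fun b : (N M × N M) × N M => (b.1.2, b.2)) (by fun_prop)
      have h4 : IF M (fun q : ((N M × N M) × N M) × N M => e () q.2) :=
        he'.comp (g := fun q : ((N M × N M) × N M) × N M => q.2) (by fun_prop)
      fun_prop
    refine N.ind _ h1 ?_ ?_
    · intro a b hab
      have hb : b = 0 := by
        rcases N.zero_or_sc b with h | ⟨c, rfl⟩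
        · exact h
        · rw [adds] at hab; exact (N.sc_ne_zero _ hab).elim
      subst hb
      rw [add0] at hab
      subst hab
      exact ⟨0, e0 ()⟩
    · intro s ih a
      have h5 : IF M (fun a : N M => ∀ b : N M, add a b = sc s → ∃ n, e () n = (a, b)) := by
        have h3 : IF M (fun b : N M × N M => add b.1 b.2) := hadd
        have h4 : IF M (fun q : (N M × N M) × N M => e () q.2) :=
          he'.comp (g := fun q : (N M × N M) × N M => q.2) (by fun_prop)
        fun_prop
      refine N.ind _ h5 ?_ ?_ a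
      · intro b hb
        have hb' : b = sc s := by
          have h6 : ∀ b, add 0 b = b := by
            have h7 : IF M (fun b : N M => add 0 b = b) := by
              have h3 : IF M (fun b : N M => add 0 b) :=
                hadd.comp (g := fun b : N M => (0, b)) (by fun_prop)
              fun_prop
            refine N.ind _ h7 (add0 0) ?_
            intro b ih; rw [adds, ih]
          rw [← hb, h6]
        subst hb'
        obtain ⟨n, hn⟩ := ih s 0 (add0 s)
        refine ⟨sc n, (es () n).trans ?_⟩
        simp only [nx, hn, if_true]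
      · intro a iha b hb
        have hb' : add a (sc b) = sc s := by rw [adds, ← adds']; exact hb
        obtain ⟨n, hn⟩ := iha (sc b) hb'
        refine ⟨sc n, (es () n).trans ?_⟩
        simp only [nx, hn, N.sc_ne_zero, if_false, pds]
  have hsurj' : ∀ a b, ∃ n, e () n = (a, b) := fun a b => hsurj _ a b rfl
  refine ⟨fun a b => lst M (fun n => e () n = (a, b)), ?_, ?_⟩
  · have h6 : IF M (fun q : (N M × N M) × N M => e () q.2) :=
      he'.comp (g := fun q : (N M × N M) × N M => q.2) (by fun_prop)
    fun_prop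
  · intro a b c d h
    have h1 : e () (lst M (fun n => e () n = (a, b))) = (a, b) :=
      lst_spec (P := fun n => e () n = (a, b)) (by fun_prop) (hsurj' a b)
    have h2 : e () (lst M (fun n => e () n = (c, d))) = (c, d) :=
      lst_spec (P := fun n => e () n = (c, d)) (by fun_prop) (hsurj' c d)
    have h3 : (a, b) = (c, d) := by rw [← h1, ← h2]; exact congrArg _ h
    exact ⟨congrArg Prod.fst h3, congrArg Prod.snd h3⟩

/-- the pairing of natural numbers -/
noncomputable def pr (a b : N M) : N M := Classical.choose (exists_pr (M := M)) a b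

@[fun_prop] theorem IF.pr {f g : α → N M} (hf : IF M f) (hg : IF M g) :
    IF M (fun x => pr (f x) (g x)) :=
  (Classical.choose_spec (exists_pr (M := M))).1.comp (hf.prodMk hg)

theorem pr_inj {a b c d : N M} (h : pr a b = pr c d) : a = c ∧ b = d :=
  (Classical.choose_spec (exists_pr (M := M))).2 a b c d h

/-- the reals (functions `N → N` of the model) -/
abbrev Re (M : Type) [ZFM M] : Type := IFun M (N M) (N M)

theorem exists_cd : ∃ f : Re M → N M → N M, IF M (fun q : Re M × N M => f q.1 q.2) ∧
    (∀ x, f x 0 = 0) ∧ ∀ x n, f x (sc n) = sc (pr (f x n) (x n)) := by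
  obtain ⟨f, hf, h0, hs⟩ := N.exists_rec (M := M) (γ := Re M) (β := N M) (fun _ => 0)
    (fun x n c => sc (pr c (x n))) (by fun_prop) (by fun_prop)
  exact ⟨f, hf, h0, hs⟩

/-- the code of the restriction of the real `x` to the numbers below `n` -/
noncomputable def cd (x : Re M) (n : N M) : N M := Classical.choose (exists_cd (M := M)) x n

@[fun_prop] theorem IF.cd {f : α → Re M} {g : α → N M} (hf : IF M f) (hg : IF M g) :
    IF M (fun x => cd (f x) (g x)) :=
  (Classical.choose_spec (exists_cd (M := M))).1.comp (hf.prodMk hg)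

theorem cd_zero (x : Re M) : cd x 0 = 0 := (Classical.choose_spec (exists_cd (M := M))).2.1 x
theorem cd_sc (x : Re M) (n : N M) : cd x (sc n) = sc (pr (cd x n) (x n)) :=
  (Classical.choose_spec (exists_cd (M := M))).2.2 x n

/-- two codes are equal iff the lengths and the restrictions are equal -/
theorem cd_eq_iff {x y : Re M} {n m : N M} :
    cd x n = cd y m ↔ n = m ∧ ∀ k, k < n → x k = y k := by
  have h1 : ∀ n m : N M, cd x n = cd y m → n = m ∧ ∀ k, k < n → x k = y k := by
    refine N.ind _ (by fun_prop) ?_ ?_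
    · intro m h
      rcases N.zero_or_sc m with rfl | ⟨m, rfl⟩
      · exact ⟨rfl, fun k hk => (N.not_lt_zero k hk).elim⟩
      · rw [cd_zero, cd_sc] at h
        exact (N.sc_ne_zero _ h.symm).elim
    · intro n ih m h
      rcases N.zero_or_sc m with rfl | ⟨m, rfl⟩
      · rw [cd_zero, cd_sc] at h
        exact (N.sc_ne_zero _ h).elim
      · rw [cd_sc, cd_sc] at h
        obtain ⟨h2, h3⟩ := pr_inj (N.sc_inj h)
        obtain ⟨rfl, h4⟩ := ih m h2
        refine ⟨rfl, fun k hk => ?_⟩
        rcases lt_or_eq_of_le (N.lt_sc.1 hk) with h5 | rfl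
        · exact h4 k h5
        · exact h3
  have h2 : ∀ n : N M, (∀ k, k < n → x k = y k) → cd x n = cd y n := by
    refine N.ind _ (by fun_prop) ?_ ?_
    · intro _; rw [cd_zero, cd_zero]
    · intro n ih h
      rw [cd_sc, cd_sc, ih fun k hk => h k (hk.trans (N.lt_sc_self n)), h n (N.lt_sc_self n)]
  constructor
  · exact h1 n m
  · rintro ⟨rfl, h⟩; exact h2 n h

/-- the `i`-th section of a real -/
noncomputable def sec (x : Re M) (i : N M) : Re M := lam (fun n => x (pr i n)) (by fun_prop)

@[fun_prop] theorem IF.sec {f : α → Re M} {g : α → N M} (hf : IF M f) (hg : IF M g) :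
    IF M (fun x => sec (f x) (g x)) := by
  unfold MG.sec; fun_prop

@[simp] theorem sec_apply (x : Re M) (i n : N M) : (sec x i).toFun n = x (pr i n) := rfl

/-- a real with given sections -/
theorem exists_join (X : IFun M (N M) (Re M)) : ∃ x : Re M, ∀ i, sec x i = X i := by
  classical
  have hP : IF M (fun q : N M × N M => (∃ i n, q.1 = pr i n ∧ X i n = q.2) ∨
      ((¬ ∃ i n, q.1 = pr i n) ∧ q.2 = 0)) := by fun_prop
  obtain ⟨f, hf, hf'⟩ := exists_of_unique (p := fun (m k : N M) =>
      (∃ i n, m = pr i n ∧ X i n = k) ∨ ((¬ ∃ i n, m = pr i n) ∧ k = 0)) hP (fun m => by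
    by_cases h : ∃ i n, m = pr i n
    · obtain ⟨i, n, rfl⟩ := h
      refine ⟨X i n, Or.inl ⟨i, n, rfl, rfl⟩, ?_⟩
      rintro y (⟨i', n', h, h'⟩ | h)
      · obtain ⟨rfl, rfl⟩ := pr_inj h
        exact h'.symm
      · exact (h.1 ⟨i, n, rfl⟩).elim
    · refine ⟨0, Or.inr ⟨h, rfl⟩, ?_⟩
      rintro y (⟨i', n', h', _⟩ | h')
      · exact (h ⟨i', n', h'⟩).elim
      · exact h'.2)
  refine ⟨⟨f, hf⟩, fun i => IFun.ext fun n => ?_⟩
  rcases hf' (pr i n) with ⟨i', n', h, h'⟩ | h
  · obtain ⟨rfl, rfl⟩ := pr_inj h
    exact h'.symm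
  · exact (h.1 ⟨i, n, rfl⟩).elim

/-- a real with two given sections -/
theorem exists_join2 (x y : Re M) : ∃ z : Re M, sec z 0 = x ∧ sec z (sc 0) = y := by
  classical
  have h : IF M (fun n : N M => if n = 0 then x else y) := by fun_prop
  obtain ⟨z, hz⟩ := exists_join (M := M) ⟨_, h⟩
  refine ⟨z, (hz 0).trans (if_pos rfl), (hz (sc 0)).trans (if_neg (N.sc_ne_zero 0))⟩

/-- the answer of the strategy `y` of the second player to the play `x` of the first player -/
noncomputable def ap2 (y x : Re M) : Re M := lam (fun n => y (cd x (sc n))) (by fun_prop)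

/-- the answer of the strategy `y` of the first player to the play `x` of the second player -/
noncomputable def ap1 (y x : Re M) : Re M := lam (fun n => y (cd x n)) (by fun_prop)

@[fun_prop] theorem IF.ap2 {f g : α → Re M} (hf : IF M f) (hg : IF M g) :
    IF M (fun x => ap2 (f x) (g x)) := by
  unfold MG.ap2; fun_prop

@[fun_prop] theorem IF.ap1 {f g : α → Re M} (hf : IF M f) (hg : IF M g) :
    IF M (fun x => ap1 (f x) (g x)) := by
  unfold MG.ap1; fun_prop

@[simp] theorem ap2_apply (y x : Re M) (n : N M) : (ap2 y x).toFun n = y (cd x (sc n)) := rfl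
@[simp] theorem ap1_apply (y x : Re M) (n : N M) : (ap1 y x).toFun n = y (cd x n) := rfl

/-- The Axiom of Determinacy, typed form. -/
class AD (M : Type) [ZFM M] : Prop where
  det : ∀ A : IFun M (Re M × Re M) Prop,
    (∃ σ : Re M, ∀ y, A (ap1 σ y, y)) ∨ ∃ τ : Re M, ∀ x, ¬ A (x, ap2 τ x)

end Pool.Agent.Helper48.MG
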