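import Pool.Agent.Helper48.MG.Nat

/-!
# Cardinals of the model: `ω_n`, `ω_1`, `ℵ_ω`
-/

set_option autoImplicit false

namespace Pool.Agent.Helper48.MG

variable {M : Type} [ZFM M]
variable {α β γ δ : Type} [Cl M α] [Cl M β] [Cl M γ] [Cl M δ]

/-- there is a function of the model from (a part of) `a` onto a set containing all ordinals below `b` -/
def Cov (a b : Ord M) : Prop :=
  ∃ g : M, (∀ c, c < b → ∃ x, x < a ∧ isin (opair x.val c.val) g) ∧
    ∀ x c c' : Ord M, isin (opair x.val c.val) g → isin (opair x.val c'.val) g → c = c'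

@[fun_prop] theorem IF.Cov {f g : α → Ord M} (hf : IF M f) (hg : IF M g) :
    IF M (fun x => Cov (f x) (g x)) := by
  unfold MG.Cov; fun_prop

/-- the typed form of `Cov` -/
theorem cov_iff {a b : Ord M} : Cov a b ↔
    ∃ f : IFun M (Sg a) (Ord M), ∀ c, c < b → ∃ x, f x = c := by
  classical
  constructor
  · rintro ⟨g, hg, hu⟩
    let G : Sg a → Ord M → Prop := fun x c => isin (opair x.ord.val c.val) g ∨
      ((¬ ∃ c' : Ord M, isin (opair x.ord.val c'.val) g) ∧ c = om M)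
    have hG : IF M (fun q : Sg a × Ord M => G q.1 q.2) := by
      show IF M (fun q : Sg a × Ord M => isin (opair q.1.ord.val q.2.val) g ∨
        ((¬ ∃ c' : Ord M, isin (opair q.1.ord.val c'.val) g) ∧ q.2 = om M))
      fun_prop
    obtain ⟨f, hf, hf'⟩ := exists_of_unique hG (fun x => by
      by_cases h : ∃ c' : Ord M, isin (opair x.ord.val c'.val) g
      · obtain ⟨c, hc⟩ := h
        refine ⟨c, Or.inl hc, ?_⟩
        rintro d (hd | hd)
        · exact hu _ _ _ hd hc
        · exact (hd.1 ⟨c, hc⟩).elim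
      · refine ⟨om M, Or.inr ⟨h, rfl⟩, ?_⟩
        rintro d (hd | hd)
        · exact (h ⟨d, hd⟩).elim
        · exact hd.2)
    refine ⟨⟨f, hf⟩, fun c hc => ?_⟩
    obtain ⟨x, hx, hxc⟩ := hg c hc
    refine ⟨⟨x, hx⟩, ?_⟩
    rcases hf' ⟨x, hx⟩ with h | h
    · exact hu _ _ _ h hxc
    · exact (h.1 ⟨c, hxc⟩).elim
  · rintro ⟨f, hf⟩
    refine ⟨graph f, fun c hc => ?_, fun x c c' h h' => ?_⟩
    · obtain ⟨x, hx⟩ := hf c hc
      exact ⟨x.ord, x.ord_lt, opair_mem_graph.2 hx⟩
    · obtain ⟨y, hy⟩ := (mem_graph f _).1 h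
      obtain ⟨z, hz⟩ := (mem_graph f _).1 h'
      obtain ⟨h1, h2⟩ := opair_inj hy
      obtain ⟨h3, h4⟩ := opair_inj hz
      have h5 : y = z := Cl.inj (h1.trans h3.symm)
      subst h5
      exact (Ord.ext (h2.symm.trans h4) : c = c')

/-- a map with downward closed range is below every order preserving map -/
theorem le_of_initial [Ob M α] (f g : IFun M α (Ord M)) (hf : ∀ x c, c < f x → ∃ y, f y = c)
    (h : ∀ x y, f x < f y → g x < g y) (x : α) : f x ≤ g x := by
  by_contra hx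
  rw [not_le] at hx
  obtain ⟨c, ⟨y, hy, hyc⟩, hmin⟩ := IWO.least (M := M) (fun c => ∃ y, f y = c ∧ g y < c)
    (by fun_prop) ⟨f x, x, rfl, hx⟩
  subst hy
  obtain ⟨z, hz⟩ := hf y _ hyc
  have h1 : g z < g y := h z y (by rw [hz]; exact hyc)
  have h2 := hmin (g y) ⟨z, hz, h1⟩
  exact not_le.2 hyc h2

/-- Hartogs -/
theorem exists_not_cov (a : Ord M) : ∃ b : Ord M, ¬ Cov a b := by
  classical
  let P : IFun M (Sg a × Sg a) Prop → Ord M → Prop := fun R d =>
    ∃ f : IFun M (Sg a) (Ord M), (∀ c, (∃ x, f x = c) ↔ c < d) ∧ ∀ x y, R (x, y) ↔ f x < f y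
  have hP : IF M (fun q : IFun M (Sg a × Sg a) Prop × Ord M => P q.1 q.2) := by
    show IF M (fun q : IFun M (Sg a × Sg a) Prop × Ord M =>
      ∃ f : IFun M (Sg a) (Ord M), (∀ c, (∃ x, f x = c) ↔ c < q.2) ∧
        ∀ x y, q.1 (x, y) ↔ f x < f y)
    fun_prop
  have hPu : ∀ R d d', P R d → P R d' → d = d' := by
    rintro R d d' ⟨f, hf, hR⟩ ⟨g, hg, hR'⟩
    have h1 : ∀ x, f x ≤ g x := le_of_initial f g
      (fun x c hc => (hf c).2 (hc.trans ((hf _).1 ⟨x, rfl⟩))) (fun x y h => (hR' x y).1 ((hR x y).2 h))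
    have h2 : ∀ x, g x ≤ f x := le_of_initial g f
      (fun x c hc => (hg c).2 (hc.trans ((hg _).1 ⟨x, rfl⟩))) (fun x y h => (hR x y).1 ((hR' x y).2 h))
    have h3 : ∀ x, f x = g x := fun x => le_antisymm (h1 x) (h2 x)
    refine le_antisymm (not_lt.1 fun h => ?_) (not_lt.1 fun h => ?_)
    · obtain ⟨x, hx⟩ := (hf d').2 h
      exact lt_irrefl d' ((hg d').1 ⟨x, by rw [← h3, hx]⟩)
    · obtain ⟨x, hx⟩ := (hg d).2 h
      exact lt_irrefl d ((hf d).1 ⟨x, by rw [h3, hx]⟩)
  let G : IFun M (Sg a × Sg a) Prop → Ord M → Prop := fun R d =>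
    P R d ∨ ((¬ ∃ d', P R d') ∧ d = om M)
  have hG : IF M (fun q : IFun M (Sg a × Sg a) Prop × Ord M => G q.1 q.2) := by
    have h1 : IF M (fun r : (IFun M (Sg a × Sg a) Prop × Ord M) × Ord M => P r.1.1 r.2) :=
      hP.comp (g := fun r : (IFun M (Sg a × Sg a) Prop × Ord M) × Ord M => (r.1.1, r.2)) (by fun_prop)
    show IF M (fun q : IFun M (Sg a × Sg a) Prop × Ord M =>
      P q.1 q.2 ∨ ((¬ ∃ d', P q.1 d') ∧ q.2 = om M))
    fun_prop
  obtain ⟨F, hF, hF'⟩ := exists_of_unique hG (fun R => by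
    by_cases h : ∃ d', P R d'
    · obtain ⟨d, hd⟩ := h
      refine ⟨d, Or.inl hd, ?_⟩
      rintro e (he | he)
      · exact hPu _ _ _ he hd
      · exact (he.1 ⟨d, hd⟩).elim
    · refine ⟨om M, Or.inr ⟨h, rfl⟩, ?_⟩
      rintro e (he | he)
      · exact (h ⟨e, he⟩).elim
      · exact he.2)
  obtain ⟨b, hb⟩ := Ord.exists_gt F hF
  refine ⟨b, fun hcov => ?_⟩
  obtain ⟨f, hf⟩ := cov_iff.1 hcov
  have hb0 : ∃ z, z < b := ⟨_, hb (lam (fun _ => True) (by fun_prop))⟩
  obtain ⟨z, hz⟩ := hb0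
  have hf1 : IF M (fun x : Sg a => if f x < b then f x else z) := by
    refine IF.of_graph ?_
    have : IF M (fun p : Sg a × Ord M => (f p.1 < b ∧ f p.1 = p.2) ∨ (¬ f p.1 < b ∧ z = p.2)) := by
      fun_prop
    refine this.congrP fun p => ?_
    by_cases hp : f p.1 < b <;> simp [hp]
  have key : P (lam (fun p : Sg a × Sg a => (if f p.1 < b then f p.1 else z) <
      (if f p.2 < b then f p.2 else z))
      (IF.lt (hf1.comp IF.fst) (hf1.comp IF.snd))) b := by
    refine ⟨⟨_, hf1⟩, fun c => ⟨?_, fun hc => ?_⟩, fun x y => Iff.rfl⟩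
    · rintro ⟨x, rfl⟩
      show (if f x < b then f x else z) < b
      split_ifs with h
      · exact h
      · exact hz
    · obtain ⟨x, hx⟩ := hf c hc
      exact ⟨x, by show (if f x < b then f x else z) = c; rw [hx, if_pos hc]⟩
  rcases hF' (lam (fun p : Sg a × Sg a => (if f p.1 < b then f p.1 else z) <
      (if f p.2 < b then f p.2 else z))
      (IF.lt (hf1.comp IF.fst) (hf1.comp IF.snd))) with h | h
  · have h1 := hPu _ _ _ h key
    have h2 := hb (lam (fun p : Sg a × Sg a => (if f p.1 < b then f p.1 else z) <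
      (if f p.2 < b then f p.2 else z)) (IF.lt (hf1.comp IF.fst) (hf1.comp IF.snd)))
    rw [h1] at h2
    exact lt_irrefl b h2
  · exact h.1 ⟨b, key⟩

noncomputable instance : Nonempty (Ord M) := ⟨om M⟩

/-- the next cardinal -/
noncomputable def nxt (a : Ord M) : Ord M := lst M (fun b => ¬ Cov a b)

@[fun_prop] theorem IF.nxt {f : α → Ord M} (hf : IF M f) : IF M (fun x => nxt (f x)) := by
  unfold MG.nxt; fun_prop

theorem not_cov_nxt (a : Ord M) : ¬ Cov a (nxt a) := lst_spec (by fun_prop) (exists_not_cov a)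

theorem cov_of_lt_nxt {a b : Ord M} (h : b < nxt a) : Cov a b :=
  not_not.1 (not_of_lt_lst (M := M) (P := fun b => ¬ Cov a b) (by fun_prop) h)

theorem Cov.mono {a a' b b' : Ord M} (h : Cov a b) (ha : a ≤ a') (hb : b' ≤ b) : Cov a' b' := by
  obtain ⟨g, hg, hu⟩ := h
  exact ⟨g, fun c hc => by
    obtain ⟨x, hx, hx'⟩ := hg c (lt_of_lt_of_le hc hb)
    exact ⟨x, lt_of_lt_of_le hx ha, hx'⟩, hu⟩

theorem cov_self (a : Ord M) : Cov a a :=
  cov_iff.2 ⟨lam (fun x : Sg a => x.ord) (by fun_prop), fun c hc => ⟨⟨c, hc⟩, rfl⟩⟩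

theorem lt_nxt (a : Ord M) : a < nxt a := by
  by_contra h
  exact not_cov_nxt a ((cov_self a).mono le_rfl (not_lt.1 h))

theorem exists_al : ∃ f : N M → Ord M, IF M f ∧ f 0 = om M ∧ ∀ n, f (sc n) = nxt (f n) := by
  obtain ⟨f, hf, h0, hs⟩ := N.exists_rec (M := M) (γ := Unit) (β := Ord M) (fun _ => om M)
    (fun _ _ x => nxt x) (by fun_prop) (by fun_prop)
  exact ⟨f (), hf.comp (g := fun n : N M => ((), n)) (by fun_prop), h0 (), hs ()⟩

/-- `al n` is `ω_n` -/
noncomputable def al (n : N M) : Ord M := Classical.choose (exists_al (M := M)) n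

@[fun_prop] theorem IF.al {f : α → N M} (hf : IF M f) : IF M (fun x => al (f x)) :=
  (Classical.choose_spec (exists_al (M := M))).1.comp hf

theorem al_zero : al (0 : N M) = om M := (Classical.choose_spec (exists_al (M := M))).2.1
theorem al_sc (n : N M) : al (sc n) = nxt (al n) := (Classical.choose_spec (exists_al (M := M))).2.2 n

theorem al_lt_al_sc (n : N M) : al n < al (sc n) := by rw [al_sc]; exact lt_nxt _

theorem al_mono {n m : N M} (h : n < m) : al n < al m := by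
  revert h
  refine N.ind (fun m => n < m → al n < al m) (by fun_prop) (fun h => (N.not_lt_zero _ h).elim) ?_ m
  intro m ih h
  rcases lt_or_eq_of_le (N.lt_sc.1 h) with h | rfl
  · exact (ih h).trans (al_lt_al_sc m)
  · exact al_lt_al_sc n

/-- `ℵ_ω` -/
noncomputable def alo (M : Type) [ZFM M] : Ord M := lst M (fun b => ∀ n : N M, al n < b)

theorem al_lt_alo (n : N M) : al n < alo M :=
  lst_spec (P := fun b => ∀ n : N M, al n < b) (by fun_prop) (Ord.exists_gt _ (by fun_prop)) n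

theorem lt_alo {a : Ord M} (h : a < alo M) : ∃ n : N M, a < al n := by
  have h1 := not_of_lt_lst (P := fun b => ∀ n : N M, al n < b) (by fun_prop) h
  push Not at h1
  obtain ⟨n, hn⟩ := h1
  exact ⟨sc n, lt_of_le_of_lt hn (al_lt_al_sc n)⟩

/-- `ω_1` -/
def W (M : Type) [ZFM M] : Type := Sg (al (sc (0 : N M)))
noncomputable instance : LinearOrder (W M) := inferInstanceAs (LinearOrder (Sg _))
instance : Cl M (W M) := inferInstanceAs (Cl M (Sg _))
instance : Ob M (W M) := inferInstanceAs (Ob M (Sg _))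
instance : IWO M (W M) := inferInstanceAs (IWO M (Sg _))

/-- `ℵ_ω` -/
def La (M : Type) [ZFM M] : Type := Sg (alo M)
noncomputable instance : LinearOrder (La M) := inferInstanceAs (LinearOrder (Sg _))
instance : Cl M (La M) := inferInstanceAs (Cl M (Sg _))
instance : Ob M (La M) := inferInstanceAs (Ob M (Sg _))
instance : IWO M (La M) := inferInstanceAs (IWO M (Sg _))


/-! ### typed statements -/

instance : Nonempty (W M) := ⟨⟨om M, by rw [← al_zero]; exact al_lt_al_sc 0⟩⟩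
instance : Nonempty (La M) := ⟨⟨om M, by rw [← al_zero]; exact al_lt_alo 0⟩⟩

/-- the inclusion of `ω` in `ω_1` -/
def nat (n : N M) : W M := ⟨n.1, n.2.trans (by rw [← al_zero]; exact al_lt_al_sc 0)⟩

/-- the inclusion of `ω_1` in `ℵ_ω` -/
def wl (a : W M) : La M := ⟨a.1, a.2.trans (al_lt_alo _)⟩

/-- `ω_n` as an element of `ℵ_ω` -/
noncomputable def alL (n : N M) : La M := ⟨al n, al_lt_alo n⟩

@[fun_prop] theorem IF.nat {f : α → N M} (hf : IF M f) : IF M (fun x => nat (f x)) := by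
  refine IF.sg_mk (f := fun x => (MG.nat (f x) : Sg _)) ?_
  exact IF.sgOrd (f := fun x => (f x : Sg (om M))) hf

@[fun_prop] theorem IF.wl {f : α → W M} (hf : IF M f) : IF M (fun x => wl (f x)) := by
  refine IF.sg_mk (f := fun x => (MG.wl (f x) : Sg _)) ?_
  exact IF.sgOrd (f := fun x => (f x : Sg (MG.al (MG.sc 0)))) hf

@[fun_prop] theorem IF.alL {f : α → N M} (hf : IF M f) : IF M (fun x => alL (f x)) := by
  refine IF.sg_mk (f := fun x => (MG.alL (f x) : Sg _)) ?_
  exact IF.al hf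

@[simp] theorem nat_lt {n m : N M} : nat n < nat m ↔ n < m := Iff.rfl
@[simp] theorem nat_le {n m : N M} : nat n ≤ nat m ↔ n ≤ m := Iff.rfl
@[simp] theorem wl_lt {a b : W M} : wl a < wl b ↔ a < b := Iff.rfl
@[simp] theorem wl_le {a b : W M} : wl a ≤ wl b ↔ a ≤ b := Iff.rfl
theorem nat_inj {n m : N M} (h : nat n = nat m) : n = m :=
  Subtype.ext (congrArg (fun x : W M => x.1) h)
theorem wl_inj {a b : W M} (h : wl a = wl b) : a = b :=
  Subtype.ext (congrArg (fun x : La M => x.1) h)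

/-- the elements of `ℵ_ω` below `ω_1` -/
theorem lt_alL_one_iff {a : La M} : a < alL (sc 0) ↔ ∃ b : W M, wl b = a :=
  ⟨fun h => ⟨⟨a.1, h⟩, rfl⟩, fun ⟨b, h⟩ => h ▸ b.2⟩

/-- the elements of `ω_1` below some natural number are natural numbers -/
theorem nat_initial {a : W M} {n : N M} (h : a ≤ nat n) : ∃ m, nat m = a :=
  ⟨⟨a.1, lt_of_le_of_lt (show a.1 ≤ n.1 from h) n.2⟩, rfl⟩

@[simp] theorem alL_lt {n m : N M} : alL n < alL m ↔ n < m := by
  constructor
  · intro h
    by_contra h'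
    rcases lt_or_eq_of_le (not_lt.1 h') with h1 | rfl
    · exact lt_asymm h (al_mono h1)
    · exact lt_irrefl _ h
  · exact fun h => al_mono h

/-- the `ω_n` are cofinal in `ℵ_ω` -/
theorem exists_lt_alL (a : La M) : ∃ n, a < alL n := by
  obtain ⟨n, hn⟩ := lt_alo a.2
  exact ⟨n, hn⟩

@[fun_prop] theorem IF.ite {p : α → Prop} {f g : α → β} [∀ a, Decidable (p a)] (hp : IF M p)
    (hf : IF M f) (hg : IF M g) : IF M (fun a => if p a then f a else g a) := by
  refine IF.of_graph ?_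
  have : IF M (fun q : α × β => (p q.1 ∧ f q.1 = q.2) ∨ (¬ p q.1 ∧ g q.1 = q.2)) := by
    have h1 : IF M (fun q : α × β => p q.1) := hp.comp IF.fst
    have h2 : IF M (fun q : α × β => f q.1) := hf.comp IF.fst
    have h3 : IF M (fun q : α × β => g q.1) := hg.comp IF.fst
    fun_prop
  refine this.congrP fun q => ?_
  by_cases hq : p q.1 <;> simp [hq]

/-- the element of the initial segment -/
def sgMk {a : Ord M} (x : Ord M) (h : x < a) : Sg a := ⟨x, h⟩

/-- projection of the ordinals onto an initial segment -/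
noncomputable def proj (a : Ord M) [Nonempty (Sg a)] (x : Ord M) : Sg a :=
  open Classical in if h : x < a then sgMk x h else Classical.arbitrary _

theorem proj_of_lt {a : Ord M} [Nonempty (Sg a)] {x : Ord M} (h : x < a) :
    proj a x = sgMk x h := by
  unfold proj; rw [dif_pos h]

theorem proj_of_not {a : Ord M} [Nonempty (Sg a)] {x : Ord M} (h : ¬ x < a) :
    proj a x = Classical.arbitrary _ := by
  unfold proj; rw [dif_neg h]

theorem proj_ord {a : Ord M} [Nonempty (Sg a)] (x : Sg a) : proj a x.ord = x :=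
  proj_of_lt x.ord_lt

theorem ord_proj {a : Ord M} [Nonempty (Sg a)] {x : Ord M} (h : x < a) : (proj a x).ord = x := by
  rw [proj_of_lt h]; rfl

@[fun_prop] theorem IF.proj {a : Ord M} [Nonempty (Sg a)] {f : α → Ord M} (hf : IF M f) :
    IF M (fun x => proj a (f x)) := by
  refine IF.of_graph ?_
  have : IF M (fun p : α × Sg a => (f p.1 < a ∧ p.2.ord = f p.1) ∨
      (¬ f p.1 < a ∧ Classical.arbitrary _ = p.2)) := by
    have h1 : IF M (fun p : α × Sg a => f p.1) := hf.comp IF.fst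
    fun_prop
  refine this.congrP fun p => ?_
  by_cases hp : f p.1 < a
  · rw [proj_of_lt hp]
    simp only [hp, true_and, not_true, false_and, or_false]
    exact ⟨fun h => by rw [← h]; rfl, fun h => Sg.ord_inj h.symm⟩
  · rw [proj_of_not hp]
    simp only [hp, false_and, not_false_iff, true_and, false_or]

theorem nonempty_Sg_al (n : N M) : Nonempty (Sg (al n)) := by
  refine ⟨⟨(0 : N M).1, ?_⟩⟩
  have h0 : (0 : N M).1 < al 0 := by rw [al_zero]; exact (0 : N M).2
  rcases N.zero_or_sc n with rfl | ⟨m, rfl⟩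
  · exact h0
  · exact h0.trans (al_mono (N.zero_lt_sc m))

/-- Every `c < ω_{n+1}` is covered by an image of `ω_n`. -/
theorem exists_cov_La {n : N M} {c : La M} (h : c < alL (sc n)) :
    ∃ f : IFun M (La M) (La M), ∀ d, d < c → ∃ x, x < alL n ∧ f x = d := by
  have h1 : c.1 < nxt (al n) := by rw [← al_sc]; exact h
  obtain ⟨g, hg⟩ := cov_iff.1 (cov_of_lt_nxt h1)
  have := nonempty_Sg_al n
  have : Nonempty (Sg (alo M)) := inferInstanceAs (Nonempty (La M))
  have hf : IF M (fun x : Sg (alo M) => proj (alo M) (g (proj (al n) x.ord))) := by fun_prop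
  refine ⟨⟨_, hf⟩, fun d hd => ?_⟩
  obtain ⟨x, hx⟩ := hg d.1 hd
  refine ⟨⟨x.1, x.2.trans (al_lt_alo n)⟩, x.2, ?_⟩
  have h2 : proj (al n) x.ord = x := proj_ord x
  have h3 : proj (alo M) (g x) = d := by
    rw [hx]; exact proj_ord (a := alo M) d
  show proj (alo M) (g (proj (al n) x.ord)) = d
  rw [h2, h3]

/-- `ω_{n+1}` is not covered by an image of `ω_n`. -/
theorem not_cov_La (n : N M) (f : IFun M (La M) (La M)) :
    ∃ d, d < alL (sc n) ∧ ∀ x, x < alL n → f x ≠ d := by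
  by_contra hcon
  push Not at hcon
  have : Nonempty (Sg (alo M)) := inferInstanceAs (Nonempty (La M))
  let f' : IFun M (Sg (alo M)) (Sg (alo M)) := f
  have h2 : IF M (fun x : Sg (al n) => (f' (proj (alo M) x.ord)).ord) := by fun_prop
  apply not_cov_nxt (al n)
  rw [cov_iff]
  refine ⟨⟨_, h2⟩, fun c hc => ?_⟩
  rw [← al_sc] at hc
  obtain ⟨x, hx, hxc⟩ := hcon ⟨c, hc.trans (al_lt_alo _)⟩ hc
  refine ⟨⟨x.1, hx⟩, ?_⟩
  have h3 : proj (alo M) x.1 = x := proj_ord (a := alo M) x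
  have h4 : (f' (proj (alo M) x.1)).ord = (f' x).ord := by rw [h3]
  exact h4.trans (congrArg Sg.ord hxc)

/-- every proper initial segment of `ω_1` is countable -/
theorem exists_cov_W (a : W M) : ∃ f : IFun M (N M) (W M), ∀ b, b ≤ a → ∃ n, f n = b := by
  have h2 : a.1 < nxt (al 0) := by rw [← al_sc]; exact a.2
  have h3 := cov_of_lt_nxt h2
  rw [al_zero] at h3
  obtain ⟨g, hg⟩ := cov_iff.1 h3
  have : Nonempty (Sg (al (sc (0 : N M)))) := inferInstanceAs (Nonempty (W M))
  have hf : IF M (fun x : Sg (om M) => proj (al (sc (0 : N M))) (g x)) := by fun_prop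
  let g' : IFun M (N M) (W M) := ⟨_, hf⟩
  obtain ⟨f, hf, h0, hs⟩ := N.exists_rec (M := M) (γ := Unit) (β := W M) (fun _ => a)
    (fun _ n _ => g' n) (by fun_prop) (by fun_prop)
  refine ⟨⟨f (), hf.comp (g := fun n : N M => ((), n)) (by fun_prop)⟩, fun b hb => ?_⟩
  rcases lt_or_eq_of_le hb with hb | rfl
  · obtain ⟨x, hx⟩ := hg b.1 hb
    refine ⟨sc x, (hs () x).trans ?_⟩
    show proj (al (sc (0 : N M))) (g x) = b
    rw [hx]
    exact proj_ord (a := al (sc (0 : N M))) b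
  · exact ⟨0, h0 ()⟩

/-- `ω_1` is uncountable -/
theorem not_cov_W (f : IFun M (N M) (W M)) : ∃ b, ∀ n, f n ≠ b := by
  by_contra hcon
  push Not at hcon
  let f' : IFun M (Sg (om M)) (Sg (al (sc (0 : N M)))) := f
  have h2 : IF M (fun x : Sg (om M) => (f' x).ord) := by fun_prop
  apply not_cov_nxt (al (0 : N M))
  rw [al_zero, cov_iff]
  refine ⟨⟨_, h2⟩, fun c hc => ?_⟩
  rw [← al_zero, ← al_sc] at hc
  obtain ⟨x, hx⟩ := hcon ⟨c, hc⟩
  exact ⟨x, congrArg Sg.ord hx⟩

end Pool.Agent.Helper48.MG
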