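import Mathlib

/-!
# Models of ZF: first order definability, the axioms, classes and sets of the model
-/

set_option autoImplicit false

namespace Pool.Agent.Helper48.MG

/-- push a value in front of an assignment of values to the variables `0, 1, 2, …` -/
def cons {M : Type} (x : M) (v : ℕ → M) : ℕ → M
  | 0 => x
  | n + 1 => v n

@[simp] theorem cons_zero {M : Type} (x : M) (v : ℕ → M) : cons x v 0 = x := rfl
@[simp] theorem cons_succ {M : Type} (x : M) (v : ℕ → M) (n : ℕ) : cons x v (n + 1) = v n := rfl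

/-- The properties of assignments that are definable by a first order formula in the language `∈`
(de Bruijn style: the quantifier binds the variable `0`). -/
inductive Def {M : Type} (E : M → M → Prop) : ((ℕ → M) → Prop) → Prop
  | mem (i j : ℕ) : Def E (fun v => E (v i) (v j))
  | eq (i j : ℕ) : Def E (fun v => v i = v j)
  | not {P : (ℕ → M) → Prop} : Def E P → Def E (fun v => ¬ P v)
  | and {P Q : (ℕ → M) → Prop} : Def E P → Def E Q → Def E (fun v => P v ∧ Q v)
  | ex {P : (ℕ → M) → Prop} : Def E P → Def E (fun v => ∃ x, P (cons x v))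

/-- `(M, E)` is a model of ZF. -/
structure ZF {M : Type} (E : M → M → Prop) : Prop where
  ext : ∀ a b, (∀ x, E x a ↔ E x b) → a = b
  found : ∀ a, (∃ x, E x a) → ∃ x, E x a ∧ ∀ y, E y x → ¬ E y a
  pair : ∀ a b, ∃ c, ∀ x, E x c ↔ x = a ∨ x = b
  union : ∀ a, ∃ c, ∀ x, E x c ↔ ∃ y, E y a ∧ E x y
  power : ∀ a, ∃ c, ∀ x, E x c ↔ ∀ z, E z x → E z a
  inf : ∃ a, (∃ e, E e a ∧ ∀ x, ¬ E x e) ∧
    ∀ x, E x a → ∃ y, E y a ∧ ∀ z, E z y ↔ E z x ∨ z = x
  sep : ∀ P : (ℕ → M) → Prop, Def E P → ∀ (v : ℕ → M) (a : M),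
    ∃ b, ∀ x, E x b ↔ E x a ∧ P (cons x v)
  repl : ∀ P : (ℕ → M) → Prop, Def E P → ∀ (v : ℕ → M) (a : M),
    (∀ x, E x a → ∃! y, P (cons x (cons y v))) →
    ∃ b, ∀ y, E y b ↔ ∃ x, E x a ∧ P (cons x (cons y v))

/-- A fixed model of ZF. -/
class ZFM (M : Type) where
  E : M → M → Prop
  zf : ZF E

variable {M : Type} [ZFM M]

/-- membership in the model -/
abbrev isin (x y : M) : Prop := ZFM.E x y

/-- alternate the values of two assignments -/
def mix (v w : ℕ → M) : ℕ → M := fun n => if n % 2 = 0 then v (n / 2) else w (n / 2)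

/-- definable with parameters -/
def PD (P : (ℕ → M) → Prop) : Prop :=
  ∃ (Q : (ℕ → M) → Prop) (w : ℕ → M), Def ZFM.E Q ∧ ∀ v, P v ↔ Q (mix v w)

theorem Def.ren {Q : (ℕ → M) → Prop} (h : Def ZFM.E Q) :
    ∀ ρ : ℕ → ℕ, Def ZFM.E (fun v => Q (fun n => v (ρ n))) := by
  induction h with
  | mem i j => intro ρ; exact Def.mem _ _
  | eq i j => intro ρ; exact Def.eq _ _
  | not _ ih => intro ρ; exact Def.not (ih ρ)
  | and _ _ ih1 ih2 => intro ρ; exact Def.and (ih1 ρ) (ih2 ρ)
  | @ex P h ih =>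
    intro ρ
    have := Def.ex (ih (fun n => match n with | 0 => 0 | n + 1 => ρ n + 1))
    convert this using 3 with v x
    funext x
    congr 1
    funext n
    cases n <;> rfl

theorem PD.congr {P Q : (ℕ → M) → Prop} (h : PD P) (hPQ : ∀ v, Q v ↔ P v) : PD Q := by
  obtain ⟨R, w, hR, h⟩ := h
  exact ⟨R, w, hR, fun v => (hPQ v).trans (h v)⟩

theorem PD.ren {P : (ℕ → M) → Prop} (h : PD P) (ρ : ℕ → ℕ) : PD (fun v => P (fun n => v (ρ n))) := by
  obtain ⟨R, w, hR, h⟩ := h
  refine ⟨_, w, hR.ren (fun n => if n % 2 = 0 then 2 * ρ (n / 2) else n), fun v => ?_⟩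
  refine (h _).trans (iff_of_eq (congrArg R ?_))
  funext n
  simp only [mix]
  by_cases hn : n % 2 = 0
  · simp [hn]
  · simp [hn]

theorem PD.mem (i j : ℕ) : PD (fun v : ℕ → M => ZFM.E (v i) (v j)) := by
  refine ⟨_, fun n => (Classical.choose (ZFM.zf (M := M)).inf), Def.mem (2 * i) (2 * j), fun v => ?_⟩
  simp [mix]

theorem PD.eq (i j : ℕ) : PD (fun v : ℕ → M => v i = v j) := by
  refine ⟨_, fun n => (Classical.choose (ZFM.zf (M := M)).inf), Def.eq (2 * i) (2 * j), fun v => ?_⟩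
  simp [mix]

theorem PD.not {P : (ℕ → M) → Prop} (h : PD P) : PD (fun v => ¬ P v) := by
  obtain ⟨R, w, hR, h⟩ := h
  exact ⟨_, w, hR.not, fun v => not_congr (h v)⟩

theorem PD.and {P Q : (ℕ → M) → Prop} (hP : PD P) (hQ : PD Q) : PD (fun v => P v ∧ Q v) := by
  obtain ⟨R, w, hR, h⟩ := hP
  obtain ⟨R', w', hR', h'⟩ := hQ
  refine ⟨_, mix w w', (hR.ren (fun n => if n % 2 = 0 then n else 2 * n - 1)).and
    (hR'.ren (fun n => if n % 2 = 0 then n else 2 * n + 1)), fun v => ?_⟩
  have e1 : (fun n => mix v (mix w w') (if n % 2 = 0 then n else 2 * n - 1)) = mix v w := by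
    funext n
    simp only [mix]
    by_cases hn : n % 2 = 0
    · simp [hn]
    · have h1 : (2 * n - 1) % 2 = 1 := by omega
      have h2 : (2 * n - 1) / 2 % 2 = 0 := by omega
      have h3 : (2 * n - 1) / 2 / 2 = n / 2 := by omega
      simp [hn, h1, h2, h3]
  have e2 : (fun n => mix v (mix w w') (if n % 2 = 0 then n else 2 * n + 1)) = mix v w' := by
    funext n
    simp only [mix]
    by_cases hn : n % 2 = 0
    · simp [hn]
    · have h1 : (2 * n + 1) % 2 = 1 := by omega
      have h2 : (2 * n + 1) / 2 % 2 = 1 := by omega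
      have h3 : (2 * n + 1) / 2 / 2 = n / 2 := by omega
      simp [hn, h1, h2, h3]
  show P v ∧ Q v ↔ R (fun n => mix v (mix w w') (if n % 2 = 0 then n else 2 * n - 1)) ∧
    R' (fun n => mix v (mix w w') (if n % 2 = 0 then n else 2 * n + 1))
  rw [e1, e2, h, h']

theorem PD.ex {P : (ℕ → M) → Prop} (h : PD P) : PD (fun v => ∃ x, P (cons x v)) := by
  obtain ⟨R, w, hR, h⟩ := h
  refine ⟨_, w, (hR.ren (fun n => if n = 0 then 0 else if n % 2 = 0 then n - 1 else n + 1)).ex,
    fun v => exists_congr fun x => ?_⟩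
  refine (h _).trans (iff_of_eq (congrArg R ?_))
  funext n
  by_cases h0 : n = 0
  · subst h0; simp [mix]
  · by_cases hn : n % 2 = 0
    · obtain ⟨k, rfl⟩ : ∃ k, n = 2 * k + 2 := ⟨n / 2 - 1, by omega⟩
      have h1 : (2 * k + 2) / 2 = k + 1 := by omega
      have h2 : (2 * k + 2) % 2 = 0 := by omega
      have h3 : 2 * k + 2 - 1 = 2 * k + 1 := by omega
      have h4 : (2 * k) % 2 = 0 := by omega
      have h5 : (2 * k) / 2 = k := by omega
      simp [h1, h2, h3, mix]
    · simp only [h0, hn, if_false, cons_succ, mix]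

theorem PD.or {P Q : (ℕ → M) → Prop} (hP : PD P) (hQ : PD Q) : PD (fun v => P v ∨ Q v) :=
  (hP.not.and hQ.not).not.congr fun v => by tauto

theorem PD.imp {P Q : (ℕ → M) → Prop} (hP : PD P) (hQ : PD Q) : PD (fun v => P v → Q v) :=
  (hP.and hQ.not).not.congr fun v => by tauto

theorem PD.iff {P Q : (ℕ → M) → Prop} (hP : PD P) (hQ : PD Q) : PD (fun v => P v ↔ Q v) :=
  ((hP.imp hQ).and (hQ.imp hP)).congr fun v => by tauto

theorem PD.all {P : (ℕ → M) → Prop} (h : PD P) : PD (fun v => ∀ x, P (cons x v)) :=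
  h.not.ex.not.congr fun v => by simp

/-- substitute a parameter for the variable `0` -/
theorem PD.inst {P : (ℕ → M) → Prop} (h : PD P) (c : M) : PD (fun v => P (cons c v)) := by
  obtain ⟨R, w, hR, h⟩ := h
  refine ⟨_, cons c w, (hR.ren (fun n => if n = 0 then 1 else if n % 2 = 0 then n - 2 else n + 2)),
    fun v => ?_⟩
  refine (h _).trans (iff_of_eq (congrArg R ?_))
  funext n
  by_cases h0 : n = 0
  · subst h0; simp [mix]
  · by_cases hn : n % 2 = 0
    · obtain ⟨k, rfl⟩ : ∃ k, n = 2 * k + 2 := ⟨n / 2 - 1, by omega⟩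
      have h1 : (2 * k + 2) / 2 = k + 1 := by omega
      have h2 : (2 * k + 2) % 2 = 0 := by omega
      have h3 : 2 * k + 2 - 2 = 2 * k := by omega
      have h4 : (2 * k) % 2 = 0 := by omega
      have h5 : (2 * k) / 2 = k := by omega
      simp [h1, h2, h3, mix]
    · obtain ⟨k, rfl⟩ : ∃ k, n = 2 * k + 1 := ⟨n / 2, by omega⟩
      have h1 : (2 * k + 1) / 2 = k := by omega
      have h2 : (2 * k + 1 + 2) % 2 = 1 := by omega
      have h3 : (2 * k + 1 + 2) / 2 = k + 1 := by omega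
      have h4 : (2 * k + 1) % 2 = 1 := by omega
      simp [h1, h2, h3, h4, mix]

end Pool.Agent.Helper48.MG
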