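import Pool.Agent.Helper48.MG.PTa
import Pool.Agent.Helper97.MG.KC

/-!
# Correct type, the order of the slots, the functions `h_z`: definitions
-/

set_option autoImplicit false

namespace Pool.Agent.Helper48.MG

variable {M : Type} [ZFM M]
variable {α β γ δ : Type} [Cl M α] [Cl M β] [Cl M γ] [Cl M δ]

/-- functions of a block and a slot -/
abbrev G2 (M : Type) [ZFM M] : Type := IFun M (W M × W M) (W M)

/-- `G` is of correct type into `C`: in almost all blocks `c`, for all slots `s < c`, `G (c, s)` is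
the supremum of an increasing sequence `g (c, s, ·)` above `c` and above all `G (c, s')` with
`lo (s', s)`, and belongs to `C`. -/
def CT (lo : IFun M (W M × W M) Prop) (C : IFun M (W M) Prop) (G : G2 M) : Prop :=
  ∃ g : IFun M (Ix M) (W M), Ev (fun c => ∀ s, s < c →
    c < g (c, s, 0) ∧ (∀ m, g (c, s, m) < g (c, s, sc m)) ∧ (∀ m, g (c, s, m) < G (c, s)) ∧
    (∀ b, b < G (c, s) → ∃ m, b < g (c, s, m)) ∧ C (G (c, s)) ∧
    ∀ s', s' < c → lo (s', s) → G (c, s') < g (c, s, 0))

@[fun_prop] theorem IF.CT {lo : IFun M (W M × W M) Prop} {C : α → IFun M (W M) Prop} {G : α → G2 M}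
    (hC : IF M C) (hG : IF M G) : IF M (fun x => CT lo (C x) (G x)) := by
  unfold MG.CT; fun_prop

/-- the closure points of `f` as an internal predicate -/
noncomputable def CP (f : Fn M) : IFun M (W M) Prop := lam (fun a => Cp f a) (by fun_prop)

@[fun_prop] theorem IF.CP {f : α → Fn M} (hf : IF M f) : IF M (fun x => CP (f x)) := by
  unfold MG.CP; fun_prop

@[simp] theorem CP_apply (f : Fn M) (a : W M) : (CP f).toFun a ↔ Cp f a := Iff.rfl

/-- first key of a slot: `sW a` for `pw a b`, `w0` if the slot is not a pair -/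
noncomputable def k1 (w : W M) : W M :=
  open Classical in if ∃ a b, pw a b = w then sW (lst M (fun a => ∃ b, pw a b = w)) else w0 M

/-- second key of a slot: `b` for `pw a b`, the slot itself if it is not a pair -/
noncomputable def k2 (w : W M) : W M :=
  open Classical in if ∃ a b, pw a b = w then lst M (fun b => ∃ a, pw a b = w) else w

@[fun_prop] theorem IF.k1 {f : α → W M} (hf : IF M f) : IF M (fun x => k1 (f x)) := by
  unfold MG.k1; fun_prop
@[fun_prop] theorem IF.k2 {f : α → W M} (hf : IF M f) : IF M (fun x => k2 (f x)) := by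
  unfold MG.k2; fun_prop

@[simp] theorem k1_pw (a b : W M) : k1 (pw a b) = sW a := by
  unfold k1
  rw [if_pos ⟨a, b, rfl⟩]
  obtain ⟨b', hb'⟩ : ∃ b', pw (lst M (fun a' => ∃ b', pw a' b' = pw a b)) b' = pw a b :=
    lst_spec (P := fun a' => ∃ b', pw a' b' = pw a b) (by fun_prop) ⟨a, b, rfl⟩
  rw [(pw_inj hb').1]

@[simp] theorem k2_pw (a b : W M) : k2 (pw a b) = b := by
  unfold k2
  rw [if_pos ⟨a, b, rfl⟩]
  obtain ⟨a', ha'⟩ : ∃ a', pw a' (lst M (fun b' => ∃ a', pw a' b' = pw a b)) = pw a b :=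
    lst_spec (P := fun b' => ∃ a', pw a' b' = pw a b) (by fun_prop) ⟨b, a, rfl⟩
  exact (pw_inj ha').2

theorem k1_of_not {w : W M} (h : ¬ ∃ a b, pw a b = w) : k1 w = w0 M := by
  unfold k1; rw [if_neg h]
theorem k2_of_not {w : W M} (h : ¬ ∃ a b, pw a b = w) : k2 w = w := by
  unfold k2; rw [if_neg h]

/-- the order of the slots: lexicographic in the two keys -/
noncomputable def lo0 (M : Type) [ZFM M] : IFun M (W M × W M) Prop :=
  lam (fun p => k1 p.1 < k1 p.2 ∨ (k1 p.1 = k1 p.2 ∧ k2 p.1 < k2 p.2)) (by fun_prop)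

theorem lo0_iff {w w' : W M} : lo0 M (w, w') ↔ k1 w < k1 w' ∨ (k1 w = k1 w' ∧ k2 w < k2 w') :=
  Iff.rfl

/-- the slot of the number `n`, the code `t` of an `n`-tuple and the index `i` -/
noncomputable def tri (n : N M) (t i : W M) : W M := pw (pw (nat n) t) i

@[fun_prop] theorem IF.tri {n : α → N M} {t i : α → W M} (hn : IF M n) (ht : IF M t)
    (hi : IF M i) : IF M (fun x => tri (n x) (t x) (i x)) := by
  unfold MG.tri; fun_prop

/-- the function without its last variable: the code `t` of `pw t c` -/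
noncomputable def bas (M : Type) [ZFM M] : Fn M := lam (fun w => lst M (fun t => ∃ g, pw t g = w)) (by fun_prop)

@[simp] theorem bas_pw (t g : W M) : (bas M) (pw t g) = t := by
  have h : ∃ g', pw (lst M (fun t' => ∃ g', pw t' g' = pw t g)) g' = pw t g :=
    lst_spec (P := fun t' => ∃ g', pw t' g' = pw t g) (by fun_prop) ⟨t, g, rfl⟩
  obtain ⟨g', hg'⟩ := h
  exact (pw_inj hg').1

/-- the component of `G` with number `n` and index `i`, a function of `n + 1` variables -/
noncomputable def cmp (G : G2 M) (n : N M) (i : W M) : Fn M :=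
  lam (fun w => G (top M w, tri n (bas M w) i)) (by fun_prop)

@[fun_prop] theorem IF.cmp {G : α → G2 M} {n : α → N M} {i : α → W M} (hG : IF M G) (hn : IF M n)
    (hi : IF M i) : IF M (fun x => cmp (G x) (n x) (i x)) := by
  unfold MG.cmp; fun_prop

@[simp] theorem cmp_pw (G : G2 M) (n : N M) (i t c : W M) :
    (cmp G n i) (pw t c) = G (c, tri n t i) := by
  show G (top M (pw t c), tri n (bas M (pw t c)) i) = _
  rw [top_pw, bas_pw]

/-- positions: block, first key, value, second key -/
abbrev Ps (M : Type) [ZFM M] : Type := W M × W M × W M × W M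

/-- lexicographic order of the positions -/
def plt (x y : Ps M) : Prop :=
  x.1 < y.1 ∨ (x.1 = y.1 ∧ (x.2.1 < y.2.1 ∨ (x.2.1 = y.2.1 ∧
    (x.2.2.1 < y.2.2.1 ∨ (x.2.2.1 = y.2.2.1 ∧ x.2.2.2 < y.2.2.2)))))

/-- position is legal: all coordinates are at most the block -/
def pok (x : Ps M) : Prop := x.2.1 ≤ x.1 ∧ x.2.2.1 ≤ x.1 ∧ x.2.2.2 ≤ x.1

/-- the pair of functions `k` (values on the positions, in `C`) and `k'` (increasing sequences
converging to the values) -/
def KK (C : IFun M (W M) Prop) (k : IFun M (Ps M) (W M)) : Prop :=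
  ∃ k' : IFun M (Ps M × N M) (W M), ∀ x, pok x →
    x.1 < k' (x, 0) ∧ (∀ m, k' (x, m) < k' (x, sc m)) ∧ (∀ m, k' (x, m) < k x) ∧
    (∀ b, b < k x → ∃ m, b < k' (x, m)) ∧ C (k x) ∧ ∀ y, pok y → plt y x → k y < k' (x, 0)

/-- the function `h_z` of `n + 1` variables -/
noncomputable def hz (k : IFun M (Ps M) (W M)) (n : N M) (z : Fn M) : Fn M :=
  lam (fun w => k (top M w, sW (pw (nat n) (bas M w)), z w, w0 M)) (by fun_prop)

@[fun_prop] theorem IF.hz {k : IFun M (Ps M) (W M)} {n : α → N M} {z : α → Fn M} (hn : IF M n)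
    (hz0 : IF M z) : IF M (fun x => MG.hz k (n x) (z x)) := by
  unfold MG.hz; fun_prop

@[simp] theorem hz_pw (k : IFun M (Ps M) (W M)) (n : N M) (z : Fn M) (t c : W M) :
    (hz k n z) (pw t c) = k (c, sW (pw (nat n) t), z (pw t c), w0 M) := by
  show k (top M (pw t c), sW (pw (nat n) (bas M (pw t c))), z (pw t c), w0 M) = _
  rw [top_pw, bas_pw]

end Pool.Agent.Helper48.MG
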