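import Pool.Agent.Helper48.MG.Base

/-!
# Class types, set types and internal functions
-/

set_option autoImplicit false

namespace Pool.Agent.Helper48.MG

variable {M : Type} [ZFM M]

/-- one, two, three place definable relations -/
def D1 (P : M → Prop) : Prop := PD (fun v => P (v 0))
def D2 (P : M → M → Prop) : Prop := PD (fun v => P (v 0) (v 1))
def D3 (P : M → M → M → Prop) : Prop := PD (fun v => P (v 0) (v 1) (v 2))

/-- the class `P` is a set -/
def IsSet (P : M → Prop) : Prop := ∃ s, ∀ x, isin x s ↔ P x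

theorem IsSet.sep {P : M → Prop} (h : D1 P) (a : M) : IsSet (fun x => isin x a ∧ P x) := by
  obtain ⟨Q, w, hQ, h⟩ := h
  obtain ⟨b, hb⟩ := (ZFM.zf (M := M)).sep (fun v => Q (fun n => v (if n % 2 = 0 then 0 else n / 2 + 1)))
    (hQ.ren _) w a
  refine ⟨b, fun x => (hb x).trans (and_congr_right fun _ => ?_)⟩
  refine Iff.trans (iff_of_eq (congrArg Q ?_)) (h (fun _ => x)).symm
  funext n
  simp only [mix]
  by_cases hn : n % 2 = 0
  · simp [hn]
  · simp [hn]

theorem IsSet.sub {P Q : M → Prop} (hQ : IsSet Q) (h : D1 P) (hPQ : ∀ x, P x → Q x) : IsSet P := by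
  obtain ⟨a, ha⟩ := hQ
  obtain ⟨b, hb⟩ := IsSet.sep h a
  exact ⟨b, fun x => (hb x).trans ⟨fun h => h.2, fun h => ⟨(ha x).2 (hPQ x h), h⟩⟩⟩

theorem IsSet.repl {R : M → M → Prop} (h : D2 R) (a : M) (hu : ∀ x, isin x a → ∃! y, R x y) :
    IsSet (fun y => ∃ x, isin x a ∧ R x y) := by
  obtain ⟨Q, w, hQ, h⟩ := h
  obtain ⟨b, hb⟩ := (ZFM.zf (M := M)).repl
    (fun v => Q (fun n => v (if n % 2 = 0 then (if n = 0 then 0 else 1) else n / 2 + 2)))
    (hQ.ren _) w a (fun x hx => by
      obtain ⟨y, hy, hy'⟩ := hu x hx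
      have key : ∀ y, R x y ↔ Q (fun n => cons x (cons y w)
          (if n % 2 = 0 then (if n = 0 then 0 else 1) else n / 2 + 2)) := by
        intro y
        refine (h (fun n => if n = 0 then x else y)).trans (iff_of_eq (congrArg Q ?_))
        funext n
        simp only [mix]
        by_cases hn : n % 2 = 0
        · by_cases h0 : n = 0
          · simp [h0]
          · have : n / 2 ≠ 0 := by omega
            simp [hn, h0, this, cons]
        · simp [hn, cons]
      exact ⟨y, (key y).1 hy, fun z hz => hy' z ((key z).2 hz)⟩)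
  refine ⟨b, fun y => (hb y).trans (exists_congr fun x => and_congr_right fun _ => ?_)⟩
  refine Iff.trans (iff_of_eq (congrArg Q ?_)) (h (fun n => if n = 0 then x else y)).symm
  funext n
  simp only [mix]
  by_cases hn : n % 2 = 0
  · by_cases h0 : n = 0
    · simp [h0]
    · have : n / 2 ≠ 0 := by omega
      simp [hn, h0, this, cons]
  · simp [hn, cons]

/-- A class type: a Lean type together with an injective coding of its elements by elements of `M`
such that the codes form a definable class. -/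
class Cl (M : Type) [ZFM M] (α : Type) where
  code : α → M
  inj : Function.Injective code
  dom : D1 (fun x : M => ∃ a, code a = x)

/-- the code of an element of a class type -/
abbrev cod (M : Type) [ZFM M] {α : Type} [Cl M α] (a : α) : M := Cl.code a

/-- A set type: the codes form a set of the model. -/
class Ob (M : Type) [ZFM M] (α : Type) [Cl M α] : Prop where
  set : IsSet (fun x : M => ∃ a : α, Cl.code a = x)

variable {α β γ δ : Type} [Cl M α] [Cl M β] [Cl M γ] [Cl M δ]

/-- The Lean function `f` between class types is internal: its graph is definable with parameters. -/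
@[fun_prop]
def IF (M : Type) [ZFM M] {α β : Type} [Cl M α] [Cl M β] (f : α → β) : Prop :=
  D2 (fun x y : M => ∃ a, Cl.code a = x ∧ Cl.code (f a) = y)

theorem D1.at {P : M → Prop} (h : D1 P) (i : ℕ) : PD (fun v : ℕ → M => P (v i)) := h.ren (fun _ => i)
theorem D2.at {P : M → M → Prop} (h : D2 P) (i j : ℕ) : PD (fun v : ℕ → M => P (v i) (v j)) :=
  h.ren (fun n => match n with | 0 => i | _ => j)
theorem D3.at {P : M → M → M → Prop} (h : D3 P) (i j k : ℕ) :
    PD (fun v : ℕ → M => P (v i) (v j) (v k)) :=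
  h.ren (fun n => match n with | 0 => i | 1 => j | _ => k)

theorem D1.congr {P Q : M → Prop} (h : D1 P) (hPQ : ∀ x, Q x ↔ P x) : D1 Q :=
  PD.congr h fun _ => hPQ _
theorem D2.congr {P Q : M → M → Prop} (h : D2 P) (hPQ : ∀ x y, Q x y ↔ P x y) : D2 Q :=
  PD.congr h fun _ => hPQ _ _

theorem D1.eqc (c : M) : D1 (fun x : M => x = c) :=
  PD.congr ((PD.eq 1 0).inst c) fun _ => Iff.rfl
theorem D1.memc (c : M) : D1 (fun x : M => isin x c) :=
  PD.congr ((PD.mem 1 0).inst c) fun _ => Iff.rfl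
theorem D2.inst {P : M → M → Prop} (h : D2 P) (c : M) : D1 (fun x => P c x) :=
  PD.congr (PD.inst h c) fun _ => Iff.rfl
theorem D2.inst' {P : M → M → Prop} (h : D2 P) (c : M) : D1 (fun x => P x c) :=
  PD.congr (PD.inst (h.at 1 0) c) fun _ => Iff.rfl
theorem D3.inst {P : M → M → M → Prop} (h : D3 P) (c : M) : D2 (fun x y => P c x y) :=
  PD.congr (PD.inst h c) fun _ => Iff.rfl

theorem mem_ext {a b : M} (h : ∀ x, isin x a ↔ isin x b) : a = b := ZFM.zf.ext a b h

/-! ### pairs -/

theorem exists_upair (a b : M) : ∃ c, ∀ x, isin x c ↔ x = a ∨ x = b := ZFM.zf.pair a b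

noncomputable def upair (a b : M) : M := Classical.choose (exists_upair a b)

@[simp] theorem mem_upair {a b x : M} : isin x (upair a b) ↔ x = a ∨ x = b :=
  Classical.choose_spec (exists_upair a b) x

noncomputable def opair (a b : M) : M := upair (upair a a) (upair a b)

theorem upair_self_inj {a b : M} (h : upair a a = upair b b) : a = b := by
  have : isin a (upair b b) := h ▸ mem_upair.2 (Or.inl rfl)
  simpa using this

theorem opair_inj {a b c d : M} (h : opair a b = opair c d) : a = c ∧ b = d := by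
  have hac : a = c := by
    have h1 : isin (upair a a) (opair c d) := by rw [← h]; simp [opair]
    have h2 : isin (upair c c) (opair a b) := by rw [h]; simp [opair]
    rcases mem_upair.1 h1 with h1 | h1
    · exact upair_self_inj h1
    · have : isin c (upair a a) := by rw [h1]; simp
      have h3 : c = a := by simpa using this
      exact h3.symm
  subst hac
  refine ⟨rfl, ?_⟩
  have h1 : isin (upair a b) (opair a d) := by rw [← h]; simp [opair]
  have h2 : isin (upair a d) (opair a b) := by rw [h]; simp [opair]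
  have h3 : isin b (upair a d) := by
    rcases mem_upair.1 h1 with h1 | h1
    · have : isin b (upair a a) := by rw [← h1]; simp
      have hb : b = a := by simpa using this
      simp [hb]
    · rw [← h1]; simp
  have h4 : isin d (upair a b) := by
    rcases mem_upair.1 h2 with h2 | h2
    · have : isin d (upair a a) := by rw [← h2]; simp
      have hb : d = a := by simpa using this
      simp [hb]
    · rw [← h2]; simp
  rcases mem_upair.1 h3 with h3 | h3
  · rcases mem_upair.1 h4 with h4 | h4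
    · rw [h3, h4]
    · exact h4.symm
  · exact h3

theorem eq_opair_iff {z x y : M} : z = opair x y ↔
    ∀ u, isin u z ↔ ((∀ t, isin t u ↔ t = x) ∨ (∀ t, isin t u ↔ (t = x ∨ t = y))) := by
  have h1 : ∀ u, (∀ t, isin t u ↔ t = x) ↔ u = upair x x := fun u =>
    ⟨fun h => mem_ext fun t => by simp [h t], fun h t => by simp [h]⟩
  have h2 : ∀ u, (∀ t, isin t u ↔ (t = x ∨ t = y)) ↔ u = upair x y := fun u =>
    ⟨fun h => mem_ext fun t => by simp [h t], fun h t => by simp [h]⟩
  constructor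
  · rintro rfl u
    rw [h1, h2]
    exact mem_upair
  · intro h
    refine mem_ext fun u => ?_
    rw [h, h1, h2]
    exact mem_upair.symm

theorem PD_opair (i j k : ℕ) : PD (fun v : ℕ → M => v i = opair (v j) (v k)) := by
  refine PD.congr (P := fun v : ℕ → M => ∀ u, isin u (v i) ↔
    ((∀ t, isin t u ↔ t = v j) ∨ (∀ t, isin t u ↔ (t = v j ∨ t = v k)))) ?_
    (fun v => eq_opair_iff)
  refine PD.all (P := fun v : ℕ → M => isin (v 0) (v (i+1)) ↔
    ((∀ t, isin t (v 0) ↔ t = v (j+1)) ∨ (∀ t, isin t (v 0) ↔ (t = v (j+1) ∨ t = v (k+1))))) ?_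
  refine (PD.mem _ _).iff (PD.or ?_ ?_)
  · refine PD.all (P := fun v : ℕ → M => isin (v 0) (v 1) ↔ v 0 = v (j+2)) ?_
    exact (PD.mem _ _).iff (PD.eq _ _)
  · refine PD.all (P := fun v : ℕ → M => isin (v 0) (v 1) ↔ (v 0 = v (j+2) ∨ v 0 = v (k+2))) ?_
    exact (PD.mem _ _).iff ((PD.eq _ _).or (PD.eq _ _))

/-! ### the empty set and one -/

theorem exists_em : ∃ e : M, ∀ x, ¬ isin x e := by
  obtain ⟨a, ⟨e, _, he⟩, _⟩ := (ZFM.zf (M := M)).inf
  exact ⟨e, he⟩

noncomputable def em (M : Type) [ZFM M] : M := Classical.choose (exists_em (M := M))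
@[simp] theorem not_mem_em {x : M} : ¬ isin x (em M) := Classical.choose_spec (exists_em (M := M)) x

noncomputable def one (M : Type) [ZFM M] : M := upair (em M) (em M)

theorem one_ne_em : one M ≠ em M := by
  intro h
  have : isin (em M) (em M) := by
    conv_rhs => rw [← h]
    simp [one]
  exact not_mem_em this

theorem mem_irrefl (x : M) : ¬ isin x x := by
  intro h
  obtain ⟨y, hy, h'⟩ := ZFM.zf.found (upair x x) ⟨x, by simp⟩
  have : y = x := by simpa using hy
  subst this
  exact h' y h (by simp)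

/-! ### instances -/

instance : Cl M M := ⟨id, Function.injective_id, ((PD.eq 0 0).congr fun v => by simp)⟩

open Classical in
noncomputable instance : Cl M Prop where
  code p := if p then one M else em M
  inj p q h := by
    by_cases hp : p <;> by_cases hq : q <;> simp [hp, hq] at h ⊢
    · exact one_ne_em h
    · exact one_ne_em h.symm
  dom := by
    refine PD.congr (((D1.eqc (one M)).at 0).or ((D1.eqc (em M)).at 0)) fun v => ?_
    constructor
    · rintro ⟨a, ha⟩
      by_cases h : a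
      · left; simpa [h] using ha.symm
      · right; simpa [h] using ha.symm
    · rintro (h | h)
      · exact ⟨True, by simp [h]⟩
      · exact ⟨False, by simp [h]⟩

theorem code_of {p : Prop} (h : p) : cod M p = one M := if_pos h
theorem code_not {p : Prop} (h : ¬ p) : cod M p = em M := if_neg h
theorem code_true : cod M True = one M := code_of trivial
theorem code_false : cod M False = em M := code_not not_false
theorem code_eq_one {p : Prop} : cod M p = one M ↔ p := by
  constructor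
  · intro h
    by_contra hp
    rw [code_not hp] at h
    exact one_ne_em h.symm
  · exact code_of
theorem code_eq_em {p : Prop} : cod M p = em M ↔ ¬ p := by
  constructor
  · intro h hp
    rw [code_of hp] at h
    exact one_ne_em h
  · exact code_not

instance : Ob M Prop := ⟨⟨upair (one M) (em M), fun x => by
  rw [mem_upair]
  constructor
  · rintro (h | h)
    · exact ⟨True, code_true.trans h.symm⟩
    · exact ⟨False, code_false.trans h.symm⟩
  · rintro ⟨a, rfl⟩
    by_cases h : a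
    · left; exact code_of h
    · right; exact code_not h⟩⟩

noncomputable instance : Cl M (α × β) where
  code p := opair (Cl.code p.1) (Cl.code p.2)
  inj p q h := by
    obtain ⟨h1, h2⟩ := opair_inj h
    exact Prod.ext (Cl.inj h1) (Cl.inj h2)
  dom := by
    have h := ((Cl.dom (M := M) (α := α)).at 1).and (((Cl.dom (M := M) (α := β)).at 0).and
      (PD_opair (M := M) 2 1 0))
    refine PD.congr h.ex.ex fun v => ?_
    constructor
    · rintro ⟨⟨a, b⟩, h⟩
      exact ⟨Cl.code a, Cl.code b, ⟨a, rfl⟩, ⟨b, rfl⟩, h.symm⟩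
    · rintro ⟨x, y, ⟨a, ha⟩, ⟨b, hb⟩, h⟩
      refine ⟨(a, b), ?_⟩
      have h' : v 0 = opair x y := h
      have ha' : cod M a = x := ha
      have hb' : cod M b = y := hb
      rw [h', ← ha', ← hb']

noncomputable instance : Cl M Unit where
  code _ := em M
  inj a b h := rfl
  dom := PD.congr ((D1.eqc (em M)).at 0) fun v => ⟨fun ⟨_, h⟩ => h.symm, fun h => ⟨(), h.symm⟩⟩

instance : Ob M Unit := ⟨⟨one M, fun x => by
  simp only [one, mem_upair, or_self]
  exact ⟨fun h => ⟨(), h.symm⟩, fun ⟨_, h⟩ => h.symm⟩⟩⟩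


/-! ### internal predicates -/

theorem IF_prop_iff {p : α → Prop} : IF M p ↔ D1 (fun x : M => ∃ a, cod M a = x ∧ p a) := by
  constructor
  · intro h
    refine PD.congr (D2.inst' h (one M)) fun v => exists_congr fun a => and_congr_right fun _ => ?_
    exact code_eq_one.symm
  · intro h
    have h0 := (Cl.dom (M := M) (α := α)).at 0
    refine PD.congr (((h.at 0).and ((D1.eqc (one M)).at 1)).or
      ((h0.and (h.at 0).not).and ((D1.eqc (em M)).at 1))) fun v => ?_
    constructor
    · rintro ⟨a, ha, ha'⟩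
      by_cases h : p a
      · left
        exact ⟨⟨a, ha, h⟩, by rw [← ha']; exact code_of h⟩
      · right
        refine ⟨⟨⟨a, ha⟩, ?_⟩, by rw [← ha']; exact code_not h⟩
        rintro ⟨b, hb, hb'⟩
        exact h (Cl.inj (ha.trans hb.symm) ▸ hb')
    · rintro (⟨⟨a, ha, h⟩, h'⟩ | ⟨⟨⟨a, ha⟩, h⟩, h'⟩)
      · exact ⟨a, ha, by rw [h']; exact code_of h⟩
      · refine ⟨a, ha, ?_⟩
        rw [h']
        exact code_not fun hp => h ⟨a, ha, hp⟩

@[fun_prop] theorem IF.id : IF M (fun a : α => a) := by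
  refine PD.congr (((Cl.dom (M := M) (α := α)).at 0).and (PD.eq 0 1)) fun v => ?_
  constructor
  · rintro ⟨a, h, h'⟩; exact ⟨⟨a, h⟩, h.symm.trans h'⟩
  · rintro ⟨⟨a, h⟩, h'⟩; exact ⟨a, h, h.trans h'⟩

@[fun_prop] theorem IF.const (b : β) : IF M (fun _ : α => b) := by
  refine PD.congr (((Cl.dom (M := M) (α := α)).at 0).and ((D1.eqc (cod M b)).at 1)) fun v => ?_
  constructor
  · rintro ⟨a, h, h'⟩; exact ⟨⟨a, h⟩, h'.symm⟩
  · rintro ⟨⟨a, h⟩, h'⟩; exact ⟨a, h, h'.symm⟩

@[fun_prop] theorem IF.comp {f : β → γ} {g : α → β} (hf : IF M f) (hg : IF M g) :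
    IF M (fun a => f (g a)) := by
  refine PD.congr ((D2.at hg 1 0).and (D2.at hf 0 2)).ex fun v => ?_
  constructor
  · rintro ⟨a, h, h'⟩; exact ⟨cod M (g a), ⟨a, h, rfl⟩, ⟨g a, rfl, h'⟩⟩
  · rintro ⟨z, ⟨a, h, h'⟩, ⟨b, hb, hb'⟩⟩
    have hb1 : cod M b = z := hb
    have h1 : cod M (g a) = z := h'
    have : b = g a := Cl.inj (hb1.trans h1.symm)
    subst this
    exact ⟨a, h, hb'⟩

@[fun_prop] theorem IF.prodMk {f : α → β} {g : α → γ} (hf : IF M f) (hg : IF M g) :
    IF M (fun a => (f a, g a)) := by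
  refine PD.congr ((D2.at hf 2 1).and ((D2.at hg 2 0).and (PD_opair 3 1 0))).ex.ex fun v => ?_
  constructor
  · rintro ⟨a, h, h'⟩
    exact ⟨cod M (f a), cod M (g a), ⟨a, h, rfl⟩, ⟨a, h, rfl⟩, h'.symm⟩
  · rintro ⟨x, y, ⟨a, h, h1⟩, ⟨b, hb, h2⟩, h3⟩
    have e1 : cod M a = v 0 := h
    have e2 : cod M b = v 0 := hb
    have : b = a := Cl.inj (e2.trans e1.symm)
    subst this
    have h1' : cod M (f b) = x := h1
    have h2' : cod M (g b) = y := h2
    have h3' : v 1 = opair x y := h3
    exact ⟨b, h, by rw [h3', ← h1', ← h2']; rfl⟩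

@[fun_prop] theorem IF.fst : IF M (Prod.fst : α × β → α) := by
  refine PD.congr (((Cl.dom (M := M) (α := α)).at 2).and
    (((Cl.dom (M := M) (α := β)).at 0).and (PD_opair 1 2 0))).ex fun v => ?_
  constructor
  · rintro ⟨⟨a, b⟩, h, h'⟩
    have h1 : cod M a = v 1 := h'
    exact ⟨cod M b, ⟨a, h'⟩, ⟨b, rfl⟩, by
      show v 0 = opair (v 1) (cod M b)
      rw [← h1]; exact h.symm⟩
  · rintro ⟨z, ⟨a, ha⟩, ⟨b, hb⟩, h⟩
    have h' : v 0 = opair (v 1) z := h
    have ha' : cod M a = v 1 := ha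
    have hb' : cod M b = z := hb
    exact ⟨(a, b), by rw [h', ← ha', ← hb']; rfl, ha⟩

@[fun_prop] theorem IF.snd : IF M (Prod.snd : α × β → β) := by
  refine PD.congr (((Cl.dom (M := M) (α := α)).at 0).and
    (((Cl.dom (M := M) (α := β)).at 2).and (PD_opair 1 0 2))).ex fun v => ?_
  constructor
  · rintro ⟨⟨a, b⟩, h, h'⟩
    have h1 : cod M b = v 1 := h'
    exact ⟨cod M a, ⟨a, rfl⟩, ⟨b, h'⟩, by
      show v 0 = opair (cod M a) (v 1)
      rw [← h1]; exact h.symm⟩
  · rintro ⟨z, ⟨a, ha⟩, ⟨b, hb⟩, h⟩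
    have h' : v 0 = opair z (v 1) := h
    have ha' : cod M a = z := ha
    have hb' : cod M b = v 1 := hb
    exact ⟨(a, b), by rw [h', ← ha', ← hb']; rfl, hb⟩

theorem exists_cod_iff {p : α → Prop} (a : α) : (∃ b, cod M b = cod M a ∧ p b) ↔ p a :=
  ⟨fun ⟨_, h, h'⟩ => Cl.inj h ▸ h', fun h => ⟨a, rfl, h⟩⟩

@[fun_prop] theorem IF.not {p : α → Prop} (hp : IF M p) : IF M (fun a => ¬ p a) := by
  rw [IF_prop_iff] at *
  refine PD.congr (((Cl.dom (M := M) (α := α)).at 0).and (hp.at 0).not) fun v => ?_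
  constructor
  · rintro ⟨a, h, h'⟩
    refine ⟨⟨a, h⟩, ?_⟩
    rintro ⟨b, hb, hb'⟩
    exact h' (Cl.inj ((h : cod M a = v 0).trans (hb : cod M b = v 0).symm) ▸ hb')
  · rintro ⟨⟨a, h⟩, h'⟩
    exact ⟨a, h, fun hp => h' ⟨a, h, hp⟩⟩

@[fun_prop] theorem IF.and {p q : α → Prop} (hp : IF M p) (hq : IF M q) :
    IF M (fun a => p a ∧ q a) := by
  rw [IF_prop_iff] at *
  refine PD.congr ((hp.at 0).and (hq.at 0)) fun v => ?_
  constructor
  · rintro ⟨a, h, h', h''⟩
    exact ⟨⟨a, h, h'⟩, ⟨a, h, h''⟩⟩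
  · rintro ⟨⟨a, h, h'⟩, ⟨b, hb, h''⟩⟩
    have e1 : cod M a = v 0 := h
    have e2 : cod M b = v 0 := hb
    have : b = a := Cl.inj (e2.trans e1.symm)
    subst this
    exact ⟨b, h, h', h''⟩

theorem IF.congrP {p q : α → Prop} (hp : IF M p) (h : ∀ a, q a ↔ p a) : IF M q := by
  have : q = p := funext fun a => propext (h a)
  rw [this]; exact hp

@[fun_prop] theorem IF.or {p q : α → Prop} (hp : IF M p) (hq : IF M q) :
    IF M (fun a => p a ∨ q a) :=
  (hp.not.and hq.not).not.congrP fun a => by tauto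

@[fun_prop] theorem IF.imp {p q : α → Prop} (hp : IF M p) (hq : IF M q) :
    IF M (fun a => p a → q a) :=
  (hp.and hq.not).not.congrP fun a => by tauto

@[fun_prop] theorem IF.iff {p q : α → Prop} (hp : IF M p) (hq : IF M q) :
    IF M (fun a => p a ↔ q a) :=
  ((hp.imp hq).and (hq.imp hp)).congrP fun a => by tauto

@[fun_prop] theorem IF.eq {f g : α → β} (hf : IF M f) (hg : IF M g) :
    IF M (fun a => f a = g a) := by
  rw [IF_prop_iff]
  refine PD.congr ((D2.at hf 1 0).and (D2.at hg 1 0)).ex fun v => ?_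
  constructor
  · rintro ⟨a, h, h'⟩
    exact ⟨cod M (f a), ⟨a, h, rfl⟩, ⟨a, h, by rw [h']; rfl⟩⟩
  · rintro ⟨z, ⟨a, h, h'⟩, ⟨b, hb, h''⟩⟩
    have e1 : cod M a = v 0 := h
    have e2 : cod M b = v 0 := hb
    have : b = a := Cl.inj (e2.trans e1.symm)
    subst this
    exact ⟨b, h, Cl.inj ((h' : cod M (f b) = z).trans (h'' : cod M (g b) = z).symm)⟩

@[fun_prop] theorem IF.ex {p : α → β → Prop} (hp : IF M (fun q : α × β => p q.1 q.2)) :
    IF M (fun a => ∃ b, p a b) := by
  rw [IF_prop_iff] at *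
  refine PD.congr (((hp.at 0).and (((Cl.dom (M := M) (α := α)).at 2).and
    (((Cl.dom (M := M) (α := β)).at 1).and (PD_opair 0 2 1)))).ex.ex) fun v => ?_
  constructor
  · rintro ⟨a, h, b, hb⟩
    refine ⟨cod M b, opair (v 0) (cod M b), ⟨(a, b), ?_, hb⟩, ⟨a, h⟩, ⟨b, rfl⟩, rfl⟩
    show opair (cod M a) (cod M b) = opair (v 0) (cod M b)
    rw [h]
  · rintro ⟨y, z, ⟨⟨a, b⟩, hab, hp⟩, ⟨a', ha'⟩, ⟨b', hb'⟩, h⟩
    have h1 : z = opair (v 0) y := h
    have h2 : opair (cod M a) (cod M b) = z := hab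
    exact ⟨a, (opair_inj (h2.trans h1)).1, b, hp⟩

@[fun_prop] theorem IF.all {p : α → β → Prop} (hp : IF M (fun q : α × β => p q.1 q.2)) :
    IF M (fun a => ∀ b, p a b) :=
  (IF.ex (p := fun a b => ¬ p a b) hp.not).not.congrP fun a => by simp

/-- A function is internal as soon as its graph is. -/
theorem IF.of_graph {f : α → β} (h : IF M (fun p : α × β => f p.1 = p.2)) : IF M f := by
  rw [IF_prop_iff] at h
  refine PD.congr ((h.at 0).and (((Cl.dom (M := M) (α := α)).at 1).and
    (((Cl.dom (M := M) (α := β)).at 2).and (PD_opair 0 1 2)))).ex fun v => ?_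
  constructor
  · rintro ⟨a, h, h'⟩
    refine ⟨opair (v 0) (v 1), ⟨(a, f a), ?_, rfl⟩, ⟨a, h⟩, ⟨f a, h'⟩, rfl⟩
    have e1 : cod M a = v 0 := h
    have e2 : cod M (f a) = v 1 := h'
    show opair (cod M a) (cod M (f a)) = opair (v 0) (v 1)
    rw [e1, e2]
  · rintro ⟨z, ⟨⟨a, b⟩, hab, hp⟩, ⟨a', ha'⟩, ⟨b', hb'⟩, h⟩
    have h1 : z = opair (v 0) (v 1) := h
    have h2 : opair (cod M a) (cod M b) = z := hab
    have h3 := opair_inj (h2.trans h1)
    have hp' : f a = b := hp
    subst hp'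
    exact ⟨a, h3.1, h3.2⟩

/-- unique choice -/
theorem exists_of_unique {p : α → β → Prop} (hp : IF M (fun q : α × β => p q.1 q.2))
    (h : ∀ a, ∃! b, p a b) : ∃ f : α → β, IF M f ∧ ∀ a, p a (f a) := by
  choose f hf hu using h
  refine ⟨f, IF.of_graph (hp.congrP fun q => ?_), hf⟩
  exact ⟨fun h => h ▸ hf q.1, fun h => (hu _ _ h).symm⟩

/-- Replacement: the image of a set type under an internal function into `M` is a set. -/
theorem IF.isSet_range [Ob M α] {f : α → M} (hf : IF M f) : IsSet (fun y => ∃ a, f a = y) := by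
  obtain ⟨s, hs⟩ := Ob.set (M := M) (α := α)
  have h := IsSet.repl (R := fun x y : M => ∃ a, cod M a = x ∧ f a = y) hf s (fun x hx => by
    obtain ⟨a, ha⟩ := (hs x).1 hx
    refine ⟨f a, ⟨a, ha, rfl⟩, ?_⟩
    rintro y ⟨b, hb, rfl⟩
    rw [Cl.inj ((hb : cod M b = x).trans (ha : cod M a = x).symm)])
  obtain ⟨t, ht⟩ := h
  refine ⟨t, fun y => (ht y).trans ?_⟩
  constructor
  · rintro ⟨x, _, a, _, h⟩; exact ⟨a, h⟩
  · rintro ⟨a, h⟩; exact ⟨cod M a, (hs _).2 ⟨a, rfl⟩, a, rfl, h⟩

@[fun_prop] theorem IF.cod : IF M (fun a : α => (Cl.code a : M)) := by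
  refine PD.congr (((Cl.dom (M := M) (α := α)).at 0).and (PD.eq 0 1)) fun v => ?_
  constructor
  · rintro ⟨a, h, h'⟩; exact ⟨⟨a, h⟩, h.symm.trans h'⟩
  · rintro ⟨⟨a, h⟩, h'⟩; exact ⟨a, h, h.trans h'⟩

theorem Ob.of_isSet_sub {P : M → Prop} (hP : IsSet P) (h : ∀ a : α, P (cod M a)) : Ob M α :=
  ⟨hP.sub Cl.dom (by rintro x ⟨a, rfl⟩; exact h a)⟩

/-- the inverse of an internal injection is internal on the image -/
theorem IF.inverse {i : α → β} (hi : IF M i) (g : β → α) (hg : ∀ a, g (i a) = a)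
    (a0 : α) (hg0 : ∀ b, (∀ a, i a ≠ b) → g b = a0) : IF M g := by
  refine IF.of_graph ?_
  have : IF M (fun p : β × α => i p.2 = p.1 ∨ ((∀ a, i a ≠ p.1) ∧ p.2 = a0)) := by fun_prop
  refine this.congrP ?_
  rintro ⟨b, a⟩
  constructor
  · intro hba
    have hba' : g b = a := hba
    by_cases h : ∀ a, i a ≠ b
    · right; exact ⟨h, by rw [← hba]; exact hg0 b h⟩
    · push_neg at h
      obtain ⟨a', rfl⟩ := h
      left
      rw [hg] at hba'
      show i a = i a'
      rw [hba']
  · rintro (h | ⟨h, h'⟩)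
    · have h1 : i a = b := h
      show g b = a
      rw [← h1, hg]
    · have h1 : a = a0 := h'
      show g b = a
      rw [h1, hg0 b h]

/-- surjective images of set types are set types -/
theorem Ob.of_surj [Ob M α] (f : α → β) (hf : IF M f) (hs : Function.Surjective f) : Ob M β := by
  have h := IF.isSet_range (f := fun a => (Cl.code (f a) : M)) (IF.cod.comp hf)
  exact Ob.of_isSet_sub h fun b => by
    obtain ⟨a, rfl⟩ := hs b
    exact ⟨a, rfl⟩

/-- a class type with an internal injection into a set type is a set type -/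
theorem Ob.of_inj [Ob M β] (i : α → β) (hi : IF M i) (hinj : Function.Injective i) : Ob M α := by
  classical
  by_cases hne : Nonempty α
  · obtain ⟨a0⟩ := hne
    let g : β → α := fun b => if h : ∃ a, i a = b then Classical.choose h else a0
    have hg : ∀ a, g (i a) = a := fun a => by
      have h : ∃ a', i a' = i a := ⟨a, rfl⟩
      simp only [g, dif_pos h]
      exact hinj (Classical.choose_spec h)
    have hg0 : ∀ b, (∀ a, i a ≠ b) → g b = a0 := fun b hb => by
      have h : ¬ ∃ a', i a' = b := fun ⟨a, ha⟩ => hb a ha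
      simp only [g, dif_neg h]
    exact Ob.of_surj g (hi.inverse g hg a0 hg0) fun a => ⟨i a, hg a⟩
  · exact ⟨⟨em M, fun x => by simp; exact fun a => (hne ⟨a⟩).elim⟩⟩

/-! ### power sets, unions, products -/

theorem IsSet.power (a : M) : IsSet (fun x => ∀ z, isin z x → isin z a) := ZFM.zf.power a

theorem IsSet.union (a : M) : IsSet (fun x => ∃ y, isin y a ∧ isin x y) := ZFM.zf.union a

theorem IsSet.union2 {P Q : M → Prop} (hP : IsSet P) (hQ : IsSet Q) : IsSet (fun x => P x ∨ Q x) := by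
  obtain ⟨a, ha⟩ := hP
  obtain ⟨b, hb⟩ := hQ
  obtain ⟨c, hc⟩ := IsSet.union (upair a b)
  refine ⟨c, fun x => (hc x).trans ?_⟩
  simp [ha, hb]

instance instObProd [Ob M α] [Ob M β] : Ob M (α × β) := by
  obtain ⟨s, hs⟩ := Ob.set (M := M) (α := α)
  obtain ⟨t, ht⟩ := Ob.set (M := M) (α := β)
  obtain ⟨u, hu⟩ := IsSet.union2 ⟨s, hs⟩ ⟨t, ht⟩
  obtain ⟨pu, hpu⟩ := IsSet.power u
  obtain ⟨ppu, hppu⟩ := IsSet.power pu
  refine Ob.of_isSet_sub ⟨ppu, hppu⟩ fun p z hz => ?_
  rw [hpu]
  intro t ht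
  rw [hu]
  have hz' : isin z (opair (cod M p.1) (cod M p.2)) := hz
  rcases mem_upair.1 hz' with h | h
  · subst h
    left
    simp at ht
    exact ⟨p.1, ht.symm⟩
  · subst h
    rcases mem_upair.1 ht with h | h
    · left; exact ⟨p.1, h.symm⟩
    · right; exact ⟨p.2, h.symm⟩

end Pool.Agent.Helper48.MG
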