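import Pool.Agent.Helper48.MG.Rank

/-!
# Core definitions: pairing on `ω_1`, closure points, the filter `Ev`, the iterated filters `AE n`
-/

set_option autoImplicit false

namespace Pool.Agent.Helper48.MG

variable {M : Type} [ZFM M]
variable {α β γ δ : Type} [Cl M α] [Cl M β] [Cl M γ] [Cl M δ]

/-- functions `ω_1 → ω_1` of the model -/
abbrev Fn (M : Type) [ZFM M] : Type := IFun M (W M) (W M)

/-- the least element of `W` -/
noncomputable def w0 (M : Type) [ZFM M] : W M := nat 0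

theorem w0_le (a : W M) : w0 M ≤ a := by
  by_contra h
  obtain ⟨m, hm⟩ := nat_initial (n := 0) (not_le.1 h).le
  subst hm
  exact not_le.1 h |> fun h => N.not_lt_zero m (nat_lt.1 h)

theorem W.no_max (a : W M) : ∃ b, a < b := by
  obtain ⟨f, hf⟩ := exists_cov_W a
  obtain ⟨b, hb⟩ := not_cov_W f
  refine ⟨b, ?_⟩
  by_contra h
  obtain ⟨n, hn⟩ := hf b (not_lt.1 h)
  exact hb n hn

/-- successor in `W` -/
noncomputable def sW (a : W M) : W M := lst M (fun b => a < b)

@[fun_prop] theorem IF.sW {f : α → W M} (hf : IF M f) : IF M (fun x => sW (f x)) := by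
  unfold MG.sW; fun_prop

theorem lt_sW_self (a : W M) : a < sW a :=
  lst_spec (P := fun b => a < b) (by fun_prop) (W.no_max a)

theorem sW_le {a b : W M} : sW a ≤ b ↔ a < b :=
  ⟨fun h => lt_of_lt_of_le (lt_sW_self a) h,
    fun h => lst_le (P := fun b => a < b) (by fun_prop) h⟩

theorem lt_sW {a b : W M} : a < sW b ↔ a ≤ b := by rw [← not_le, sW_le, not_lt]

/-- an internal surjection `N → N × N` -/
theorem exists_unpr : ∃ u : IFun M (N M) (N M × N M), ∀ p, ∃ n, u n = p := by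
  classical
  have hP : IF M (fun q : N M × (N M × N M) => (pr q.2.1 q.2.2 = q.1) ∨
      ((¬ ∃ p : N M × N M, pr p.1 p.2 = q.1) ∧ q.2 = (0, 0))) := by fun_prop
  obtain ⟨f, hf, hf'⟩ := exists_of_unique (p := fun (n : N M) (p : N M × N M) =>
      (pr p.1 p.2 = n) ∨ ((¬ ∃ p : N M × N M, pr p.1 p.2 = n) ∧ p = (0, 0))) hP (fun n => by
    by_cases h : ∃ p : N M × N M, pr p.1 p.2 = n
    · obtain ⟨p, hp⟩ := h
      refine ⟨p, Or.inl hp, ?_⟩
      rintro q (hq | hq)
      · obtain ⟨h1, h2⟩ := pr_inj (hq.trans hp.symm)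
        exact Prod.ext h1 h2
      · exact (hq.1 ⟨p, hp⟩).elim
    · refine ⟨(0, 0), Or.inr ⟨h, rfl⟩, ?_⟩
      rintro q (hq | hq)
      · exact (h ⟨q, hq⟩).elim
      · exact hq.2)
  refine ⟨⟨f, hf⟩, fun p => ⟨pr p.1 p.2, ?_⟩⟩
  rcases hf' (pr p.1 p.2) with h | h
  · obtain ⟨h1, h2⟩ := pr_inj h
    exact Prod.ext h1 h2
  · exact (h.1 ⟨p, rfl⟩).elim

/-- for a transitive relation ranks below the rank of `x` are taken below `x` -/
theorem exists_rk_eq_below {X : Type} [Cl M X] [Ob M X] {T : Type} [Cl M T] [Ob M T]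
    [LinearOrder T] [IWO M T] [Nonempty T] {R : IFun M (X × X) Prop}
    (ht : ∀ x y z, R (x, y) → R (y, z) → R (x, z)) {x : X} (h : Rkd T R x) {a : T}
    (ha : a < rk T R x) : ∃ y, R (y, x) ∧ rk T R y = a := by
  have h2 : ¬ rk T R x ≤ a := not_le.2 ha
  rw [rk_le_iff h] at h2
  push Not at h2
  obtain ⟨y, hy, hay⟩ := h2
  have h1 : IF M (fun b : T => ∃ y, R (y, x) ∧ rk T R y = b ∧ a ≤ b) := by fun_prop
  obtain ⟨b, ⟨y, hy, hyb, hab⟩, hmin⟩ := IWO.least (M := M) _ h1 ⟨_, y, hy, rfl, hay⟩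
  refine ⟨y, hy, ?_⟩
  rw [hyb]
  by_contra hne
  have hlt : a < b := lt_of_le_of_ne hab fun h => hne h.symm
  have h2 : ¬ rk T R y ≤ a := by rw [hyb]; exact not_le.2 hlt
  rw [rk_le_iff (h.below hy)] at h2
  push Not at h2
  obtain ⟨z, hz, hz'⟩ := h2
  have h3 := hmin (rk T R z) ⟨z, ht _ _ _ hz hy, rfl, hz'⟩
  have h4 := rk_lt (h.below hy) hz
  rw [hyb] at h4
  exact not_le.2 h4 h3

/-- A transitive wellfounded relation all of whose initial segments are countable has ranks in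
`ω_1`. -/
theorem rkd_of_countable {X : Type} [Cl M X] [Ob M X] {R : IFun M (X × X) Prop}
    (ht : ∀ x y z, R (x, y) → R (y, z) → R (x, z)) (hwf : IWf R)
    (hc : ∀ x, ∃ f : IFun M (N M) X, ∀ y, R (y, x) → ∃ n, f n = y) : ∀ x, Rkd (W M) R x := by
  classical
  by_contra hcon
  push Not at hcon
  obtain ⟨x, hx, hx'⟩ := hwf (lam (fun x => ¬ Rkd (W M) R x) (by fun_prop)) hcon
  obtain ⟨f, hf⟩ := hc x
  have h1 : IF M (fun n => rk (W M) R (f n)) := by fun_prop
  obtain ⟨b, hb⟩ := not_cov_W ⟨_, h1⟩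
  apply hx
  refine (RL.intro (a := b) fun y hy => ?_ : RL R x b).rkd
  have hy' : Rkd (W M) R y := not_not.1 (hx' y hy)
  refine ⟨rk (W M) R y, ?_, hy'.rl⟩
  by_contra hlt
  rcases lt_or_eq_of_le (not_lt.1 hlt) with h | h
  · obtain ⟨z, hz, hz'⟩ := exists_rk_eq_below ht hy' h
    obtain ⟨n, hn⟩ := hf z (ht _ _ _ hz hy)
    exact hb n (by show rk (W M) R (f n) = b; rw [hn, hz'])
  · obtain ⟨n, hn⟩ := hf y hy
    exact hb n (by show rk (W M) R (f n) = b; rw [hn, ← h])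

/-- an internal injection `ω_1 × ω_1 → ω_1` avoiding the least element -/
theorem exists_pw : ∃ p : W M → W M → W M, IF M (fun q : W M × W M => p q.1 q.2) ∧
    (∀ a b c d, p a b = p c d → a = c ∧ b = d) ∧ ∀ a b, p a b ≠ w0 M := by
  let R : IFun M ((W M × W M) × (W M × W M)) Prop := lam (fun q =>
    max q.1.1 q.1.2 < max q.2.1 q.2.2 ∨ (max q.1.1 q.1.2 = max q.2.1 q.2.2 ∧
      (q.1.1 < q.2.1 ∨ (q.1.1 = q.2.1 ∧ q.1.2 < q.2.2)))) (by fun_prop)
  have hR : ∀ x y, R (x, y) ↔ (max x.1 x.2 < max y.1 y.2 ∨ (max x.1 x.2 = max y.1 y.2 ∧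
      (x.1 < y.1 ∨ (x.1 = y.1 ∧ x.2 < y.2)))) := fun x y => Iff.rfl
  have ht : ∀ x y z, R (x, y) → R (y, z) → R (x, z) := by
    intro x y z
    rw [hR, hR, hR]
    rintro (h | ⟨h, h'⟩) (k | ⟨k, k'⟩)
    · exact Or.inl (h.trans k)
    · exact Or.inl (k ▸ h)
    · exact Or.inl (h ▸ k)
    · right
      refine ⟨h.trans k, ?_⟩
      rcases h' with h' | ⟨h', h''⟩ <;> rcases k' with k' | ⟨k', k''⟩
      · exact Or.inl (h'.trans k')
      · exact Or.inl (k' ▸ h')
      · exact Or.inl (h' ▸ k')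
      · exact Or.inr ⟨h'.trans k', h''.trans k''⟩
  have hwf : IWf R := by
    rintro P ⟨x, hx⟩
    obtain ⟨m, ⟨x, hx, hxm⟩, hm⟩ := IWO.least (M := M)
      (fun m : W M => ∃ x : W M × W M, P x ∧ max x.1 x.2 = m) (by fun_prop) ⟨_, x, hx, rfl⟩
    obtain ⟨a, ⟨b, hab, habm⟩, ha⟩ := IWO.least (M := M)
      (fun a : W M => ∃ b : W M, P (a, b) ∧ max a b = m) (by fun_prop) ⟨x.1, x.2, hx, hxm⟩
    obtain ⟨b, ⟨hab, habm⟩, hb⟩ := IWO.least (M := M)
      (fun b : W M => P (a, b) ∧ max a b = m) (by fun_prop) ⟨b, hab, habm⟩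
    refine ⟨(a, b), hab, fun y hy hPy => ?_⟩
    rw [hR] at hy
    simp only [habm] at hy
    rcases hy with hy | ⟨hy, hy' | ⟨hy', hy''⟩⟩
    · exact not_le.2 hy (hm _ ⟨y, hPy, rfl⟩)
    · exact not_le.2 hy' (ha _ ⟨y.2, hPy, hy⟩)
    · obtain ⟨c, d⟩ := y
      have hy1 : c = a := hy'
      subst hy1
      exact not_le.2 hy'' (hb _ ⟨hPy, hy⟩)
  have hcnt : ∀ x, ∃ f : IFun M (N M) (W M × W M), ∀ y, R (y, x) → ∃ n, f n = y := by
    intro x
    obtain ⟨f, hf⟩ := exists_cov_W (max x.1 x.2)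
    obtain ⟨u, hu⟩ := exists_unpr (M := M)
    refine ⟨lam (fun n => (f (u n).1, f (u n).2)) (by fun_prop), fun y hy => ?_⟩
    have h1 : max y.1 y.2 ≤ max x.1 x.2 := by
      rw [hR] at hy
      rcases hy with hy | hy
      · exact hy.le
      · exact hy.1.le
    obtain ⟨k, hk⟩ := hf y.1 ((le_max_left _ _).trans h1)
    obtain ⟨l, hl⟩ := hf y.2 ((le_max_right _ _).trans h1)
    obtain ⟨n, hn⟩ := hu (k, l)
    refine ⟨n, ?_⟩
    show (f (u n).1, f (u n).2) = y
    rw [hn]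
    exact Prod.ext hk hl
  have hrk := rkd_of_countable ht hwf hcnt
  have hlin : ∀ x y, rk (W M) R x = rk (W M) R y → x = y := by
    intro x y h
    have h1 : ¬ R (x, y) := fun h' => absurd (rk_lt (hrk y) h') (by rw [h]; exact lt_irrefl _)
    have h2 : ¬ R (y, x) := fun h' => absurd (rk_lt (hrk x) h') (by rw [h]; exact lt_irrefl _)
    rw [hR] at h1 h2
    push Not at h1 h2
    have e1 : max x.1 x.2 = max y.1 y.2 := le_antisymm h2.1 h1.1
    have e2 : x.1 = y.1 := le_antisymm (h2.2 e1.symm).1 (h1.2 e1).1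
    have e3 : x.2 = y.2 := le_antisymm ((h2.2 e1.symm).2 e2.symm) ((h1.2 e1).2 e2)
    exact Prod.ext e2 e3
  refine ⟨fun a b => sW (rk (W M) R (a, b)), by fun_prop, fun a b c d h => ?_, fun a b h => ?_⟩
  · have h' : sW (rk (W M) R (a, b)) = sW (rk (W M) R (c, d)) := h
    have h1 : rk (W M) R (a, b) = rk (W M) R (c, d) := by
      refine le_antisymm ?_ ?_
      · rw [← lt_sW, ← h']; exact lt_sW_self _
      · rw [← lt_sW, h']; exact lt_sW_self _
    have h2 := hlin _ _ h1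
    exact ⟨congrArg Prod.fst h2, congrArg Prod.snd h2⟩
  · have h' : sW (rk (W M) R (a, b)) = w0 M := h
    have h1 := lt_sW_self (rk (W M) R (a, b))
    rw [h'] at h1
    exact not_le.2 h1 (w0_le _)

/-- the pairing on `ω_1` -/
noncomputable def pw (a b : W M) : W M := Classical.choose (exists_pw (M := M)) a b

@[fun_prop] theorem IF.pw {f g : α → W M} (hf : IF M f) (hg : IF M g) :
    IF M (fun x => pw (f x) (g x)) :=
  (Classical.choose_spec (exists_pw (M := M))).1.comp (hf.prodMk hg)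

theorem pw_inj {a b c d : W M} (h : pw a b = pw c d) : a = c ∧ b = d :=
  (Classical.choose_spec (exists_pw (M := M))).2.1 a b c d h

theorem pw_ne {a b : W M} : pw a b ≠ w0 M :=
  (Classical.choose_spec (exists_pw (M := M))).2.2 a b

/-- `a` is a closure point of `f` -/
def Cp (f : Fn M) (a : W M) : Prop := (∃ b, b < a) ∧ ∀ b, b < a → f b < a

@[fun_prop] theorem IF.Cp {f : α → Fn M} {g : α → W M} (hf : IF M f) (hg : IF M g) :
    IF M (fun x => Cp (f x) (g x)) := by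
  unfold MG.Cp; fun_prop

/-- `Q` holds for club many ordinals, i.e. at all closure points of some function -/
def Ev (Q : W M → Prop) : Prop := ∃ f : Fn M, ∀ a, Cp f a → Q a

@[fun_prop] theorem IF.Ev {Q : α → W M → Prop} (hQ : IF M (fun q : α × W M => Q q.1 q.2)) :
    IF M (fun x => Ev (Q x)) := by
  unfold MG.Ev
  have h : IF M (fun r : (α × Fn M) × W M => Q r.1.1 r.2) :=
    hQ.comp (g := fun r : (α × Fn M) × W M => (r.1.1, r.2)) (by fun_prop)
  fun_prop

theorem Ev.mono {P Q : W M → Prop} (h : Ev P) (hPQ : ∀ a, P a → Q a) : Ev Q := by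
  obtain ⟨f, hf⟩ := h
  exact ⟨f, fun a ha => hPQ a (hf a ha)⟩

theorem Cp.of_le {f g : Fn M} {a : W M} (h : Cp g a) (hfg : ∀ b, f b ≤ g b) : Cp f a :=
  ⟨h.1, fun b hb => lt_of_le_of_lt (hfg b) (h.2 b hb)⟩

theorem Ev.and {P Q : W M → Prop} (hP : Ev P) (hQ : Ev Q) : Ev (fun a => P a ∧ Q a) := by
  obtain ⟨f, hf⟩ := hP
  obtain ⟨g, hg⟩ := hQ
  refine ⟨lam (fun b => max (f b) (g b)) (by fun_prop), fun a ha => ⟨hf a (ha.of_le fun b => ?_), hg a (ha.of_le fun b => ?_)⟩⟩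
  · exact le_max_left (f b) (g b)
  · exact le_max_right (f b) (g b)

/-- existence of the sequence of the iterated filters -/
theorem exists_AE : ∃ A : N M → IFun M (IFun M (W M) Prop) Prop, IF M A ∧
    (∀ Q : IFun M (W M) Prop, (A 0).toFun Q ↔ Q (w0 M)) ∧
    ∀ n (Q : IFun M (W M) Prop), (A (sc n)).toFun Q ↔
      (A n).toFun (lam (fun t => Ev (fun g => Q (pw t g))) (by fun_prop)) := by
  obtain ⟨A, hA, h0, hs⟩ := N.exists_rec (M := M) (γ := Unit)
    (β := IFun M (IFun M (W M) Prop) Prop) (fun _ => lam (fun Q : IFun M (W M) Prop => Q (w0 M)) (by fun_prop))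
    (fun _ _ U => lam (fun Q : IFun M (W M) Prop => U (lam (fun t => Ev (fun g => Q (pw t g))) (by fun_prop))) (by fun_prop))
    (by fun_prop) (by fun_prop)
  refine ⟨A (), hA.comp (g := fun n : N M => ((), n)) (by fun_prop), fun Q => ?_, fun n Q => ?_⟩
  · rw [h0]; rfl
  · rw [hs]; rfl

/-- `AE n Q`: the predicate `Q` holds for almost all codes `t` of `n`-tuples: the `n`-fold
iteration of the club filter; the code of `(t, g)` is `pw t g`. -/
noncomputable def AE (n : N M) (Q : W M → Prop) : Prop :=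
  ∃ Q' : IFun M (W M) Prop, (∀ a, Q' a ↔ Q a) ∧ (Classical.choose (exists_AE (M := M)) n).toFun Q'

@[fun_prop] theorem IF.AE {f : α → N M} {Q : α → W M → Prop} (hf : IF M f)
    (hQ : IF M (fun q : α × W M => Q q.1 q.2)) : IF M (fun x => AE (f x) (Q x)) := by
  unfold MG.AE
  have h0 : IF M (fun n : N M => Classical.choose (exists_AE (M := M)) n) :=
    (Classical.choose_spec (exists_AE (M := M))).1
  have h1 : IF M (fun r : α × IFun M (W M) Prop =>
      Classical.choose (exists_AE (M := M)) (f r.1)) :=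
    h0.comp (g := fun r : α × IFun M (W M) Prop => f r.1) (by fun_prop)
  have h : IF M (fun r : (α × IFun M (W M) Prop) × W M => Q r.1.1 r.2) :=
    hQ.comp (g := fun r : (α × IFun M (W M) Prop) × W M => (r.1.1, r.2)) (by fun_prop)
  fun_prop

theorem AE_zero {Q : W M → Prop} (hQ : IF M Q) : AE 0 Q ↔ Q (w0 M) := by
  constructor
  · rintro ⟨Q', h, h'⟩
    exact (h _).1 (((Classical.choose_spec (exists_AE (M := M))).2.1 Q').1 h')
  · intro h
    exact ⟨⟨Q, hQ⟩, fun _ => Iff.rfl, ((Classical.choose_spec (exists_AE (M := M))).2.1 _).2 h⟩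

theorem AE_sc {n : N M} {Q : W M → Prop} (hQ : IF M Q) :
    AE (sc n) Q ↔ AE n (fun t => Ev (fun g => Q (pw t g))) := by
  constructor
  · rintro ⟨Q', h, h'⟩
    refine ⟨_, fun a => ?_, ((Classical.choose_spec (exists_AE (M := M))).2.2 n Q').1 h'⟩
    show Ev (fun g => Q' (pw a g)) ↔ _
    simp only [h]
  · rintro ⟨Q', h, h'⟩
    refine ⟨⟨Q, hQ⟩, fun _ => Iff.rfl, ((Classical.choose_spec (exists_AE (M := M))).2.2 n _).2 ?_⟩
    have : Q' = lam (fun t => Ev (fun g => (⟨Q, hQ⟩ : IFun M (W M) Prop) (pw t g))) (by fun_prop) :=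
      IFun.ext fun a => propext (h a)
    rwa [← this]

/-- comparison of functions of `n` variables (functions on codes of `n`-tuples) -/
def ltn (n : N M) (f g : Fn M) : Prop := AE n (fun t => f t < g t)
def len (n : N M) (f g : Fn M) : Prop := AE n (fun t => f t ≤ g t)
def eqn (n : N M) (f g : Fn M) : Prop := AE n (fun t => f t = g t)

@[fun_prop] theorem IF.ltn {n : α → N M} {f g : α → Fn M} (hn : IF M n) (hf : IF M f)
    (hg : IF M g) : IF M (fun x => ltn (n x) (f x) (g x)) := by unfold MG.ltn; fun_prop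
@[fun_prop] theorem IF.len {n : α → N M} {f g : α → Fn M} (hn : IF M n) (hf : IF M f)
    (hg : IF M g) : IF M (fun x => len (n x) (f x) (g x)) := by unfold MG.len; fun_prop
@[fun_prop] theorem IF.eqn {n : α → N M} {f g : α → Fn M} (hn : IF M n) (hf : IF M f)
    (hg : IF M g) : IF M (fun x => eqn (n x) (f x) (g x)) := by unfold MG.eqn; fun_prop

end Pool.Agent.Helper48.MG
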