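import Pool.Agent.Helper48.MG.Core

/-!
# Common definitions of the blocks: restrictions, closed ordinals, nodes
-/

set_option autoImplicit false

namespace Pool.Agent.Helper48.MG

variable {M : Type} [ZFM M]
variable {α β γ δ : Type} [Cl M α] [Cl M β] [Cl M γ] [Cl M δ]

/-- the restriction of a relation on `ω_1` to the ordinals below `g` -/
noncomputable def restr (Z : IFun M (W M × W M) Prop) (g : W M) : IFun M (W M × W M) Prop :=
  lam (fun p => p.1 < g ∧ p.2 < g ∧ Z p) (by fun_prop)

@[fun_prop] theorem IF.restr {f : α → IFun M (W M × W M) Prop} {g : α → W M} (hf : IF M f)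
    (hg : IF M g) : IF M (fun x => restr (f x) (g x)) := by
  unfold MG.restr; fun_prop

@[simp] theorem restr_apply (Z : IFun M (W M × W M) Prop) (g : W M) (p : W M × W M) :
    (restr Z g).toFun p ↔ p.1 < g ∧ p.2 < g ∧ Z p := Iff.rfl

/-- `g` is closed under successor and pairing -/
def Clo (g : W M) : Prop :=
  w0 M < g ∧ (∀ a, a < g → sW a < g) ∧ ∀ a b, a < g → b < g → pw a b < g

@[fun_prop] theorem IF.Clo {f : α → W M} (hf : IF M f) : IF M (fun x => Clo (f x)) := by
  unfold MG.Clo; fun_prop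

theorem Clo.nat_lt {g : W M} (h : Clo g) (n : N M) : nat n < g := by
  refine N.ind (fun n => nat n < g) (by fun_prop) h.1 ?_ n
  intro n ih
  refine lt_of_le_of_lt ?_ (h.2.1 _ ih)
  by_contra hlt
  rw [not_le] at hlt
  obtain ⟨m, hm⟩ := nat_initial hlt.le
  have h1 := lt_sW_self (nat n)
  rw [← hm] at h1 hlt
  have h2 : n < m := MG.nat_lt.1 h1
  have h3 : m < sc n := MG.nat_lt.1 hlt
  exact not_le.2 h2 (N.lt_sc.1 h3)

/-- the node of `s` -/
noncomputable def nd (s : W M) : W M := pw (nat (sc 0)) s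

@[fun_prop] theorem IF.nd {f : α → W M} (hf : IF M f) : IF M (fun x => nd (f x)) := by
  unfold MG.nd; fun_prop

end Pool.Agent.Helper48.MG
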