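import Pool.Agent.Helper48.MG.FinD
import Pool.Agent.Helper18.MG.Ad
import Pool.Agent.Helper36.MG.AlephOmega
import Pool.Agent.Helper87.MG.T3

/-!
# `ℵ_ω` is a Magidor cardinal in every model of ZF + AD
-/

set_option autoImplicit false

namespace Pool.Agent.Helper48.MG

theorem magT (M : Type) [ZFM M] [AD M] : MagT M := by
  intro F
  obtain ⟨f, v, hv⟩ := main_avoid (cin_ad (M := M)) F
  obtain ⟨k, hk⟩ := exists_KK f
  refine ⟨AA k, exists_inj_AA hk, v, fun x hx hb => ?_⟩
  obtain ⟨N0, al, G, hG, rfl⟩ := exists_pat48 hk x hx hb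
  exact hv N0 al G hG

/-- In every model of ZF + AD the cardinal `ℵ_ω` exists and is a Magidor cardinal. -/
theorem alephOmega_magidor : ∀ (M : Type) (E : M → M → Prop), ZF E → ADet E →
    (∃ l, IsAlephOmega E l) ∧ ∀ l, IsAlephOmega E l → Magidor E l := by
  intro M E hZ hA
  letI : ZFM M := ⟨E, hZ⟩
  haveI : AD M := ad_of_ADet hA
  refine ⟨exists_alephOmega, fun l hl => ?_⟩
  rw [eq_alo hl]
  exact magidor_of_typed' (magT M)

end Pool.Agent.Helper48.MG
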