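import Pool.Agent.Helper48.MG.Stmt
import Pool.Agent.Helper48.MG.Arith

/-!
# The typed form of the theorem
-/

set_option autoImplicit false

namespace Pool.Agent.Helper48.MG

variable {M : Type} [ZFM M]

/-- `x` is a countable bounded subset of `ℵ_ω` -/
def CB (x : IFun M (La M) Prop) : Prop :=
  (∃ b, ∀ a, x a → a < b) ∧
    ∃ e : IFun M (N M) (La M), (∀ n, x (e n)) ∧ (∀ a, x a → ∃ n, e n = a) ∧
      ∀ n m, e n = e m → n = m

/-- typed form of the conclusion -/
def MagT (M : Type) [ZFM M] : Prop :=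
  ∀ F : IFun M (IFun M (La M) Prop) (La M), ∃ A : IFun M (La M) Prop,
    (∃ e : IFun M (La M) (La M), (∀ a b, e a = e b → a = b) ∧ ∀ a, A (e a)) ∧
    ∃ v : La M, ∀ x : IFun M (La M) Prop, (∀ a, x a → A a) → CB x → F x ≠ v

end Pool.Agent.Helper48.MG
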