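import Pool.Agent.Helper48.MG.PTs
import Pool.Agent.Helper48.MG.Trans

/-!
# The final argument, part 1: one value is avoided by all patterns
-/

set_option autoImplicit false

namespace Pool.Agent.Helper48.MG

variable {M : Type} [ZFM M]
variable {α β γ δ : Type} [Cl M α] [Cl M β] [Cl M γ] [Cl M δ]

/-- the set of the ranks of the components of `G` in the pattern `(N0, al)` -/
noncomputable def xs (N0 : N M) (al : IFun M (N M) (W M)) (G : G2 M) : IFun M (La M) Prop :=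
  lam (fun a => ∃ n i, n < N0 ∧ i < al n ∧ rkn (sc n) (cmp G n i) = a) (by fun_prop)

@[fun_prop] theorem IF.xs {N0 : α → N M} {al : α → IFun M (N M) (W M)} {G : α → G2 M}
    (h1 : IF M N0) (h2 : IF M al) (h3 : IF M G) : IF M (fun x => xs (N0 x) (al x) (G x)) := by
  unfold MG.xs; fun_prop

theorem xs_iff {N0 : N M} {al : IFun M (N M) (W M)} {G : G2 M} {a : La M} :
    xs N0 al G a ↔ ∃ n i, n < N0 ∧ i < al n ∧ rkn (sc n) (cmp G n i) = a := Iff.rfl

theorem cmp_congr {G G' : G2 M} (h : Ev (fun c => ∀ s, s < c → G (c, s) = G' (c, s))) (n : N M)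
    (i : W M) : eqn (sc n) (cmp G n i) (cmp G' n i) := by
  unfold eqn
  rw [AE_sc (by fun_prop)]
  refine AE.of_forall (by fun_prop) fun t => ?_
  refine (h.and (Ev.gt (tri n t i))).mono ?_
  rintro c ⟨h1, h2⟩
  rw [cmp_pw, cmp_pw]
  exact h1 _ h2

theorem xs_congr (hC : CIn M) {G G' : G2 M}
    (h : Ev (fun c => ∀ s, s < c → G (c, s) = G' (c, s))) (N0 : N M) (al : IFun M (N M) (W M)) :
    xs N0 al G = xs N0 al G' := by
  refine IFun.ext fun a => ?_
  refine propext ?_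
  rw [xs_iff, xs_iff]
  have h1 : ∀ n i, rkn (sc n) (cmp G n i) = rkn (sc n) (cmp G' n i) := fun n i =>
    (rkn_eq_iff hC).2 (cmp_congr h n i)
  simp only [h1]

theorem xs_al {N0 : N M} {al al' : IFun M (N M) (W M)} (h : ∀ k, k < N0 → al k = al' k)
    (G : G2 M) : xs N0 al G = xs N0 al' G := by
  refine IFun.ext fun a => ?_
  refine propext ?_
  rw [xs_iff, xs_iff]
  constructor
  · rintro ⟨n, i, hn, hi, he⟩
    exact ⟨n, i, hn, by rw [← h n hn]; exact hi, he⟩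
  · rintro ⟨n, i, hn, hi, he⟩
    exact ⟨n, i, hn, by rw [h n hn]; exact hi, he⟩

/-- the same with a code of the pattern -/
noncomputable def xw (w : W M) (G : G2 M) : IFun M (La M) Prop :=
  lam (fun a => ∃ (N0 : N M) (al : IFun M (N M) (W M)), cW al N0 = w ∧ xs N0 al G a) (by fun_prop)

@[fun_prop] theorem IF.xw {w : α → W M} {G : α → G2 M}
    (h1 : IF M w) (h3 : IF M G) : IF M (fun x => xw (w x) (G x)) := by
  unfold MG.xw; fun_prop

theorem xw_cW (N0 : N M) (al : IFun M (N M) (W M)) (G : G2 M) : xw (cW al N0) G = xs N0 al G := by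
  refine IFun.ext fun a => ?_
  refine propext ?_
  constructor
  · rintro ⟨N1, al1, h1, h2⟩
    obtain ⟨rfl, h3⟩ := cW_eq_iff.1 h1
    rw [xs_al (fun k hk => (h3 k hk).symm)]
    exact h2
  · intro h
    exact ⟨N0, al, rfl, h⟩

theorem xw_congr (hC : CIn M) {G G' : G2 M}
    (h : Ev (fun c => ∀ s, s < c → G (c, s) = G' (c, s))) (w : W M) :
    xw w G = xw w G' := by
  refine IFun.ext fun a => ?_
  refine propext ?_
  constructor
  · rintro ⟨N1, al1, h1, h2⟩
    exact ⟨N1, al1, h1, by rw [← xs_congr hC h]; exact h2⟩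
  · rintro ⟨N1, al1, h1, h2⟩
    exact ⟨N1, al1, h1, by rw [xs_congr hC h]; exact h2⟩

theorem CT.mono_fn {lo : IFun M (W M × W M) Prop} {f g : Fn M} (hfg : ∀ b, f b ≤ g b) {G : G2 M}
    (h : CT lo (CP g) G) : CT lo (CP f) G := by
  obtain ⟨e, he⟩ := h
  refine ⟨e, he.mono fun c hc s hs => ?_⟩
  obtain ⟨h1, h2, h3, h4, h5, h6⟩ := hc s hs
  exact ⟨h1, h2, h3, h4, Cp.of_le h5 hfg, h6⟩

theorem exists_CT [AD M] (f : Fn M) : ∃ G : G2 M, CT (lo0 M) (CP f) G := by
  obtain ⟨k, hk⟩ := exists_KK f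
  obtain ⟨G, hG, _⟩ := realize hk 0 (lam (fun _ => w0 M) (by fun_prop)) (lam (fun _ => top M) (by fun_prop))
    (fun n i j hn => (N.not_lt_zero n hn).elim) (fun n i hn => (N.not_lt_zero n hn).elim)
  exact ⟨G, hG⟩

theorem exists_CT2 [AD M] (f g : Fn M) : ∃ G : G2 M, CT (lo0 M) (CP f) G ∧ CT (lo0 M) (CP g) G := by
  obtain ⟨G, hG⟩ := exists_CT (lam (fun b => max (f b) (g b)) (by fun_prop))
  exact ⟨G, hG.mono_fn fun b => le_max_left _ _, hG.mono_fn fun b => le_max_right _ _⟩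

/-- a value which is avoided by all patterns -/
theorem main_avoid [AD M] (hC : CIn M) (F : IFun M (IFun M (La M) Prop) (La M)) :
    ∃ (f : Fn M) (v : La M), ∀ (N0 : N M) (al : IFun M (N M) (W M)) (G : G2 M),
      CT (lo0 M) (CP f) G → F (xs N0 al G) ≠ v := by
  -- the frequent value of a pattern
  let ze : W M → La M := fun w => lst M (fun z => ∃ f : Fn M, ∀ G, CT (lo0 M) (CP f) G →
    F (xw w G) = z)
  have hze : IF M ze := by
    show IF M (fun w => lst M (fun z => ∃ f : Fn M, ∀ G, CT (lo0 M) (CP f) G → F (xw w G) = z))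
    fun_prop
  have hz1 : ∀ w z (f : Fn M), (∀ G, CT (lo0 M) (CP f) G → F (xw w G) = z) → ze w = z := by
    intro w z f hf
    obtain ⟨g, hg⟩ : ∃ g : Fn M, ∀ G, CT (lo0 M) (CP g) G → F (xw w G) = ze w :=
      lst_spec (P := fun z => ∃ f : Fn M, ∀ G, CT (lo0 M) (CP f) G → F (xw w G) = z)
        (by fun_prop) ⟨z, f, hf⟩
    obtain ⟨G, h1, h2⟩ := exists_CT2 f g
    rw [← hf G h1, hg G h2]
  have hfn : IF M (fun b : La M => lst M (fun z : La M => ∃ w, wl w = b ∧ ze w = z)) := by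
    fun_prop
  obtain ⟨v, _, hv⟩ := not_cov_La (sc 0) ⟨_, hfn⟩
  have hv' : ∀ w, ze w ≠ v := by
    intro w hw
    refine hv (wl w) (lt_alL_one_iff.2 ⟨w, rfl⟩) ?_
    show lst M (fun z : La M => ∃ w', wl w' = wl w ∧ ze w' = z) = v
    obtain ⟨w', h1, h2⟩ : ∃ w', wl w' = wl w ∧ ze w' =
        lst M (fun z : La M => ∃ w', wl w' = wl w ∧ ze w' = z) :=
      lst_spec (P := fun z : La M => ∃ w', wl w' = wl w ∧ ze w' = z) (by fun_prop)
        ⟨_, w, rfl, rfl⟩
    rw [← h2, wl_inj h1, hw]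
  -- each pattern avoids v
  have hav : ∀ w, ∃ f : Fn M, ∀ G, CT (lo0 M) (CP f) G → F (xw w G) ≠ v := by
    intro w
    rcases PT (lo0 M) ilo_lo0 (lam (fun p : W M × G2 M => F (xw w p.2) = v) (by fun_prop))
      (fun d d' G _ h => h) (fun d G G' h h' => by
        show F (xw w G') = v
        rw [← xw_congr hC h]
        exact h') with ⟨d, f, hf⟩ | ⟨f, hf⟩
    · exact (hv' w (hz1 w v f hf)).elim
    · exact ⟨f, fun G hG => hf (w0 M) G hG⟩
  rcases PT (lo0 M) ilo_lo0 (lam (fun p : W M × G2 M => ∃ w, w ≤ p.1 ∧ F (xw w p.2) = v) (by fun_prop))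
      (fun d d' G hd h => by
        obtain ⟨w, hw, h⟩ := h
        exact ⟨w, hw.trans hd, h⟩) (fun d G G' h h' => by
        obtain ⟨w, hw, h'⟩ := h'
        exact ⟨w, hw, by rw [← xw_congr hC h]; exact h'⟩) with ⟨d, f, hf⟩ | ⟨f, hf⟩
  · exfalso
    obtain ⟨g, hg⟩ := exists_cov_W d
    obtain ⟨f1, hf1⟩ := exists_fn (A := fun n f => ∀ G, CT (lo0 M) (CP f) G → F (xw (g n) G) ≠ v)
      (by fun_prop) (fun n f f' h hff' G hG => h G (hG.mono_fn hff')) (fun n => hav (g n))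
    obtain ⟨G, h1, h2⟩ := exists_CT2 f f1
    obtain ⟨w, hw, h3⟩ := hf G h1
    obtain ⟨n, rfl⟩ := hg w hw
    exact hf1 n G h2 h3
  · refine ⟨f, v, fun N0 al G hG h => hf (cW al N0) G hG ⟨cW al N0, le_rfl, ?_⟩⟩
    rw [xw_cW]
    exact h

end Pool.Agent.Helper48.MG
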