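import Pool.Agent.Helper48.MG.FinA

/-!
# The final argument, part 2: pairs; the inputs of the block C hold under `AD`
-/

set_option autoImplicit false

namespace Pool.Agent.Helper48.MG

variable {M : Type} [ZFM M] [AD M]

theorem exists_two {k : IFun M (Ps M) (W M)} {f : Fn M} (hk : KK (CP f) k) (n : N M) {z z' : Fn M}
    (h : ltn (sc n) z z') (h' : len (sc n) z' (top M)) :
    ∃ G, CT (lo0 M) (CP f) G ∧ eqn (sc n) (cmp G n (w0 M)) (hz k n z) ∧
      eqn (sc n) (cmp G n (sW (w0 M))) (hz k n z') := by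
  classical
  have hw : w0 M ≠ sW (w0 M) := (lt_sW_self (w0 M)).ne
  have hlt2 : ∀ {i : W M}, i < sW (sW (w0 M)) → i = w0 M ∨ i = sW (w0 M) := by
    intro i hi
    rcases lt_or_eq_of_le (lt_sW.1 hi) with h1 | h1
    · left; exact le_antisymm (lt_sW.1 h1) (w0_le _)
    · right; exact h1
  let al : IFun M (N M) (W M) := lam (fun m => if m = n then sW (sW (w0 M)) else w0 M) (by fun_prop)
  have hal : al n = sW (sW (w0 M)) := if_pos rfl
  have hal' : ∀ m, m ≠ n → al m = w0 M := fun m hm => if_neg hm
  let zf : IFun M (N M × W M) (Fn M) := lam (fun q => if q.2 = w0 M then z else z') (by fun_prop)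
  have hz0 : ∀ m, zf (m, w0 M) = z := fun m => if_pos rfl
  have hz1 : ∀ m, zf (m, sW (w0 M)) = z' := fun m => if_neg hw.symm
  have hzz : len (sc n) z (top M) := by
    unfold len at h' ⊢
    unfold ltn at h
    exact AE.mono (P := fun t => z t < z' t ∧ z' t ≤ (top M) t) (by fun_prop) (by fun_prop)
      (fun t ht => ht.1.le.trans ht.2) (AE.and (by fun_prop) (by fun_prop) h h')
  obtain ⟨G, hG, hG'⟩ := realize hk (sc n) al zf (by
      intro m i j _ hij hj
      by_cases hm : m = n
      · subst hm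
        rw [hal] at hj
        rcases hlt2 hj with rfl | rfl
        · exact (not_lt.2 (w0_le _) hij).elim
        · have hi : i = w0 M := le_antisymm (lt_sW.1 hij) (w0_le _)
          rw [hi, hz0, hz1]
          exact h
      · rw [hal' m hm] at hj
        exact (not_lt.2 (w0_le _) hj).elim) (by
      intro m i _ hi
      by_cases hm : m = n
      · subst hm
        rw [hal] at hi
        rcases hlt2 hi with rfl | rfl
        · rw [hz0]; exact hzz
        · rw [hz1]; exact h'
      · rw [hal' m hm] at hi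
        exact (not_lt.2 (w0_le _) hi).elim)
  refine ⟨G, hG, ?_, ?_⟩
  · have h1 := hG' n (w0 M) (N.lt_sc_self n) (by rw [hal]; exact (w0_le _).trans_lt (lt_sW_self _))
    rw [hz0] at h1
    exact h1
  · have h1 := hG' n (sW (w0 M)) (N.lt_sc_self n) (by rw [hal]; exact lt_sW_self _)
    rw [hz1] at h1
    exact h1

/-- the inputs of block C hold under `AD` -/
theorem cin_ad : CIn M where
  toEvAx := evAx_ad
  acw := acw
  kf := exists_kf
  pairs := by
    intro n R hR
    have hinv : ∀ (d : W M) (G G' : G2 M), Ev (fun c => ∀ s, s < c → G (c, s) = G' (c, s)) →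
        (lam (fun p : W M × G2 M => R (cmp p.2 n (w0 M), cmp p.2 n (sW (w0 M)))) (by fun_prop) :
          IFun M (W M × G2 M) Prop) (d, G) →
        (lam (fun p : W M × G2 M => R (cmp p.2 n (w0 M), cmp p.2 n (sW (w0 M)))) (by fun_prop) :
          IFun M (W M × G2 M) Prop) (d, G') := fun d G G' h h' =>
      hR _ _ _ _ (cmp_congr h n _) (cmp_congr h n _) h'
    rcases PT (lo0 M) ilo_lo0
      (lam (fun p : W M × G2 M => R (cmp p.2 n (w0 M), cmp p.2 n (sW (w0 M)))) (by fun_prop))
      (fun d d' G _ h => h) hinv with ⟨d, f, hf⟩ | ⟨f, hf⟩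
    · obtain ⟨k, hk⟩ := exists_KK f
      refine ⟨lam (fun z => hz k n z) (by fun_prop), fun z z' h h' => ltn_hz hk h h', Or.inl ?_⟩
      intro z z' h h'
      obtain ⟨G, hG, h1, h2⟩ := exists_two hk n h h'
      exact hR _ _ _ _ h1 h2 (hf G hG)
    · obtain ⟨k, hk⟩ := exists_KK f
      refine ⟨lam (fun z => hz k n z) (by fun_prop), fun z z' h h' => ltn_hz hk h h', Or.inr ?_⟩
      intro z z' h h' hc
      obtain ⟨G, hG, h1, h2⟩ := exists_two hk n h h'
      exact hf (w0 M) G hG (hR _ _ _ _ h1.symm h2.symm hc)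

end Pool.Agent.Helper48.MG
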