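import Pool.Agent.Helper48.MG.FinB

/-!
# The final argument, part 3: the set `A` and its elements
-/

set_option autoImplicit false

namespace Pool.Agent.Helper48.MG

variable {M : Type} [ZFM M]
variable {α β γ δ : Type} [Cl M α] [Cl M β] [Cl M γ] [Cl M δ]

/-- the elements of the set `A` -/
noncomputable def an (k : IFun M (Ps M) (W M)) (n : N M) (z : Fn M) : La M :=
  rkn (sc n) (hz k n (bs z))

@[fun_prop] theorem IF.an {k : IFun M (Ps M) (W M)} {n : α → N M} {z : α → Fn M} (hn : IF M n)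
    (h : IF M z) : IF M (fun x => an k (n x) (z x)) := by
  unfold MG.an; fun_prop

variable [AD M]

omit [AD M] in
theorem bs_lt_top (n : N M) (t : Fn M) : ltn (sc n) (bs t) (top M) := by
  show AE (sc n) (fun w => (bs t) w < (top M) w)
  rw [AE_sc (by fun_prop)]
  refine AE.of_forall (by fun_prop) fun s => ?_
  simp only [bs_pw, top_pw]
  exact Ev.gt _

omit [AD M] in
theorem bs_ltn {n : N M} {t t' : Fn M} (h : ltn n t t') : ltn (sc n) (bs t) (bs t') := by
  show AE (sc n) (fun w => (bs t) w < (bs t') w)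
  rw [AE_sc (by fun_prop)]
  refine AE.mono (by fun_prop) (by fun_prop) (fun s hs => ?_) h
  simp only [bs_pw]
  exact Ev.of_forall fun _ => hs

omit [AD M] in
theorem bs_eqn {n : N M} {t t' : Fn M} (h : eqn n t t') : eqn (sc n) (bs t) (bs t') := by
  show AE (sc n) (fun w => (bs t) w = (bs t') w)
  rw [AE_sc (by fun_prop)]
  refine AE.mono (by fun_prop) (by fun_prop) (fun s hs => ?_) h
  simp only [bs_pw]
  exact Ev.of_forall fun _ => hs

theorem an_lt {f : Fn M} {k : IFun M (Ps M) (W M)} (hk : KK (CP f) k) {n : N M} {z z' : Fn M} :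
    an k n z < an k n z' ↔ ltn n z z' := by
  have hC : CIn M := cin_ad
  have key : ∀ z z' : Fn M, ltn n z z' → an k n z < an k n z' := fun z z' h =>
    (rkn_lt hC).2 (ltn_hz hk (bs_ltn h) (bs_lt_top n z').len)
  constructor
  · intro h
    rcases ltn_total hC.toEvAx n z z' with h1 | h1 | h1
    · exact h1
    · have h2 : an k n z = an k n z' := (rkn_eq_iff hC).2 (eqn_hz (bs_eqn h1))
      rw [h2] at h
      exact (lt_irrefl _ h).elim
    · exact (lt_asymm h (key _ _ h1)).elim
  · exact key z z'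

theorem an_eq {f : Fn M} {k : IFun M (Ps M) (W M)} (hk : KK (CP f) k) {n : N M} {z z' : Fn M} :
    an k n z = an k n z' ↔ rkn n z = rkn n z' := by
  have hC : CIn M := cin_ad
  rw [rkn_eq_iff hC]
  constructor
  · intro h
    rcases ltn_total hC.toEvAx n z z' with h1 | h1 | h1
    · have h2 := (an_lt hk).2 h1
      rw [h] at h2
      exact (lt_irrefl _ h2).elim
    · exact h1
    · have h2 := (an_lt hk).2 h1
      rw [h] at h2
      exact (lt_irrefl _ h2).elim
  · intro h
    exact (rkn_eq_iff hC).2 (eqn_hz (bs_eqn h))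

theorem an_lt_alL (k : IFun M (Ps M) (W M)) (n : N M) (z : Fn M) : an k n z < alL (sc (sc n)) :=
  rkn_lt_alL cin_ad (sc n) _

/-- the function `z ↦ bs z` sends `κ_n` above itself -/
theorem le_rkn_bs {n : N M} (a : La M) (t : Fn M) (ht : rkn n t = a) : a ≤ rkn (sc n) (bs t) := by
  have hC : CIn M := cin_ad
  by_contra hcon
  rw [not_le] at hcon
  obtain ⟨b, ⟨s, hs, hs'⟩, hmin⟩ := IWO.least (M := M) (fun b : La M => ∃ s, rkn n s = b ∧
    rkn (sc n) (bs s) < b) (by fun_prop) ⟨a, t, ht, hcon⟩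
  have h1 : rkn (sc n) (bs s) < alL (sc n) := by
    refine hs'.trans ?_
    rw [← hs]
    exact rkn_lt_alL hC n s
  obtain ⟨u, hu⟩ := (exists_rkn hC).2 h1
  have h2 : ltn n u s := (rkn_lt hC).1 (by rw [hu, hs]; exact hs')
  have h3 : rkn (sc n) (bs u) < rkn (sc n) (bs s) := (rkn_lt hC).2 (bs_ltn h2)
  exact not_le.2 hs' (hmin _ ⟨u, hu, h3⟩)

theorem alL_le_top (n : N M) : alL (sc n) ≤ rkn (sc n) (top M) := by
  have hC : CIn M := cin_ad
  by_contra hcon
  rw [not_le] at hcon
  obtain ⟨u, hu⟩ := (exists_rkn hC).2 hcon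
  have h1 := le_rkn_bs _ u hu
  have h2 : rkn (sc n) (bs u) < rkn (sc n) (top M) := (rkn_lt hC).2 (bs_lt_top n u)
  exact not_le.2 h2 h1

theorem alL_le_an {f : Fn M} {k : IFun M (Ps M) (W M)} (hk : KK (CP f) k) (n : N M) (z : Fn M) :
    alL (sc n) ≤ an k n z :=
  (alL_le_top n).trans ((rkn_lt cin_ad).2 (top_lt_hz hk (bs_lt_top n z).len)).le

theorem an_level {f : Fn M} {k : IFun M (Ps M) (W M)} (hk : KK (CP f) k) {n m : N M}
    {z z' : Fn M} (h : an k n z = an k m z') : n = m := by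
  have key : ∀ {n m : N M} {z z' : Fn M}, an k n z = an k m z' → ¬ n < m := by
    intro n m z z' h hlt
    have h1 := an_lt_alL k n z
    have h2 := alL_le_an hk m z'
    rw [h] at h1
    have h3 : alL (sc m) < alL (sc (sc n)) := h2.trans_lt h1
    rw [alL_lt] at h3
    exact not_le.2 (N.sc_lt_sc.1 h3) (N.sc_le.2 hlt)
  exact le_antisymm (not_lt.1 (key h.symm)) (not_lt.1 (key h))

/-- the set `A` -/
noncomputable def AA (k : IFun M (Ps M) (W M)) : IFun M (La M) Prop :=
  lam (fun a => ∃ n z, an k n z = a) (by fun_prop)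

theorem exists_inj_AA {f : Fn M} {k : IFun M (Ps M) (W M)} (hk : KK (CP f) k) :
    ∃ e : IFun M (La M) (La M), (∀ a b, e a = e b → a = b) ∧ ∀ a, AA k (e a) := by
  have hC : CIn M := cin_ad
  -- the level
  let lv : La M → N M := fun a => lst M (fun n : N M => a < alL (sc n))
  have hlv : IF M lv := by
    show IF M (fun a : La M => lst M (fun n : N M => a < alL (sc n)))
    fun_prop
  have hlv1 : ∀ a, a < alL (sc (lv a)) := fun a =>
    lst_spec (P := fun n : N M => a < alL (sc n)) (by fun_prop) (by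
      obtain ⟨n, hn⟩ := exists_lt_alL a
      exact ⟨n, hn.trans (alL_lt.2 (N.lt_sc_self n))⟩)
  let e : La M → La M := fun a => lst M (fun b : La M => ∃ z, rkn (lv a) z = a ∧
    an k (lv a) z = b)
  have he : IF M e := by
    show IF M (fun a : La M => lst M (fun b : La M => ∃ z, rkn (lv a) z = a ∧
      an k (lv a) z = b))
    fun_prop
  have he1 : ∀ a, ∃ z, rkn (lv a) z = a ∧ an k (lv a) z = e a := fun a =>
    lst_spec (P := fun b : La M => ∃ z, rkn (lv a) z = a ∧ an k (lv a) z = b) (by fun_prop) (by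
      obtain ⟨z, hz⟩ := (exists_rkn hC).2 (hlv1 a)
      exact ⟨_, z, hz, rfl⟩)
  refine ⟨⟨e, he⟩, fun a b hab => ?_, fun a => ?_⟩
  · obtain ⟨z, h1, h2⟩ := he1 a
    obtain ⟨z', h3, h4⟩ := he1 b
    have h5 : an k (lv a) z = an k (lv b) z' := by rw [h2, h4]; exact hab
    have h6 := an_level hk h5
    rw [← h6] at h5 h3
    rw [← h1, ← h3]
    exact (an_eq hk).1 h5
  · obtain ⟨z, _, h2⟩ := he1 a
    exact ⟨_, z, h2⟩

end Pool.Agent.Helper48.MG
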