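import Pool.Agent.Helper48.MG.FinC

/-!
# The final argument, part 4: countable bounded subsets of `A` are given by patterns
-/

set_option autoImplicit false

namespace Pool.Agent.Helper48.MG

variable {M : Type} [ZFM M] [AD M]

/-- Every countable bounded subset of `A` is given by a pattern and a function of correct type. -/
theorem exists_pat48 {f : Fn M} {k : IFun M (Ps M) (W M)} (hk : KK (CP f) k)
    (x : IFun M (La M) Prop) (hx : ∀ a, x a → AA k a) (hb : CB x) :
    ∃ (N0 : N M) (al : IFun M (N M) (W M)) (G : G2 M), CT (lo0 M) (CP f) G ∧ xs N0 al G = x := by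
  classical
  have hC : CIn M := cin_ad
  obtain ⟨⟨b, hbx⟩, e, he1, he2, he3⟩ := hb
  -- levels and ranks of the elements
  have hlev : ∀ j, ∃ n z, an k n z = e j := fun j => hx _ (he1 j)
  let c : N M → N M := fun j => lst M (fun n => ∃ z, an k n z = e j)
  have hc : IF M c := by
    show IF M (fun j => lst M (fun n => ∃ z, an k n z = e j))
    fun_prop
  have hc1 : ∀ j, ∃ z, an k (c j) z = e j := fun j =>
    lst_spec (P := fun n => ∃ z, an k n z = e j) (by fun_prop) (hlev j)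
  let d : N M → La M := fun j => lst M (fun a => ∃ z, an k (c j) z = e j ∧ rkn (c j) z = a)
  have hd : IF M d := by
    show IF M (fun j => lst M (fun a => ∃ z, an k (c j) z = e j ∧ rkn (c j) z = a))
    fun_prop
  have hd1 : ∀ j, ∃ z, an k (c j) z = e j ∧ rkn (c j) z = d j := fun j => by
    obtain ⟨z, hz⟩ := hc1 j
    exact lst_spec (P := fun a => ∃ z, an k (c j) z = e j ∧ rkn (c j) z = a) (by fun_prop)
      ⟨_, z, hz, rfl⟩
  obtain ⟨F, hF⟩ := exists_Rep hC ⟨_, hc⟩ ⟨_, hd⟩ (fun j => by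
    obtain ⟨z, _, hz⟩ := hd1 j
    show d j < alL (sc (c j))
    rw [← hz]
    exact rkn_lt_alL hC _ _)
  have hF1 : ∀ j, an k (c j) (F j) = e j := by
    intro j
    obtain ⟨z, h1, h2⟩ := hd1 j
    rw [← h1, an_eq hk, h2]
    exact hF j
  -- the order of the elements of one level
  let R : IFun M (N M × N M) Prop := lam (fun p => c p.1 = c p.2 ∧ e p.1 < e p.2) (by fun_prop)
  have hR : ∀ {i j}, R (i, j) ↔ c i = c j ∧ e i < e j := fun {i j} => Iff.rfl
  have hRt : ∀ i j l, R (i, j) → R (j, l) → R (i, l) := fun i j l h1 h2 =>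
    hR.2 ⟨(hR.1 h1).1.trans (hR.1 h2).1, (hR.1 h1).2.trans (hR.1 h2).2⟩
  have hRw : IWf R := by
    rintro P ⟨j, hj⟩
    obtain ⟨a, ⟨i, hi, hPi⟩, hmin⟩ := IWO.least (M := M) (fun a : La M => ∃ i, e i = a ∧ P i)
      (by fun_prop) ⟨e j, j, rfl, hj⟩
    refine ⟨i, hPi, fun l hl hPl => ?_⟩
    have h1 := (hR.1 hl).2
    rw [hi] at h1
    exact not_le.2 h1 (hmin _ ⟨l, rfl, hPl⟩)
  have hrk : ∀ j, Rkd (W M) R j := rkd_of_countable hRt hRw (fun j =>
    ⟨lam (fun n => n) (by fun_prop), fun y _ => ⟨y, rfl⟩⟩)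
  let r : N M → W M := fun j => rk (W M) R j
  have hr : IF M r := by
    show IF M (fun j => rk (W M) R j)
    fun_prop
  have hr1 : ∀ {i j}, c i = c j → (e i < e j ↔ r i < r j) := by
    intro i j hij
    constructor
    · intro h; exact rk_lt (hrk j) (hR.2 ⟨hij, h⟩)
    · intro h
      rcases lt_trichotomy (e i) (e j) with h1 | h1 | h1
      · exact h1
      · rw [he3 _ _ h1] at h
        exact (lt_irrefl _ h).elim
      · exact (lt_asymm h (rk_lt (hrk i) (hR.2 ⟨hij.symm, h1⟩))).elim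
  -- the pattern
  have hal : IF M (fun n : N M => lst M (fun a : W M => ∀ j, c j = n → r j < a)) := by fun_prop
  let al : IFun M (N M) (W M) := ⟨_, hal⟩
  have hal0 : ∀ n, ∃ a : W M, ∀ j, c j = n → r j < a := fun n => by
    obtain ⟨a, ha⟩ := W_seq ⟨_, hr⟩
    exact ⟨a, fun j _ => ha j⟩
  have hal1 : ∀ j, r j < al (c j) := fun j =>
    lst_spec (P := fun a : W M => ∀ j', c j' = c j → r j' < a) (by fun_prop) (hal0 _) j rfl
  have hal2 : ∀ n i, i < al n → ∃ j, c j = n ∧ r j = i := by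
    intro n i hi
    have h1 := not_of_lt_lst (M := M) (P := fun a : W M => ∀ j, c j = n → r j < a) (by fun_prop) hi
    push Not at h1
    obtain ⟨j, hj, hij⟩ := h1
    rcases lt_or_eq_of_le hij with h2 | h2
    · obtain ⟨l, hl, hl'⟩ := exists_rk_eq_below (M := M) (R := R) hRt (hrk j) h2
      exact ⟨l, (hR.1 hl).1.trans hj, hl'⟩
    · exact ⟨j, hj, h2.symm⟩
  -- the functions
  let jj : N M × W M → N M := fun q => lst M (fun j => c j = q.1 ∧ r j = q.2)
  have hjj : IF M jj := by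
    show IF M (fun q : N M × W M => lst M (fun j => c j = q.1 ∧ r j = q.2))
    fun_prop
  have hjj1 : ∀ n i, i < al n → c (jj (n, i)) = n ∧ r (jj (n, i)) = i := fun n i hi =>
    lst_spec (P := fun j => c j = n ∧ r j = i) (by fun_prop) (hal2 n i hi)
  have hzf : IF M (fun q : N M × W M => bs (F (jj q))) := by fun_prop
  let zf : IFun M (N M × W M) (Fn M) := ⟨_, hzf⟩
  -- the bound
  obtain ⟨N0, hN0⟩ := exists_lt_alL b
  have hcN : ∀ j, c j < N0 := by
    intro j
    have h1 : alL (sc (c j)) < alL N0 := by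
      refine ((alL_le_an hk (c j) (F j)).trans_lt ?_).trans hN0
      rw [hF1]
      exact hbx _ (he1 j)
    exact (N.lt_sc_self _).trans (alL_lt.1 h1)
  obtain ⟨G, hG, hG1⟩ := realize hk N0 al zf (by
      intro n i j _ hij hj
      have hi := hij.trans hj
      obtain ⟨h1, h2⟩ := hjj1 n i hi
      obtain ⟨h3, h4⟩ := hjj1 n j hj
      have h5 : e (jj (n, i)) < e (jj (n, j)) := (hr1 (h1.trans h3.symm)).2 (by rw [h2, h4]; exact hij)
      rw [← hF1, ← hF1, h1, h3] at h5
      exact bs_ltn ((an_lt hk).1 h5)) (fun n i _ _ => (bs_lt_top n _).len)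
  refine ⟨N0, al, G, hG, ?_⟩
  have hG2 : ∀ n i, n < N0 → i < al n → rkn (sc n) (cmp G n i) = e (jj (n, i)) := by
    intro n i hn hi
    rw [(rkn_eq_iff hC).2 (hG1 n i hn hi), ← hF1, (hjj1 n i hi).1]
    rfl
  refine IFun.ext fun a => ?_
  refine propext ?_
  constructor
  · rintro ⟨n, i, hn, hi, rfl⟩
    rw [hG2 n i hn hi]
    exact he1 _
  · intro ha
    obtain ⟨j, rfl⟩ := he2 a ha
    refine ⟨c j, r j, hcN j, hal1 j, ?_⟩
    rw [hG2 _ _ (hcN j) (hal1 j)]
    obtain ⟨h1, h2⟩ := hjj1 (c j) (r j) (hal1 j)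
    rcases lt_trichotomy (e (jj (c j, r j))) (e j) with h3 | h3 | h3
    · exact ((hr1 h1).1 h3).ne h2 |>.elim
    · exact h3
    · exact ((hr1 h1.symm).1 h3).ne h2.symm |>.elim

end Pool.Agent.Helper48.MG
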