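import Pool.Agent.Helper48.MG.Cls

/-!
# The type of internal functions
-/

set_option autoImplicit false

namespace Pool.Agent.Helper48.MG

variable {M : Type} [ZFM M]
variable {α β γ δ : Type} [Cl M α] [Cl M β] [Cl M γ] [Cl M δ]

/-- internal functions (`α` will be a set type, so that they are sets of the model) -/
structure IFun (M : Type) [ZFM M] (α β : Type) [Cl M α] [Cl M β] where
  toFun : α → β
  prop : IF M toFun

instance : CoeFun (IFun M α β) (fun _ => α → β) := ⟨IFun.toFun⟩

/-- build an internal function -/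
def lam (f : α → β) (hf : IF M f) : IFun M α β := ⟨f, hf⟩

@[simp] theorem lam_apply (f : α → β) (hf : IF M f) (a : α) : (lam f hf).toFun a = f a := rfl

theorem IFun.ext {f g : IFun M α β} (h : ∀ a, f a = g a) : f = g := by
  obtain ⟨f, hf⟩ := f
  obtain ⟨g, hg⟩ := g
  have : f = g := funext h
  subst this
  rfl

@[fun_prop] theorem IFun.if_toFun (f : IFun M α β) : IF M f.toFun := f.prop

/-- the graph of an internal function on a set type is a set -/
theorem exists_graph [Ob M α] (f : IFun M α β) :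
    ∃ g : M, ∀ x, isin x g ↔ ∃ a, opair (cod M a) (cod M (f a)) = x := by
  have h := IF.isSet_range (M := M) (f := fun a : α => (Cl.code ((a, f.toFun a) : α × β) : M))
    (IF.cod.comp (by fun_prop))
  obtain ⟨g, hg⟩ := h
  exact ⟨g, hg⟩

noncomputable def graph [Ob M α] (f : IFun M α β) : M := Classical.choose (exists_graph f)

theorem mem_graph [Ob M α] (f : IFun M α β) (x : M) :
    isin x (graph f) ↔ ∃ a, opair (cod M a) (cod M (f a)) = x :=
  Classical.choose_spec (exists_graph f) x

theorem opair_mem_graph [Ob M α] {f : IFun M α β} {a : α} {b : β} :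
    isin (opair (cod M a) (cod M b)) (graph f) ↔ f a = b := by
  rw [mem_graph]
  constructor
  · rintro ⟨a', h⟩
    obtain ⟨h1, h2⟩ := opair_inj h
    have := Cl.inj h1
    subst this
    exact Cl.inj h2
  · rintro rfl
    exact ⟨a, rfl⟩

noncomputable instance instClIFun [Ob M α] : Cl M (IFun M α β) where
  code f := graph f
  inj f g h := by
    refine IFun.ext fun a => ?_
    have h' : graph f = graph g := h
    have : isin (opair (cod M a) (cod M (f a))) (graph g) := by
      rw [← h']; exact opair_mem_graph.2 rfl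
    exact (opair_mem_graph.1 this).symm
  dom := by
    have hA := (Cl.dom (M := M) (α := α))
    have hB := (Cl.dom (M := M) (α := β))
    have h1 : PD (fun v : ℕ → M => ∀ u, isin u (v 0) →
        ∃ x y, (∃ a : α, Cl.code a = x) ∧ (∃ b : β, Cl.code b = y) ∧ u = opair x y) := by
      refine PD.all (P := fun v => isin (v 0) (v 1) →
        ∃ x y, (∃ a : α, Cl.code a = x) ∧ (∃ b : β, Cl.code b = y) ∧ v 0 = opair x y) ?_
      refine (PD.mem _ _).imp ?_
      exact ((hA.at 1).and ((hB.at 0).and (PD_opair 2 1 0))).ex.ex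
    have h2 : PD (fun v : ℕ → M => ∀ x, (∃ a : α, Cl.code a = x) →
        ∃ y u, ((∃ b : β, Cl.code b = y) ∧ u = opair x y ∧ isin u (v 0)) ∧
          ∀ y' u', u' = opair x y' → isin u' (v 0) → y' = y) := by
      refine PD.all (P := fun v => (∃ a : α, Cl.code a = v 0) →
        ∃ y u, ((∃ b : β, Cl.code b = y) ∧ u = opair (v 0) y ∧ isin u (v 1)) ∧
          ∀ y' u', u' = opair (v 0) y' → isin u' (v 1) → y' = y) ?_
      refine (hA.at 0).imp ?_
      refine PD.ex (P := fun v => ∃ u, ((∃ b : β, Cl.code b = v 0) ∧ u = opair (v 1) (v 0) ∧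
        isin u (v 2)) ∧ ∀ y' u', u' = opair (v 1) y' → isin u' (v 2) → y' = v 0) ?_
      refine PD.ex (P := fun v => ((∃ b : β, Cl.code b = v 1) ∧ v 0 = opair (v 2) (v 1) ∧
        isin (v 0) (v 3)) ∧ ∀ y' u', u' = opair (v 2) y' → isin u' (v 3) → y' = v 1) ?_
      refine ((hB.at 1).and ((PD_opair 0 2 1).and (PD.mem 0 3))).and ?_
      refine PD.all (P := fun v => ∀ u', u' = opair (v 3) (v 0) → isin u' (v 4) → v 0 = v 2) ?_
      refine PD.all (P := fun v => v 0 = opair (v 4) (v 1) → isin (v 0) (v 5) → v 1 = v 3) ?_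
      exact (PD_opair 0 4 1).imp ((PD.mem 0 5).imp (PD.eq 1 3))
    refine PD.congr (h1.and h2) fun v => ?_
    constructor
    · rintro ⟨f, hf⟩
      have hf' : graph f = v 0 := hf
      constructor
      · intro u hu
        rw [← hf', mem_graph] at hu
        obtain ⟨a, rfl⟩ := hu
        exact ⟨cod M a, cod M (f a), ⟨a, rfl⟩, ⟨f a, rfl⟩, rfl⟩
      · rintro x ⟨a, rfl⟩
        refine ⟨cod M (f a), opair (cod M a) (cod M (f a)), ⟨⟨f a, rfl⟩, rfl, ?_⟩, ?_⟩
        · rw [← hf']; exact opair_mem_graph.2 rfl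
        · rintro y' u' rfl hu'
          rw [← hf', mem_graph] at hu'
          obtain ⟨a', ha'⟩ := hu'
          obtain ⟨e1, e2⟩ := opair_inj ha'
          rw [Cl.inj e1] at e2
          exact e2.symm
    · rintro ⟨h1, h2⟩
      have h3 : ∀ a : α, ∃ b : β, isin (opair (cod M a) (cod M b)) (v 0) ∧
          ∀ b' : β, isin (opair (cod M a) (cod M b')) (v 0) → b' = b := by
        intro a
        obtain ⟨y, u, ⟨⟨b, hb⟩, hu, hm⟩, hun⟩ := h2 (cod M a) ⟨a, rfl⟩
        have hb' : cod M b = y := hb
        subst hb'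
        subst hu
        exact ⟨b, hm, fun b' hb' => Cl.inj (hun _ _ rfl hb')⟩
      choose f hf hfu using h3
      have hf' : IF M f := by
        refine IF.of_graph ?_
        rw [IF_prop_iff]
        have hd : D1 (fun x : M => (∃ p : α × β, Cl.code p = x) ∧ isin x (v 0)) :=
          (Cl.dom (M := M) (α := α × β)).and (D1.memc (v 0))
        refine hd.congr fun x => ?_
        constructor
        · rintro ⟨⟨a, b⟩, rfl, hab⟩
          have hab' : f a = b := hab
          subst hab'
          exact ⟨⟨_, rfl⟩, hf a⟩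
        · rintro ⟨⟨⟨a, b⟩, rfl⟩, h⟩
          exact ⟨(a, b), rfl, (hfu a b h).symm⟩
      refine ⟨⟨f, hf'⟩, mem_ext fun x => ?_⟩
      show isin x (graph _) ↔ _
      rw [mem_graph]
      constructor
      · rintro ⟨a, rfl⟩; exact hf a
      · intro hx
        obtain ⟨_, _, ⟨a, rfl⟩, ⟨b, rfl⟩, rfl⟩ := h1 x hx
        have := hfu a b hx
        subst this
        exact ⟨a, rfl⟩

@[fun_prop] theorem IF.opair {f g : α → M} (hf : IF M f) (hg : IF M g) :
    IF M (fun a => opair (f a) (g a)) :=
  (IF.cod (M := M) (α := M × M)).comp (hf.prodMk hg)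

theorem IF_isin : IF M (fun p : M × M => isin p.1 p.2) := by
  rw [IF_prop_iff]
  refine PD.congr (((PD.mem 1 0).and (PD_opair 2 1 0))).ex.ex fun v => ?_
  constructor
  · rintro ⟨⟨a, b⟩, h, h'⟩
    exact ⟨a, b, h', h.symm⟩
  · rintro ⟨a, b, h, h'⟩
    exact ⟨(a, b), h'.symm, h⟩

@[fun_prop] theorem IF.isin {f g : α → M} (hf : IF M f) (hg : IF M g) :
    IF M (fun a => isin (f a) (g a)) :=
  IF_isin.comp (hf.prodMk hg)

/-- evaluation is internal -/
theorem IF.eval [Ob M α] : IF M (fun p : IFun M α β × α => p.1.toFun p.2) := by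
  refine IF.of_graph ?_
  have h : IF M (fun p : (IFun M α β × α) × β =>
      ZFM.E (Pool.Agent.Helper48.MG.opair (Cl.code p.1.2) (Cl.code p.2)) (Cl.code p.1.1 : M)) := by
    refine IF.isin ?_ ?_
    · refine IF.opair ?_ ?_
      · exact IF.cod.comp (by fun_prop)
      · exact IF.cod.comp (by fun_prop)
    · exact IF.cod.comp (by fun_prop)
  exact h.congrP fun p => opair_mem_graph.symm

@[fun_prop] theorem IF.app [Ob M α] {f : γ → IFun M α β} {g : γ → α} (hf : IF M f) (hg : IF M g) :
    IF M (fun c => (f c).toFun (g c)) :=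
  IF.comp (f := fun p : IFun M α β × α => p.1.toFun p.2) (g := fun c => (f c, g c)) IF.eval
    (hf.prodMk hg)

@[fun_prop] theorem IF.lam [Ob M α] {f : γ → α → β} {hf : ∀ c, IF M (f c)}
    (h : IF M (fun q : γ × α => f q.1 q.2)) : IF M (fun c => lam (f c) (hf c)) := by
  refine IF.of_graph ?_
  have : IF M (fun p : γ × IFun M α β => ∀ a, f p.1 a = p.2 a) := by
    refine IF.all ?_
    refine IF.eq ?_ ?_
    · exact h.comp (g := fun q : (γ × IFun M α β) × α => (q.1.1, q.2)) (by fun_prop)
    · fun_prop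
  refine this.congrP fun p => ?_
  constructor
  · intro h a; rw [← h]; rfl
  · intro h; exact IFun.ext h

instance instObIFun [Ob M α] [Ob M β] : Ob M (IFun M α β) := by
  obtain ⟨s, hs⟩ := Ob.set (M := M) (α := α × β)
  refine Ob.of_isSet_sub (IsSet.power s) fun f z hz => ?_
  obtain ⟨a, rfl⟩ := (mem_graph f z).1 hz
  exact (hs _).2 ⟨(a, f a), rfl⟩

end Pool.Agent.Helper48.MG
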