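import Pool.Agent.Helper95.MG.SM
import Pool.Agent.Helper48.MG.Defs2

/-!
# Interface: codings of subsets of `ω_1`; remaining stubs of the blocks A and B
-/

set_option autoImplicit false

namespace Pool.Agent.Helper48.MG

variable {M : Type} [ZFM M]
variable {α β γ δ : Type} [Cl M α] [Cl M β] [Cl M γ] [Cl M δ]

/-- A coding of the subsets of `ω_1` by reals. -/
structure Coding (M : Type) [ZFM M] where
  /-- `y` is a correct code at `s` -/
  ok : IFun M (Re M × W M) Prop
  /-- `s` belongs to the set coded by `y` -/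
  acc : IFun M (Re M × W M) Prop
  nac : IFun M (Re M × W M) Prop
  cert : IFun M (Re M × W M × W M) Prop
  ok_iff : ∀ y s, ok (y, s) ↔ ∃ d, cert (y, s, d)
  cert_mono : ∀ y s d d', d ≤ d' → cert (y, s, d) → cert (y, s, d')
  nac_iff : ∀ y s, ok (y, s) → (nac (y, s) ↔ ¬ acc (y, s))
  sig_cert : ∀ s d, Sig M (fun y => cert (y, s, d))
  sig_acc : ∀ s, Sig M (fun y => acc (y, s))
  sig_nac : ∀ s, Sig M (fun y => nac (y, s))
  code : ∀ Z : IFun M (W M) Prop, ∃ y, ∀ s, ok (y, s) ∧ (acc (y, s) ↔ Z s)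

end Pool.Agent.Helper48.MG
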