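import Pool.Agent.Helper48.MG.Ord

/-!
# The natural numbers of the model
-/

set_option autoImplicit false

namespace Pool.Agent.Helper48.MG

variable {M : Type} [ZFM M]
variable {α β γ δ : Type} [Cl M α] [Cl M β] [Cl M γ] [Cl M δ]

def IsLim (a : Ord M) : Prop := (∃ x, x < a) ∧ ∀ x, x < a → ∃ y, y < a ∧ x < y

theorem exists_lim : ∃ a : Ord M, IsLim a := by
  obtain ⟨I, ⟨e, heI, he⟩, hI⟩ := (ZFM.zf (M := M)).inf
  by_contra hno
  push Not at hno
  have key : ∀ c : Ord M, isin c.val I := by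
    by_contra hc
    push Not at hc
    have h1 : IF M (fun c : Ord M => ¬ isin c.val I) := by fun_prop
    obtain ⟨c, hc, hmin⟩ := IWO.least (M := M) _ h1 hc
    have hc0 : ∃ x, x < c := by
      by_contra h
      push Not at h
      have : c.val = e := mem_ext fun x => by
        constructor
        · intro hx; exact (not_lt.2 (h ⟨x, c.ord.of_mem hx⟩) hx).elim
        · intro hx; exact (he x hx).elim
      exact hc (this ▸ heI)
    have := hno c
    simp only [IsLim, hc0, true_and, not_forall] at this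
    obtain ⟨d, hd, hd'⟩ := this
    push Not at hd'
    have hdI : isin d.val I := by
      by_contra h
      exact (not_le.2 hd) (hmin d h)
    obtain ⟨y, hyI, hy⟩ := hI _ hdI
    have : c.val = y := mem_ext fun z => by
      refine Iff.trans ?_ (hy z).symm
      constructor
      · intro hz
        have := hd' ⟨z, c.ord.of_mem hz⟩ hz
        rcases lt_or_eq_of_le this with h | h
        · left; exact h
        · right; rw [← h]
      · rintro (hz | rfl)
        · exact c.ord.1 _ hd _ hz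
        · exact hd
    exact hc (this ▸ hyI)
  have hset : IsSet (fun x : M => IsOrd x) :=
    IsSet.sub (Q := fun x => isin x I) ⟨I, fun _ => Iff.rfl⟩ D1_isOrd (fun x hx => key ⟨x, hx⟩)
  obtain ⟨s, hs⟩ := hset
  have : Ob M (Ord M) := ⟨⟨s, fun x => (hs x).trans ⟨fun h => ⟨⟨x, h⟩, rfl⟩, fun ⟨a, h⟩ => h ▸ a.ord⟩⟩⟩
  obtain ⟨b, hb⟩ := Ord.exists_gt (M := M) (α := Ord M) (fun a => a) (by fun_prop)
  exact lt_irrefl b (hb b)

theorem IF_isLim : IF M (fun a : Ord M => IsLim a) := by
  unfold IsLim; fun_prop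

noncomputable def om (M : Type) [ZFM M] : Ord M :=
  Classical.choose (IWO.least (M := M) (fun a : Ord M => IsLim a) IF_isLim exists_lim)

theorem om_isLim : IsLim (om M) :=
  (Classical.choose_spec (IWO.least (M := M) (fun a : Ord M => IsLim a) IF_isLim exists_lim)).1

theorem om_le {a : Ord M} (ha : IsLim a) : om M ≤ a :=
  (Classical.choose_spec (IWO.least (M := M) (fun a : Ord M => IsLim a) IF_isLim exists_lim)).2 a ha

/-- the natural numbers of the model -/
def N (M : Type) [ZFM M] : Type := Sg (om M)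

noncomputable instance : LinearOrder (N M) := inferInstanceAs (LinearOrder (Sg (om M)))
instance : Cl M (N M) := inferInstanceAs (Cl M (Sg (om M)))
instance : Ob M (N M) := inferInstanceAs (Ob M (Sg (om M)))
instance : IWO M (N M) := inferInstanceAs (IWO M (Sg (om M)))

theorem exists_zero : ∃ z : N M, ∀ n, z ≤ n := by
  obtain ⟨x, hx⟩ := (om_isLim (M := M)).1
  obtain ⟨a, _, ha⟩ := IWO.least (M := M) (fun _ : N M => True) (by fun_prop) ⟨⟨x, hx⟩, trivial⟩
  exact ⟨a, fun n => ha n trivial⟩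

noncomputable instance : Zero (N M) := ⟨Classical.choose exists_zero⟩
noncomputable instance : Nonempty (N M) := ⟨0⟩

theorem N.zero_le (n : N M) : 0 ≤ n := Classical.choose_spec (exists_zero (M := M)) n
theorem N.not_lt_zero (n : N M) : ¬ n < 0 := not_lt.2 (N.zero_le n)

theorem N.no_max (n : N M) : ∃ m, n < m := by
  obtain ⟨y, hy, hy'⟩ := (om_isLim (M := M)).2 n.1 n.2
  exact ⟨⟨y, hy⟩, hy'⟩

/-- successor -/
noncomputable def sc (n : N M) : N M := lst M (fun m => n < m)

@[fun_prop] theorem IF.sc {f : α → N M} (hf : IF M f) : IF M (fun a => sc (f a)) := by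
  unfold MG.sc; fun_prop

theorem N.lt_sc_self (n : N M) : n < sc n := lst_spec (by fun_prop) (N.no_max n)

theorem N.sc_le {n m : N M} : sc n ≤ m ↔ n < m :=
  ⟨fun h => lt_of_lt_of_le (N.lt_sc_self n) h, fun h => lst_le (by fun_prop) h⟩

theorem N.lt_sc {n m : N M} : n < sc m ↔ n ≤ m := by
  rw [← not_le, N.sc_le, not_lt]

theorem N.sc_inj {n m : N M} (h : sc n = sc m) : n = m :=
  le_antisymm (N.lt_sc.1 (h ▸ N.lt_sc_self n)) (N.lt_sc.1 (h ▸ N.lt_sc_self m))

theorem N.sc_lt_sc {n m : N M} : sc n < sc m ↔ n < m := by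
  rw [N.lt_sc, N.sc_le]

theorem N.sc_ne_zero (n : N M) : sc n ≠ 0 := fun h => N.not_lt_zero n (h ▸ N.lt_sc_self n)

theorem N.zero_lt_sc (n : N M) : 0 < sc n := lt_of_le_of_ne (N.zero_le _) (N.sc_ne_zero n).symm

theorem N.zero_or_sc (n : N M) : n = 0 ∨ ∃ m, n = sc m := by
  by_cases h0 : n = 0
  · exact Or.inl h0
  right
  have h1 : ¬ IsLim n.1 := fun h => not_lt.2 (om_le h) n.2
  have h2 : ∃ x, x < n.1 := ⟨(0 : N M).1, lt_of_le_of_ne (N.zero_le n) fun h => h0 (Subtype.ext h.symm)⟩
  simp only [IsLim, h2, true_and, not_forall] at h1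
  obtain ⟨x, hx, hx'⟩ := h1
  push Not at hx'
  refine ⟨⟨x, hx.trans n.2⟩, le_antisymm ?_ (N.sc_le.2 hx)⟩
  by_contra h
  rw [not_le] at h
  have h3 : x < (sc (⟨x, hx.trans n.2⟩ : N M)).1 := N.lt_sc_self (⟨x, hx.trans n.2⟩ : N M)
  exact not_le.2 h3 (hx' _ h)

/-- induction -/
theorem N.ind (P : N M → Prop) (hP : IF M P) (h0 : P 0) (hs : ∀ n, P n → P (sc n)) : ∀ n, P n := by
  by_contra hcon
  push Not at hcon
  obtain ⟨n, hn, hmin⟩ := IWO.least (M := M) (fun n => ¬ P n) (by fun_prop) hcon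
  rcases N.zero_or_sc n with rfl | ⟨m, rfl⟩
  · exact hn h0
  · apply hn
    apply hs
    by_contra hm
    exact not_le.2 (N.lt_sc_self m) (hmin m hm)

/-- definition by recursion, with parameters in a class type -/
theorem N.exists_rec (b0 : γ → β) (st : γ → N M → β → β) (hb0 : IF M b0)
    (hst : IF M (fun q : γ × N M × β => st q.1 q.2.1 q.2.2)) :
    ∃ f : γ → N M → β, IF M (fun q : γ × N M => f q.1 q.2) ∧ (∀ c, f c 0 = b0 c) ∧
      ∀ c n, f c (sc n) = st c n (f c n) := by
  classical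
  -- approximations
  let A : γ → N M → IFun M (N M) β → Prop := fun c n g =>
    g 0 = b0 c ∧ ∀ k, k < n → g (sc k) = st c k (g k)
  have hA : IF M (fun q : γ × N M × IFun M (N M) β => A q.1 q.2.1 q.2.2) := by
    have h1 : IF M (fun r : (γ × N M × IFun M (N M) β) × N M =>
        st r.1.1 r.2 (r.1.2.2.toFun r.2)) :=
      hst.comp (g := fun r : (γ × N M × IFun M (N M) β) × N M => (r.1.1, r.2, r.1.2.2.toFun r.2))
        (by fun_prop)
    show IF M (fun q : γ × N M × IFun M (N M) β => q.2.2.toFun 0 = b0 q.1 ∧ ∀ k, k < q.2.1 →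
      q.2.2.toFun (sc k) = st q.1 k (q.2.2.toFun k))
    fun_prop
  have hAc : ∀ c, IF M (fun q : N M × IFun M (N M) β => A c q.1 q.2) := fun c =>
    hA.comp (g := fun q : N M × IFun M (N M) β => (c, q.1, q.2)) (by fun_prop)
  have hstc : ∀ c, IF M (fun q : N M × β => st c q.1 q.2) := fun c =>
    hst.comp (g := fun q : N M × β => (c, q.1, q.2)) (by fun_prop)
  have huniq : ∀ c n (g g' : IFun M (N M) β), A c n g → A c n g' → ∀ k, k ≤ n → g k = g' k := by
    intro c n g g' hg hg'
    refine N.ind (fun k => k ≤ n → g k = g' k) (by fun_prop) ?_ ?_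
    · intro _; rw [hg.1, hg'.1]
    · intro k ih hk
      have hk' := N.sc_le.1 hk
      rw [hg.2 k hk', hg'.2 k hk', ih hk'.le]
  have hex : ∀ c n, ∃ g, A c n g := by
    intro c
    have hc := hAc c
    refine N.ind (fun n => ∃ g, A c n g) (by fun_prop) ?_ ?_
    · exact ⟨lam (fun _ => b0 c) (by fun_prop), rfl, fun k hk => (N.not_lt_zero k hk).elim⟩
    · rintro n ⟨g, hg⟩
      have hc1 := hstc c
      have hif : IF M (fun k => if k ≤ n then g k else st c n (g n)) := by
        refine IF.of_graph ?_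
        have : IF M (fun p : N M × β => (p.1 ≤ n ∧ g p.1 = p.2) ∨ (¬ p.1 ≤ n ∧ st c n (g n) = p.2)) := by
          fun_prop
        refine this.congrP fun p => ?_
        by_cases hp : p.1 ≤ n <;> simp [hp]
      refine ⟨lam (fun k => if k ≤ n then g k else st c n (g n)) hif, ?_, ?_⟩
      · simp [N.zero_le, hg.1]
      · intro k hk
        have hk1 : k ≤ n := N.lt_sc.1 hk
        rcases lt_or_eq_of_le hk1 with h | rfl
        · simp only [lam_apply, hk1, if_true, N.sc_le, h]
          exact hg.2 k h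
        · simp only [lam_apply, le_refl, if_true, N.sc_le, lt_irrefl, if_false]
  choose G hG using hex
  let f : γ → N M → β := fun c n => G c n n
  have hf : ∀ c n g, A c n g → f c n = g n := fun c n g hg => huniq c n _ _ (hG c n) hg n le_rfl
  refine ⟨f, IF.of_graph ?_, fun c => (hG c 0).1, fun c n => ?_⟩
  · have : IF M (fun p : (γ × N M) × β => ∃ g : IFun M (N M) β, A p.1.1 p.1.2 g ∧ g.toFun p.1.2 = p.2) := by
      have h2 : IF M (fun r : ((γ × N M) × β) × IFun M (N M) β => A r.1.1.1 r.1.1.2 r.2) :=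
        hA.comp (g := fun r : ((γ × N M) × β) × IFun M (N M) β => (r.1.1.1, r.1.1.2, r.2)) (by fun_prop)
      fun_prop
    refine this.congrP fun p => ?_
    constructor
    · intro h; exact ⟨G p.1.1 p.1.2, hG _ _, h⟩
    · rintro ⟨g, hg, h⟩
      show f p.1.1 p.1.2 = p.2
      rw [hf _ _ g hg]
      exact h
  · have h1 := hG c (sc n)
    have h2 : A c n (G c (sc n)) := ⟨h1.1, fun k hk => h1.2 k (hk.trans (N.lt_sc_self n))⟩
    show f c (sc n) = _
    rw [hf c (sc n) _ h1, h1.2 n (N.lt_sc_self n), hf c n _ h2]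

end Pool.Agent.Helper48.MG
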