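import Pool.Agent.Helper48.MG.Fun

/-!
# The ordinals of the model
-/

set_option autoImplicit false

namespace Pool.Agent.Helper48.MG

variable {M : Type} [ZFM M]
variable {α β γ δ : Type} [Cl M α] [Cl M β] [Cl M γ] [Cl M δ]

def IsTrans (x : M) : Prop := ∀ y, isin y x → ∀ z, isin z y → isin z x

def IsOrd (x : M) : Prop := IsTrans x ∧ ∀ y, isin y x → IsTrans y

theorem D1_isTrans : D1 (fun x : M => IsTrans x) := by
  have : IF M (fun x : M => ∀ y, isin y x → ∀ z, isin z y → isin z x) := by fun_prop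
  exact (IF_prop_iff.1 this).congr fun x =>
    ⟨fun h => ⟨x, rfl, h⟩, fun ⟨a, h, h'⟩ => (h : a = x) ▸ h'⟩

theorem D1_isOrd : D1 (fun x : M => IsOrd x) := by
  have : IF M (fun x : M => (∀ y, isin y x → ∀ z, isin z y → isin z x) ∧
    ∀ t, isin t x → ∀ y, isin y t → ∀ z, isin z y → isin z t) := by fun_prop
  exact (IF_prop_iff.1 this).congr fun x =>
    ⟨fun h => ⟨x, rfl, h⟩, fun ⟨a, h, h'⟩ => (h : a = x) ▸ h'⟩

/-- the ordinals of the model -/
structure Ord (M : Type) [ZFM M] where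
  val : M
  ord : IsOrd val

theorem Ord.ext {a b : Ord M} (h : a.val = b.val) : a = b := by
  cases a; cases b; cases h; rfl

instance instClOrd : Cl M (Ord M) where
  code := Ord.val
  inj _ _ h := Ord.ext h
  dom := D1_isOrd.congr fun x => ⟨fun ⟨a, h⟩ => h ▸ a.ord, fun h => ⟨⟨x, h⟩, rfl⟩⟩

@[fun_prop] theorem IF.ordVal {f : α → Ord M} (hf : IF M f) : IF M (fun a => (f a).val) :=
  IF.cod.comp hf

theorem IF.ord_mk {f : α → Ord M} (hf : IF M (fun a => (f a).val)) : IF M f := by
  refine IF.of_graph ?_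
  have : IF M (fun p : α × Ord M => (f p.1).val = p.2.val) := by
    refine IF.eq ?_ (by fun_prop)
    exact hf.comp IF.fst
  exact this.congrP fun p => ⟨fun h => h ▸ rfl, fun h => Ord.ext h⟩

theorem isin_asymm {x y : M} (h : isin x y) : ¬ isin y x := by
  intro h'
  obtain ⟨z, hz, hz'⟩ := ZFM.zf.found (upair x y) ⟨x, by simp⟩
  rcases mem_upair.1 hz with rfl | rfl
  · exact hz' y h' (by simp)
  · exact hz' x h (by simp)

theorem IsOrd.of_mem {a x : M} (ha : IsOrd a) (hx : isin x a) : IsOrd x :=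
  ⟨ha.2 x hx, fun y hy => ha.2 y (ha.1 x hx y hy)⟩

/-- every nonempty definable class of ordinals has an `∈`-minimal element -/
theorem Ord.exists_min {P : Ord M → Prop} (hP : IF M P) (h : ∃ a, P a) :
    ∃ a, P a ∧ ∀ b : Ord M, isin b.val a.val → ¬ P b := by
  obtain ⟨a, ha⟩ := h
  by_cases hne : ∃ b : Ord M, isin b.val a.val ∧ P b
  · obtain ⟨s, hs⟩ := IsSet.sep (IF_prop_iff.1 hP) a.val
    obtain ⟨b, hb, hPb⟩ := hne
    obtain ⟨x, hx, hx'⟩ := ZFM.zf.found s ⟨b.val, (hs _).2 ⟨hb, b, rfl, hPb⟩⟩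
    obtain ⟨hxa, c, hc, hPc⟩ := (hs _).1 hx
    have hc' : c.val = x := hc
    refine ⟨c, hPc, fun d hd hPd => hx' d.val (hc' ▸ hd) ((hs _).2 ⟨?_, d, rfl, hPd⟩)⟩
    exact a.ord.1 x hxa _ (hc' ▸ hd)
  · push Not at hne
    exact ⟨a, ha, fun b hb hPb => hne b hb hPb⟩

theorem Ord.trichotomy (a b : Ord M) : isin a.val b.val ∨ a = b ∨ isin b.val a.val := by
  by_contra hcon
  have h1 : IF M (fun a : Ord M => ∃ b : Ord M, ¬ (isin a.val b.val ∨ a = b ∨ isin b.val a.val)) := by
    fun_prop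
  obtain ⟨a, ⟨b0, hb0⟩, hmin⟩ := Ord.exists_min h1 ⟨a, b, hcon⟩
  have h2 : IF M (fun b : Ord M => ¬ (isin a.val b.val ∨ a = b ∨ isin b.val a.val)) := by
    fun_prop
  obtain ⟨b, hb, hmin'⟩ := Ord.exists_min h2 ⟨b0, hb0⟩
  push Not at hb
  apply hb.2.1
  refine Ord.ext (mem_ext fun x => ⟨fun hx => ?_, fun hx => ?_⟩)
  · have := hmin ⟨x, a.ord.of_mem hx⟩ hx
    push Not at this
    rcases this b with h | h | h
    · exact h
    · exact (hb.2.2 (by rw [← h]; exact hx)).elim
    · exact (hb.2.2 (a.ord.1 x hx _ h)).elim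
  · have := not_not.1 (hmin' ⟨x, b.ord.of_mem hx⟩ hx)
    rcases this with h | h | h
    · exact (hb.1 (b.ord.1 x hx _ h)).elim
    · exact (hb.1 (by rw [h]; exact hx)).elim
    · exact h

open Classical in
noncomputable instance instLinearOrderOrd : LinearOrder (Ord M) where
  le a b := a = b ∨ isin a.val b.val
  lt a b := isin a.val b.val
  le_refl a := Or.inl rfl
  le_trans a b c hab hbc := by
    rcases hab with rfl | hab
    · exact hbc
    · rcases hbc with rfl | hbc
      · right; exact hab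
      · right; exact c.ord.1 _ hbc _ hab
  lt_iff_le_not_ge a b := by
    constructor
    · intro h
      refine ⟨Or.inr h, ?_⟩
      rintro (rfl | h')
      · exact mem_irrefl _ h
      · exact isin_asymm h h'
    · rintro ⟨rfl | h, h'⟩
      · exact (h' (Or.inl rfl)).elim
      · exact h
  le_antisymm a b hab hba := by
    rcases hab with rfl | hab
    · rfl
    · rcases hba with rfl | hba
      · rfl
      · exact (isin_asymm hab hba).elim
  le_total a b := by
    rcases Ord.trichotomy a b with h | h | h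
    · exact Or.inl (Or.inr h)
    · exact Or.inl (Or.inl h)
    · exact Or.inr (Or.inr h)
  toDecidableLE := fun _ _ => Classical.dec _

theorem Ord.lt_def {a b : Ord M} : a < b ↔ isin a.val b.val := Iff.rfl

/-- An internal well-order. -/
class IWO (M : Type) [ZFM M] (α : Type) [Cl M α] [LinearOrder α] : Prop where
  if_lt : IF M (fun p : α × α => p.1 < p.2)
  least : ∀ P : α → Prop, IF M P → (∃ a, P a) → ∃ a, P a ∧ ∀ b, P b → a ≤ b

section iwo
variable [LinearOrder β] [IWO M β] {f g : α → β} (hf : IF M f) (hg : IF M g)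
include hf hg

@[fun_prop] theorem IF.lt : IF M (fun a => f a < g a) :=
  (IWO.if_lt (M := M) (α := β)).comp (hf.prodMk hg)

@[fun_prop] theorem IF.le : IF M (fun a => f a ≤ g a) :=
  ((IF.lt hg hf).not).congrP fun a => not_lt.symm

@[fun_prop] theorem IF.max : IF M (fun a => max (f a) (g a)) := by
  refine IF.of_graph ?_
  have : IF M (fun p : α × β => (f p.1 ≤ g p.1 ∧ g p.1 = p.2) ∨ (g p.1 ≤ f p.1 ∧ f p.1 = p.2)) := by
    fun_prop
  refine this.congrP fun p => ?_
  rcases le_total (f p.1) (g p.1) with h | h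
  · rw [max_eq_right h]
    constructor
    · intro h'; left; exact ⟨h, h'⟩
    · rintro (h' | ⟨h', h''⟩)
      · exact h'.2
      · rw [← h'']; exact le_antisymm h' h
  · rw [max_eq_left h]
    constructor
    · intro h'; right; exact ⟨h, h'⟩
    · rintro (⟨h', h''⟩ | h')
      · rw [← h'']; exact le_antisymm h' h
      · exact h'.2

end iwo

instance instIWOOrd : IWO M (Ord M) where
  if_lt := by
    have : IF M (fun p : Ord M × Ord M => isin p.1.val p.2.val) := by fun_prop
    exact this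
  least P hP h := by
    obtain ⟨a, ha, hmin⟩ := Ord.exists_min hP h
    refine ⟨a, ha, fun b hb => ?_⟩
    by_contra hab
    exact hmin b (not_le.1 hab) hb

/-- the least element with the property `P` (an arbitrary element if there is none) -/
noncomputable def lst (M : Type) [ZFM M] {β : Type} [Cl M β] [LinearOrder β] [IWO M β] [Nonempty β]
    (P : β → Prop) : β :=
  open Classical in if h : ∃ a, P a ∧ ∀ b, P b → a ≤ b then Classical.choose h else Classical.arbitrary β

section lst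
variable [LinearOrder β] [IWO M β] [Nonempty β]

theorem lst_spec {P : β → Prop} (hP : IF M P) (h : ∃ a, P a) : P (lst M P) := by
  have h' := IWO.least (M := M) P hP h
  simp only [lst, dif_pos h']
  exact (Classical.choose_spec h').1

theorem lst_le {P : β → Prop} (hP : IF M P) {a : β} (ha : P a) : lst M P ≤ a := by
  have h' := IWO.least (M := M) P hP ⟨a, ha⟩
  simp only [lst, dif_pos h']
  exact (Classical.choose_spec h').2 a ha

theorem not_of_lt_lst {P : β → Prop} (hP : IF M P) {a : β} (ha : a < lst M P) : ¬ P a :=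
  fun h => (not_le.2 ha) (lst_le hP h)

@[fun_prop] theorem IF.lst {p : α → β → Prop} (hp : IF M (fun q : α × β => p q.1 q.2)) :
    IF M (fun a => lst M (p a)) := by
  have hp' : ∀ a, IF M (p a) := fun a => hp.comp (g := fun b => (a, b)) (by fun_prop)
  refine IF.of_graph ?_
  have h1 : IF M (fun q : α × β => (p q.1 q.2 ∧ ∀ b, p q.1 b → q.2 ≤ b) ∨
      ((¬ ∃ b, p q.1 b) ∧ q.2 = Classical.arbitrary β)) := by
    have h2 : IF M (fun r : (α × β) × β => p r.1.1 r.2) :=
      hp.comp (g := fun r : (α × β) × β => (r.1.1, r.2)) (by fun_prop)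
    fun_prop
  refine h1.congrP fun q => ?_
  obtain ⟨a, c⟩ := q
  by_cases h : ∃ b, p a b
  · constructor
    · intro hc
      have hc' : Pool.Agent.Helper48.MG.lst M (p a) = c := hc
      left
      rw [← hc']
      exact ⟨lst_spec (hp' a) h, fun b hb => lst_le (hp' a) hb⟩
    · rintro (⟨h1, h2⟩ | ⟨h1, h2⟩)
      · exact le_antisymm (lst_le (hp' a) h1) (h2 _ (lst_spec (hp' a) h))
      · exact (h1 h).elim
  · have h0 : ¬ ∃ x, p a x ∧ ∀ b, p a b → x ≤ b := fun ⟨x, hx, _⟩ => h ⟨x, hx⟩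
    have h3 : Pool.Agent.Helper48.MG.lst M (p a) = Classical.arbitrary β := by
      simp only [Pool.Agent.Helper48.MG.lst, dif_neg h0]
    constructor
    · intro hc
      have hc' : Pool.Agent.Helper48.MG.lst M (p a) = c := hc
      right
      exact ⟨h, by rw [← hc', h3]⟩
    · rintro (⟨h1, h2⟩ | ⟨h1, h2⟩)
      · exact (h ⟨c, h1⟩).elim
      · rw [h3]; exact h2.symm

end lst

theorem Ord.exists_succ (b : Ord M) : ∃ c : Ord M, ∀ x, x < c ↔ x ≤ b := by
  obtain ⟨s, hs⟩ := IsSet.union2 (P := fun x : M => isin x b.val) (Q := fun x => x = b.val)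
    ⟨b.val, fun x => Iff.rfl⟩ ⟨upair b.val b.val, fun x => by simp⟩
  have hord : IsOrd s := by
    constructor
    · intro y hy z hz
      rw [hs] at hy ⊢
      rcases hy with hy | rfl
      · left; exact b.ord.1 y hy z hz
      · left; exact hz
    · intro y hy
      rw [hs] at hy
      rcases hy with hy | rfl
      · exact b.ord.2 y hy
      · exact b.ord.1
  refine ⟨⟨s, hord⟩, fun x => ?_⟩
  rw [Ord.lt_def, hs]
  constructor
  · rintro (h | h)
    · exact Or.inr h
    · exact Or.inl (Ord.ext h)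
  · rintro (h | h)
    · right; rw [h]
    · left; exact h

/-- suprema of families of ordinals indexed by set types -/
theorem Ord.exists_gt [Ob M α] (f : α → Ord M) (hf : IF M f) : ∃ b, ∀ a, f a < b := by
  obtain ⟨s, hs⟩ := IF.isSet_range (f := fun a => (f a).val) hf.ordVal
  obtain ⟨u, hu⟩ := IsSet.union s
  have hord : IsOrd u := by
    constructor
    · intro y hy z hz
      rw [hu] at hy ⊢
      obtain ⟨t, ht, hyt⟩ := hy
      obtain ⟨a, rfl⟩ := (hs t).1 ht
      exact ⟨_, ht, (f a).ord.1 y hyt z hz⟩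
    · intro y hy
      rw [hu] at hy
      obtain ⟨t, ht, hyt⟩ := hy
      obtain ⟨a, rfl⟩ := (hs t).1 ht
      exact (f a).ord.2 y hyt
  obtain ⟨c, hc⟩ := Ord.exists_succ ⟨u, hord⟩
  refine ⟨c, fun a => ?_⟩
  rw [hc]
  by_contra h
  rw [not_le, Ord.lt_def] at h
  have : isin u u := (hu _).2 ⟨(f a).val, (hs _).2 ⟨a, rfl⟩, h⟩
  exact mem_irrefl _ this

/-! ### initial segments -/

/-- the type of the ordinals below `a` -/
def Sg (a : Ord M) : Type := {b : Ord M // b < a}

noncomputable instance (a : Ord M) : LinearOrder (Sg a) := inferInstanceAs (LinearOrder {b : Ord M // b < a})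

instance instClSg (a : Ord M) : Cl M (Sg a) where
  code b := b.1.val
  inj _ _ h := Subtype.ext (Ord.ext h)
  dom := (D1.memc a.val).congr fun x =>
    ⟨fun ⟨b, h⟩ => h ▸ b.2, fun h => ⟨⟨⟨x, a.ord.of_mem h⟩, h⟩, rfl⟩⟩

instance instObSg (a : Ord M) : Ob M (Sg a) :=
  ⟨⟨a.val, fun x => ⟨fun h => ⟨⟨⟨x, a.ord.of_mem h⟩, h⟩, rfl⟩, fun ⟨b, h⟩ => h ▸ b.2⟩⟩⟩

/-- the ordinal of an element of an initial segment -/
def Sg.ord {a : Ord M} (b : Sg a) : Ord M := b.1

theorem Sg.ord_lt {a : Ord M} (b : Sg a) : b.ord < a := b.2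
theorem Sg.ord_inj {a : Ord M} {b c : Sg a} (h : b.ord = c.ord) : b = c := Subtype.ext h
@[simp] theorem Sg.ord_lt_ord {a : Ord M} {b c : Sg a} : b.ord < c.ord ↔ b < c := Iff.rfl
@[simp] theorem Sg.ord_le_ord {a : Ord M} {b c : Sg a} : b.ord ≤ c.ord ↔ b ≤ c := Iff.rfl

@[fun_prop] theorem IF.sgOrd {a : Ord M} {f : α → Sg a} (hf : IF M f) : IF M (fun x => (f x).ord) :=
  IF.ord_mk (IF.cod.comp hf)

theorem IF.sg_mk {a : Ord M} {f : α → Sg a} (hf : IF M (fun x => (f x).ord)) : IF M f := by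
  refine IF.of_graph ?_
  have : IF M (fun p : α × Sg a => (f p.1).ord = p.2.ord) := by
    refine IF.eq ?_ (by fun_prop)
    exact hf.comp IF.fst
  exact this.congrP fun p => ⟨fun h => h ▸ rfl, fun h => Sg.ord_inj h⟩

instance instIWOSg (a : Ord M) : IWO M (Sg a) where
  if_lt := by
    have : IF M (fun p : Sg a × Sg a => p.1.ord < p.2.ord) := by fun_prop
    exact this
  least P hP h := by
    obtain ⟨c, hc⟩ := h
    have h1 : IF M (fun x : Ord M => ∃ b : Sg a, b.ord = x ∧ P b) := by fun_prop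
    obtain ⟨x, ⟨b, rfl, hb⟩, hmin⟩ := IWO.least (M := M) _ h1 ⟨c.ord, c, rfl, hc⟩
    exact ⟨b, hb, fun d hd => hmin d.ord ⟨d, rfl, hd⟩⟩

end Pool.Agent.Helper48.MG
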