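import Pool.Agent.Helper48.MG.IfaceB

/-!
# The partition theorem, part 1: definitions, index order, pullbacks
-/

set_option autoImplicit false

namespace Pool.Agent.Helper48.MG

variable {M : Type} [ZFM M]
variable {α β γ δ : Type} [Cl M α] [Cl M β] [Cl M γ] [Cl M δ]

/-- internal strict well-order -/
structure ILO {X : Type} [Cl M X] [Ob M X] (lo : IFun M (X × X) Prop) : Prop where
  irr : ∀ a, ¬ lo (a, a)
  tr : ∀ a b c, lo (a, b) → lo (b, c) → lo (a, c)
  tot : ∀ a b, a ≠ b → lo (a, b) ∨ lo (b, a)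
  wf : IWf lo

theorem ILO.least {X : Type} [Cl M X] [Ob M X] {lo : IFun M (X × X) Prop} (h : ILO lo)
    (P : IFun M X Prop) (hP : ∃ x, P x) : ∃ x, P x ∧ ∀ y, P y → ¬ lo (y, x) := by
  obtain ⟨x, hx, hx'⟩ := h.wf P hP
  exact ⟨x, hx, fun y hy hyx => hx' y hyx hy⟩

/-- the index of a check: block, slot, number -/
abbrev Ix (M : Type) [ZFM M] : Type := W M × W M × N M

/-- lexicographic order of the indices: block, then slot (ordered by `lo`), then number -/
noncomputable def ilt (lo : IFun M (W M × W M) Prop) : IFun M (Ix M × Ix M) Prop :=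
  lam (fun p => p.1.1 < p.2.1 ∨ (p.1.1 = p.2.1 ∧
    (lo (p.1.2.1, p.2.2.1) ∨ (p.1.2.1 = p.2.2.1 ∧ p.1.2.2 < p.2.2.2)))) (by fun_prop)

theorem ilt_iff {lo : IFun M (W M × W M) Prop} {p q : Ix M} : ilt lo (p, q) ↔
    (p.1 < q.1 ∨ (p.1 = q.1 ∧ (lo (p.2.1, q.2.1) ∨ (p.2.1 = q.2.1 ∧ p.2.2 < q.2.2)))) := Iff.rfl

theorem ilo_ilt {lo : IFun M (W M × W M) Prop} (h : ILO lo) : ILO (ilt lo) where
  irr a := by
    rw [ilt_iff]
    rintro (h1 | ⟨_, h1 | ⟨_, h1⟩⟩)
    · exact lt_irrefl _ h1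
    · exact h.irr _ h1
    · exact lt_irrefl _ h1
  tr a b c := by
    rw [ilt_iff, ilt_iff, ilt_iff]
    rintro (h1 | ⟨h1, h1'⟩) (h2 | ⟨h2, h2'⟩)
    · exact Or.inl (h1.trans h2)
    · exact Or.inl (h2 ▸ h1)
    · exact Or.inl (h1 ▸ h2)
    · refine Or.inr ⟨h1.trans h2, ?_⟩
      rcases h1' with h1' | ⟨h1', h1''⟩ <;> rcases h2' with h2' | ⟨h2', h2''⟩
      · exact Or.inl (h.tr _ _ _ h1' h2')
      · exact Or.inl (h2' ▸ h1')
      · exact Or.inl (h1' ▸ h2')
      · exact Or.inr ⟨h1'.trans h2', h1''.trans h2''⟩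
  tot a b hab := by
    rw [ilt_iff, ilt_iff]
    rcases lt_trichotomy a.1 b.1 with h1 | h1 | h1
    · exact Or.inl (Or.inl h1)
    · by_cases h2 : a.2.1 = b.2.1
      · rcases lt_trichotomy a.2.2 b.2.2 with h3 | h3 | h3
        · exact Or.inl (Or.inr ⟨h1, Or.inr ⟨h2, h3⟩⟩)
        · exact (hab (Prod.ext h1 (Prod.ext h2 h3))).elim
        · exact Or.inr (Or.inr ⟨h1.symm, Or.inr ⟨h2.symm, h3⟩⟩)
      · rcases h.tot _ _ h2 with h3 | h3
        · exact Or.inl (Or.inr ⟨h1, Or.inl h3⟩)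
        · exact Or.inr (Or.inr ⟨h1.symm, Or.inl h3⟩)
    · exact Or.inr (Or.inl h1)
  wf := by
    rintro P ⟨x, hx⟩
    obtain ⟨c, ⟨x, hx, rfl⟩, hc⟩ := IWO.least (M := M) (fun c : W M => ∃ x, P x ∧ x.1 = c)
      (by fun_prop) ⟨_, x, hx, rfl⟩
    obtain ⟨s, ⟨y, hy, hy1, rfl⟩, hs⟩ := h.least
      (lam (fun s : W M => ∃ y, P y ∧ y.1 = x.1 ∧ y.2.1 = s) (by fun_prop)) ⟨_, x, hx, rfl, rfl⟩
    obtain ⟨m, ⟨z, hz, hz1, hz2, rfl⟩, hm⟩ := IWO.least (M := M)
      (fun m : N M => ∃ z, P z ∧ z.1 = x.1 ∧ z.2.1 = y.2.1 ∧ z.2.2 = m)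
      (by fun_prop) ⟨_, y, hy, hy1, rfl, rfl⟩
    refine ⟨z, hz, fun w hw hPw => ?_⟩
    rw [ilt_iff] at hw
    rcases hw with hw | ⟨hw, hw' | ⟨hw', hw''⟩⟩
    · rw [hz1] at hw
      exact not_le.2 hw (hc _ ⟨w, hPw, rfl⟩)
    · rw [hz2] at hw'
      exact hs _ ⟨w, hPw, hw.trans hz1, rfl⟩ hw'
    · exact not_le.2 hw'' (hm _ ⟨w, hPw, hw.trans hz1, hw'.trans hz2, rfl⟩)

/-- the index is checked: the block is closed and the slot is below the block -/
def valid (p : Ix M) : Prop := Clo p.1 ∧ p.2.1 < p.1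

@[fun_prop] theorem IF.valid {f : α → Ix M} (hf : IF M f) : IF M (fun x => valid (f x)) := by
  unfold MG.valid; fun_prop

/-- the node of the index -/
noncomputable def ndi (p : Ix M) : W M := nd (pw p.2.1 (nat p.2.2))

@[fun_prop] theorem IF.ndi {f : α → Ix M} (hf : IF M f) : IF M (fun x => ndi (f x)) := by
  unfold MG.ndi; fun_prop

theorem ndi_lt {p : Ix M} (h : valid p) : ndi p < p.1 :=
  h.1.2.2 _ _ (h.1.nat_lt _) (h.1.2.2 _ _ h.2 (h.1.nat_lt _))

variable (K : Coding M)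

/-- the relation on `ω_1` coded by the real `y` -/
noncomputable def Zr (y : Re M) : IFun M (W M × W M) Prop := lam (fun p => K.acc (y, pw p.1 p.2)) (by fun_prop)

@[fun_prop] theorem IF.Zr {f : α → Re M} (hf : IF M f) : IF M (fun x => Zr K (f x)) := by
  unfold MG.Zr; fun_prop

/-- the value of `y` at the index `p` -/
noncomputable def Fr (y : Re M) (p : Ix M) : W M := rk (W M) (restr (Zr K y) p.1) (ndi p)

@[fun_prop] theorem IF.Fr {f : α → Re M} {g : α → Ix M} (hf : IF M f) (hg : IF M g) :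
    IF M (fun x => Fr K (f x) (g x)) := by
  unfold MG.Fr; fun_prop

/-- `y` passes the check at the index `p` -/
def Gd (y : Re M) (p : Ix M) : Prop :=
  (∀ u, u < p.1 → K.ok (y, u)) ∧ Rkd (W M) (restr (Zr K y) p.1) (ndi p)

@[fun_prop] theorem IF.Gd {f : α → Re M} {g : α → Ix M} (hf : IF M f) (hg : IF M g) :
    IF M (fun x => Gd K (f x) (g x)) := by
  unfold MG.Gd; fun_prop

/-- `y` fails at the index `p` -/
def fl (y : Re M) (p : Ix M) : Prop := valid p ∧ ¬ Gd K y p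

@[fun_prop] theorem IF.fl {f : α → Re M} {g : α → Ix M} (hf : IF M f) (hg : IF M g) :
    IF M (fun x => fl K (f x) (g x)) := by
  unfold MG.fl; fun_prop

/-- the function played by both players together -/
noncomputable def Hf (x y : Re M) : IFun M (W M × W M) (W M) :=
  lam (fun q => lst M (fun b => ∀ m, Fr K x (q.1, q.2, m) ≤ b ∧ Fr K y (q.1, q.2, m) ≤ b)) (by fun_prop)

@[fun_prop] theorem IF.Hf {f g : α → Re M} (hf : IF M f) (hg : IF M g) :
    IF M (fun x => Hf K (f x) (g x)) := by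
  unfold MG.Hf; fun_prop

theorem Hf_comm (x y : Re M) : Hf K x y = Hf K y x := by
  unfold Hf
  refine IFun.ext fun q => ?_
  simp only [lam_apply]
  congr 1
  funext b
  exact propext (forall_congr' fun m => and_comm)

/-- player I (who plays `X`, consisting of the code `sec X 0` of an ordinal and of `sec X 1`)
wins against `y` -/
def Win (lo : IFun M (W M × W M) Prop) (R : IFun M (W M × IFun M (W M × W M) (W M)) Prop)
    (X y : Re M) : Prop :=
  WF (sec X 0) ∧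
    ((∃ p, fl K y p ∧ ∀ q, (ilt lo (q, p) ∨ q = p) → ¬ fl K (sec X (sc 0)) q) ∨
    ((∀ p, ¬ fl K (sec X (sc 0)) p) ∧ (∀ p, ¬ fl K y p) ∧
      R (nrm (sec X 0), Hf K (sec X (sc 0)) y)))

@[fun_prop] theorem IF.Win {lo : IFun M (W M × W M) Prop}
    {R : IFun M (W M × IFun M (W M × W M) (W M)) Prop} {f g : α → Re M} (hf : IF M f)
    (hg : IF M g) : IF M (fun x => Win K lo R (f x) (g x)) := by
  unfold MG.Win; fun_prop

/-- `y` is good at all indices before `p`, with all bounds at most `η` -/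
def BB (lo : IFun M (W M × W M) Prop) (p : Ix M) (η : W M) (y : Re M) : Prop :=
  (∀ u, u < p.1 → K.cert (y, u, η)) ∧
    ∀ q, valid q → ilt lo (q, p) → RL (restr (Zr K y) q.1) (ndi q) η

@[fun_prop] theorem IF.BB {lo : IFun M (W M × W M) Prop} {f : α → Ix M} {g : α → W M}
    {h : α → Re M} (hf : IF M f) (hg : IF M g) (hh : IF M h) :
    IF M (fun x => BB K lo (f x) (g x) (h x)) := by
  unfold MG.BB; fun_prop

variable {K}

theorem BB.not_fl {lo : IFun M (W M × W M) Prop} {p : Ix M} {η : W M} {y : Re M}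
    (h : BB K lo p η y) {q : Ix M} (hq : ilt lo (q, p)) : ¬ fl K y q := by
  rintro ⟨hv, hg⟩
  apply hg
  refine ⟨fun u hu => (K.ok_iff y u).2 ⟨η, h.1 u ?_⟩, (h.2 q hv hq).rkd⟩
  rw [ilt_iff] at hq
  rcases hq with hq | hq
  · exact hu.trans hq
  · exact hq.1 ▸ hu

/-! ### pullback of a restriction to `N` -/

theorem exists_onto {c : W M} (hc : w0 M < c) :
    ∃ e : IFun M (N M) (W M), (∀ n, e n < c) ∧ ∀ u, u < c → ∃ n, e n = u := by
  classical
  obtain ⟨f, hf⟩ := exists_cov_W c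
  refine ⟨lam (fun n => if f n < c then f n else w0 M) (by fun_prop), fun n => ?_, fun u hu => ?_⟩
  · show (if f n < c then f n else w0 M) < c
    split_ifs with h
    · exact h
    · exact hc
  · obtain ⟨n, hn⟩ := hf u hu.le
    exact ⟨n, by show (if f n < c then f n else w0 M) = u; rw [hn, if_pos hu]⟩

theorem rl_pullback {Z : IFun M (W M × W M) Prop} {c : W M} {e : IFun M (N M) (W M)}
    (he : ∀ n, e n < c) (hs : ∀ u, u < c → ∃ n, e n = u) {k : N M} {b : W M} :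
    RL (lam (fun p : N M × N M => Z (e p.1, e p.2)) (by fun_prop)) k b ↔ RL (restr Z c) (e k) b := by
  constructor
  · intro h
    refine RL.ind (P := fun k b => RL (restr Z c) (e k) b) (by fun_prop) ?_ h
    intro k b hk
    refine RL.intro fun u hu => ?_
    obtain ⟨l, rfl⟩ := hs u hu.1
    obtain ⟨d, hd, _, hd'⟩ := hk l hu.2.2
    exact ⟨d, hd, hd'⟩
  · intro h
    have := RL.ind (R := restr Z c) (P := fun u b => ∀ k, e k = u →
      RL (lam (fun p : N M × N M => Z (e p.1, e p.2)) (by fun_prop)) k b) (by fun_prop) (by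
        rintro u b hu k rfl
        refine RL.intro fun l hl => ?_
        obtain ⟨d, hd, _, hd'⟩ := hu (e l) ⟨he l, he k, hl⟩
        exact ⟨d, hd, hd' l rfl⟩) h
    exact this k rfl

end Pool.Agent.Helper48.MG
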