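import Pool.Agent.Helper48.MG.PTa

/-!
# The partition theorem, part 2: the sets `BB` are `Σ¹₁`; bounding functions
-/

set_option autoImplicit false

namespace Pool.Agent.Helper48.MG

variable {M : Type} [ZFM M]
variable {α β γ δ : Type} [Cl M α] [Cl M β] [Cl M γ] [Cl M δ]

/-- Witness form of `RL` for the restriction of a relation to an ordinal `c` enumerated by `e`, with
ranks in the ordinals enumerated by `d`: a set `D` of numbers (`D k = 0`) closed downwards with an
order preserving map. -/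
theorem rl_iff_witness {Z : IFun M (W M × W M) Prop} {c : W M} {e : IFun M (N M) (W M)}
    (he : ∀ n, e n < c) (hs : ∀ u, u < c → ∃ n, e n = u) {η : W M} {d : IFun M (N M) (W M)}
    (hd : ∀ n, d n ≤ η) (hds : ∀ u, u ≤ η → ∃ n, d n = u) {k : N M} :
    RL (restr Z c) (e k) η ↔ ∃ z : Re M, sec z 0 k = 0 ∧
      ∀ l, sec z 0 l = 0 → ∀ m, Z (e m, e l) → sec z 0 m = 0 ∧
        d (sec z (sc 0) m) < d (sec z (sc 0) l) := by
  classical
  constructor
  · intro h
    have h1 : IF M (fun l : N M => if RL (restr Z c) (e l) η then (0 : N M) else sc 0) := by fun_prop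
    have h2 : IF M (fun l : N M => lst M (fun n => d n = rk (W M) (restr Z c) (e l))) := by fun_prop
    obtain ⟨z, hz0, hz1⟩ := exists_join2 (M := M) ⟨_, h1⟩ ⟨_, h2⟩
    refine ⟨z, ?_, fun l hl m hm => ?_⟩
    · rw [hz0]; exact if_pos h
    · rw [hz0] at hl
      have hl' : RL (restr Z c) (e l) η := by
        by_contra hcon
        have h3 : (if RL (restr Z c) (e l) η then (0 : N M) else sc 0) = 0 := hl
        rw [if_neg hcon] at h3
        exact N.sc_ne_zero _ h3
      have hm' : (restr Z c) (e m, e l) := ⟨he m, he l, hm⟩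
      obtain ⟨b, hb, hb'⟩ := hl'.elim _ hm'
      have hm'' : RL (restr Z c) (e m) η := hb'.mono hb.le
      have h4 : rk (W M) (restr Z c) (e m) < rk (W M) (restr Z c) (e l) := rk_lt hl'.rkd hm'
      have h5 : ∀ l, RL (restr Z c) (e l) η →
          d (lst M (fun n => d n = rk (W M) (restr Z c) (e l))) = rk (W M) (restr Z c) (e l) := by
        intro l hl
        exact lst_spec (M := M) (P := fun n => d n = rk (W M) (restr Z c) (e l)) (by fun_prop)
          (hds _ hl.rk_le)
      rw [hz0, hz1]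
      refine ⟨if_pos hm'', ?_⟩
      show d (lst M (fun n => d n = rk (W M) (restr Z c) (e m))) <
        d (lst M (fun n => d n = rk (W M) (restr Z c) (e l)))
      rw [h5 m hm'', h5 l hl']
      exact h4
  · rintro ⟨z, hk, hz⟩
    have key : ∀ b : W M, ∀ l, sec z 0 l = 0 → d (sec z (sc 0) l) = b → RL (restr Z c) (e l) b := by
      by_contra hcon
      push Not at hcon
      obtain ⟨b, ⟨l, hl, hb, hl'⟩, hmin⟩ := IWO.least (M := M)
        (fun b : W M => ∃ l, sec z 0 l = 0 ∧ d (sec z (sc 0) l) = b ∧ ¬ RL (restr Z c) (e l) b)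
        (by fun_prop) hcon
      apply hl'
      refine RL.intro fun u hu => ?_
      obtain ⟨m, rfl⟩ := hs u hu.1
      obtain ⟨hm, hm'⟩ := hz l hl m hu.2.2
      refine ⟨d (sec z (sc 0) m), by rw [← hb]; exact hm', ?_⟩
      by_contra hcon'
      have := hmin _ ⟨m, hm, rfl, hcon'⟩
      rw [← hb] at this
      exact not_le.2 hm' this
    exact (key _ k hk rfl).mono (hd _)

variable [AD M] (K : Coding M)

theorem sig_cert_below (c η : W M) : Sig M (fun y : Re M => ∀ u, u < c → K.cert (y, u, η)) :=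
  Sig.allW' (P := fun u y => K.cert (y, u, η)) (by fun_prop) c fun u _ => K.sig_cert u η

variable {K} in
theorem ok_of_cert {c η : W M} {y : Re M} (h : ∀ u, u < c → K.cert (y, u, η)) :
    ∀ u, u < c → K.ok (y, u) := fun u hu => (K.ok_iff y u).2 ⟨η, h u hu⟩

/-- bounded ranks of the coded relation are a `Σ¹₁` condition on correct codes -/
theorem sig_rl {c c' : W M} (hcc : c' ≤ c) (hc : Clo c') (u η : W M) :
    Sig M (fun y : Re M => (∀ u, u < c → K.cert (y, u, η)) ∧ RL (restr (Zr K y) c') u η) := by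
  by_cases hu : u < c'
  swap
  · -- no predecessors
    refine (sig_cert_below K c η).congr fun y => ?_
    constructor
    · exact fun h => h.1
    · intro h
      exact ⟨h, RL.intro fun v hv => (hu hv.2.1).elim⟩
  obtain ⟨e, he, hes⟩ := exists_onto (M := M) (c := c') hc.1
  obtain ⟨d, hd, hds⟩ := exists_onto (M := M) (c := sW η) (lt_sW.2 (w0_le _))
  obtain ⟨k, rfl⟩ := hes u hu
  have hd' : ∀ n, d n ≤ η := fun n => lt_sW.1 (hd n)
  have hds' : ∀ u, u ≤ η → ∃ n, d n = u := fun u hu => hds u (lt_sW.2 hu)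
  -- the negative information
  have hnac : Sig M (fun q : (Re M × N M) × N M => K.nac (q.1.1, pw (e q.1.2) (e q.2))) := by
    have h1 : ∀ l, Sig M (fun q : Re M × N M => K.nac (q.1, pw (e q.2) (e l))) := fun l =>
      Sig.unif (P := fun m (y : Re M) => K.nac (y, pw (e m) (e l))) (by fun_prop)
        fun m => K.sig_nac _
    exact Sig.unif (P := fun l (q : Re M × N M) => K.nac (q.1, pw (e q.2) (e l))) (by fun_prop) h1
  have hmain : Sig M (fun y : Re M => ∃ z : Re M, sec z 0 k = 0 ∧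
      ∀ l, sec z 0 l = 0 → ∀ m, K.nac (y, pw (e m) (e l)) ∨ (sec z 0 m = 0 ∧
        d (sec z (sc 0) m) < d (sec z (sc 0) l))) := by
    refine Sig.exR (P := fun y z => sec z 0 k = 0 ∧
      ∀ l, sec z 0 l = 0 → ∀ m, K.nac (y, pw (e m) (e l)) ∨ (sec z 0 m = 0 ∧
        d (sec z (sc 0) m) < d (sec z (sc 0) l))) ?_
    refine Sig.and (Sig.ct (by fun_prop)) ?_
    refine Sig.allN (P := fun (q : Re M × Re M) l => sec q.2 0 l = 0 → ∀ m,
      K.nac (q.1, pw (e m) (e l)) ∨ (sec q.2 0 m = 0 ∧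
        d (sec q.2 (sc 0) m) < d (sec q.2 (sc 0) l))) ?_
    refine Sig.imp_ct (by fun_prop) ?_
    refine Sig.allN (P := fun (q : (Re M × Re M) × N M) m =>
      K.nac (q.1.1, pw (e m) (e q.2)) ∨ (sec q.1.2 0 m = 0 ∧
        d (sec q.1.2 (sc 0) m) < d (sec q.1.2 (sc 0) q.2))) ?_
    refine Sig.or ?_ (Sig.ct ?_)
    · exact hnac.comp (f := fun q : ((Re M × Re M) × N M) × N M => ((q.1.1.1, q.2), q.1.2))
        (by fun_prop)
    · have h2 : Ct M (fun p : N M × N M => d p.1 < d p.2) := Ct.dsc (by fun_prop)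
      have h3 : Ct M (fun q : ((Re M × Re M) × N M) × N M =>
          d (sec q.1.1.2 (sc 0) q.2) < d (sec q.1.1.2 (sc 0) q.1.2)) :=
        h2.comp (g := fun q : ((Re M × Re M) × N M) × N M =>
          (sec q.1.1.2 (sc 0) q.2, sec q.1.1.2 (sc 0) q.1.2)) (by fun_prop)
      exact Ct.and (by fun_prop) h3
  refine ((sig_cert_below K c η).and hmain).congr fun y => and_congr_right fun hcert => ?_
  rw [rl_iff_witness he hes hd' hds']
  refine exists_congr fun z => and_congr_right fun _ => forall_congr' fun l =>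
    forall_congr' fun _ => forall_congr' fun m => ?_
  have hlt : pw (e m) (e l) < c := lt_of_lt_of_le (hc.2.2 _ _ (he m) (he l)) hcc
  rw [K.nac_iff y _ (ok_of_cert hcert _ hlt)]
  show (K.acc (y, pw (e m) (e l)) → _) ↔ _
  tauto

theorem sig_BB (lo : IFun M (W M × W M) Prop) (p : Ix M) (η : W M) :
    Sig M (BB K lo p η) := by
  have h1 : Sig M (fun y : Re M => ∀ a, a ≤ p.1 → ∀ s, s ≤ p.1 → ∀ m : N M,
      valid (a, s, m) → ilt lo ((a, s, m), p) →
        ((∀ u, u < p.1 → K.cert (y, u, η)) ∧ RL (restr (Zr K y) a) (ndi (a, s, m)) η)) := by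
    refine Sig.allW (P := fun a y => ∀ s, s ≤ p.1 → ∀ m : N M,
      valid (a, s, m) → ilt lo ((a, s, m), p) →
        ((∀ u, u < p.1 → K.cert (y, u, η)) ∧ RL (restr (Zr K y) a) (ndi (a, s, m)) η))
        (by fun_prop) p.1 fun a ha => ?_
    refine Sig.allW (P := fun s y => ∀ m : N M,
      valid (a, s, m) → ilt lo ((a, s, m), p) →
        ((∀ u, u < p.1 → K.cert (y, u, η)) ∧ RL (restr (Zr K y) a) (ndi (a, s, m)) η))
        (by fun_prop) p.1 fun s hs => ?_
    refine Sig.iInter (P := fun m y =>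
      valid (a, s, m) → ilt lo ((a, s, m), p) →
        ((∀ u, u < p.1 → K.cert (y, u, η)) ∧ RL (restr (Zr K y) a) (ndi (a, s, m)) η))
        (by fun_prop) fun m => ?_
    by_cases hv : valid (a, s, m)
    · exact Sig.imp_ct (by fun_prop) (Sig.imp_ct (by fun_prop) (sig_rl K ha hv.1 _ η))
    · exact (Sig.ct (Ct.const True)).congr fun y => ⟨fun _ => trivial, fun _ h => (hv h).elim⟩
  refine ((sig_cert_below K p.1 η).and h1).congr fun y => and_congr_right fun hcert => ?_
  constructor
  · intro h a ha s hs m hv hlt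
    exact ⟨hcert, h _ hv hlt⟩
  · intro h q hv hlt
    have h2 : q.1 ≤ p.1 := by
      rw [ilt_iff] at hlt
      rcases hlt with h | h
      · exact h.le
      · exact h.1.le
    exact (h q.1 h2 q.2.1 (hv.2.le.trans h2) q.2.2 hv hlt).2

theorem exists_theta {p : Ix M} (hp : valid p)
    {P : Re M → Prop} (hP : Sig M P) {x : Re M → Re M} (hx : Ct M x)
    (h : ∀ y, P y → Gd K (x y) p) :
    ∃ b : W M, ∀ y, P y → RL (restr (Zr K (x y)) p.1) (ndi p) b := by
  obtain ⟨e, he, hes⟩ := exists_onto (M := M) (c := p.1) hp.1.1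
  obtain ⟨k0, hk0⟩ := hes _ (ndi_lt hp)
  have hx1 := hx.iff
  have hacc : Sig M (fun q : (Re M × N M) × N M => K.acc (x q.1.1, pw (e q.1.2) (e q.2))) := by
    have hx' := hx.iff
    have h1 : ∀ l, Sig M (fun q : Re M × N M => K.acc (x q.1, pw (e q.2) (e l))) := fun l =>
      Sig.unif (P := fun m (y : Re M) => K.acc (x y, pw (e m) (e l))) (by fun_prop)
        fun m => (K.sig_acc _).comp hx
    exact Sig.unif (P := fun l (q : Re M × N M) => K.acc (x q.1, pw (e q.2) (e l))) (by fun_prop) h1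
  obtain ⟨b, hb⟩ := bddE (E := fun q => K.acc (x q.1.1, pw (e q.1.2) (e q.2))) hP hacc k0
    (fun a => by fun_prop) (fun y hy => by
      obtain ⟨b, hb⟩ := (h y hy).2
      exact ⟨b, (rl_pullback (Z := Zr K (x y)) he hes).2 (by rw [hk0]; exact hb)⟩)
  refine ⟨b, fun y hy => ?_⟩
  rw [← hk0]
  exact (rl_pullback (Z := Zr K (x y)) he hes).1 (hb y hy)

end Pool.Agent.Helper48.MG
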