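import Pool.Agent.Helper48.MG.PTb
import Pool.Agent.Helper48.MG.CT
import Pool.Agent.Helper98.MG.Ku

/-!
# The partition theorem, part 3: the proof
-/

set_option autoImplicit false

namespace Pool.Agent.Helper48.MG

variable {M : Type} [ZFM M]
variable {α β γ δ : Type} [Cl M α] [Cl M β] [Cl M γ] [Cl M δ]
variable [AD M] (K : Coding M)

/-- a bounding function for a family of ordinals indexed by an index and an ordinal -/
theorem exists_bound (θ : IFun M (Ix M × W M) (W M)) : ∃ f : Fn M, ∀ (p : Ix M) (η b : W M),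
    p.1 ≤ b → p.2.1 ≤ b → η ≤ b → θ (p, η) ≤ f b := by
  have key : ∀ b : W M, ∃ d, ∀ (p : Ix M) (η : W M), p.1 ≤ b → p.2.1 ≤ b → η ≤ b → θ (p, η) ≤ d := by
    intro b
    obtain ⟨e, he⟩ := exists_cov_W b
    obtain ⟨d, hd⟩ := W_seq (M := M) (lam (fun n : N M =>
      θ ((e (u1 n), e (u1 (u2 n)), u1 (u2 (u2 n))), e (u2 (u2 (u2 n))))) (by fun_prop))
    refine ⟨d, fun p η h1 h2 h3 => ?_⟩
    obtain ⟨i, hi⟩ := he p.1 h1
    obtain ⟨j, hj⟩ := he p.2.1 h2
    obtain ⟨k, hk⟩ := he η h3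
    have := hd (pr i (pr j (pr p.2.2 k)))
    simp only [lam_apply, u1_pr, u2_pr, hi, hj, hk] at this
    exact this.le
  refine ⟨lam (fun b => lst M (fun d => ∀ (p : Ix M) (η : W M), p.1 ≤ b → p.2.1 ≤ b → η ≤ b →
    θ (p, η) ≤ d)) (by fun_prop), fun p η b h1 h2 h3 => ?_⟩
  exact lst_spec (M := M) (P := fun d => ∀ (p : Ix M) (η : W M), p.1 ≤ b → p.2.1 ≤ b → η ≤ b →
    θ (p, η) ≤ d) (by fun_prop) (key b) p η h1 h2 h3

/-- a set of codes `y` (with parameters `p`, `η`) such that `x y` is good at `p`: bounding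
function -/
theorem exists_theta_fn (P : IFun M (Ix M × W M × Re M) Prop)
    (hP' : ∀ p, valid p → ∀ η, Sig M (fun y => P (p, η, y))) {x : Re M → Re M} (hx : Ct M x)
    (h : ∀ p, valid p → ∀ η y, P (p, η, y) → Gd K (x y) p) :
    ∃ f : Fn M, ∀ p, valid p → ∀ η b, p.1 ≤ b → η ≤ b → ∀ y, P (p, η, y) →
      Fr K (x y) p ≤ f b := by
  have hx1 := hx.iff
  obtain ⟨f, hf⟩ := exists_bound (M := M) (lam (fun q : Ix M × W M =>
    lst M (fun b => ∀ y, P (q.1, q.2, y) → Fr K (x y) q.1 ≤ b)) (by fun_prop))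
  refine ⟨f, fun p hp η b h1 h2 y hy => ?_⟩
  refine le_trans ?_ (hf p η b h1 (hp.2.le.trans h1) h2)
  obtain ⟨b', hb'⟩ := exists_theta K hp (hP' p hp η) hx (h p hp η)
  exact lst_spec (M := M) (P := fun b => ∀ y, P (p, η, y) → Fr K (x y) p ≤ b) (by fun_prop)
    ⟨b', fun y hy => (hb' y hy).rk_le⟩ y hy

/-- a code of a function of correct type -/
theorem exists_codeG (g : IFun M (Ix M) (W M)) : ∃ y : Re M, (∀ u, K.ok (y, u)) ∧
    (∀ p, Gd K y p) ∧ Ev (fun c => ∀ s, s < c → ∀ m, Fr K y (c, s, m) = g (c, s, m)) := by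
  -- `g' (c, u)` with `u = pw s (nat m)`
  obtain ⟨Z, hZ, hZ'⟩ := exists_rep (M := M) (lam (fun q : W M × W M =>
    g (q.1, bas M q.2, lst M (fun m : N M => nat m = top M q.2))) (by fun_prop))
  obtain ⟨y, hy⟩ := K.code (lam (fun w : W M => ∃ u v, w = pw u v ∧ Z (u, v)) (by fun_prop))
  have hZy : Zr K y = Z := by
    refine IFun.ext fun p => propext ?_
    show K.acc (y, pw p.1 p.2) ↔ Z p
    rw [(hy _).2]
    constructor
    · rintro ⟨u, v, h, h'⟩
      obtain ⟨h1, h2⟩ := pw_inj h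
      rw [← h1, ← h2] at h'
      exact h'
    · intro h
      exact ⟨p.1, p.2, rfl, h⟩
  refine ⟨y, fun u => (hy u).1, fun p => ⟨fun u _ => (hy u).1, ?_⟩, ?_⟩
  · rw [hZy]
    exact hZ.rkd_restr _ _
  · refine (hZ'.and Ev_Clo).mono fun c hc s hs m => ?_
    have h1 : pw s (nat m) < c := hc.2.2.2 _ _ hs (hc.2.nat_lt m)
    have h2 := hc.1 (pw s (nat m)) h1
    unfold Fr ndi
    rw [hZy]
    refine h2.trans ?_
    show g (c, bas M (pw s (nat m)), lst M (fun m' : N M => nat m' = top M (pw s (nat m)))) = _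
    rw [bas_pw, top_pw]
    have h3 : nat (lst M (fun m' : N M => nat m' = nat m)) = nat m :=
      lst_spec (M := M) (P := fun m' : N M => nat m' = nat m) (by fun_prop) ⟨m, rfl⟩
    rw [nat_inj h3]

omit [AD M] in
theorem strict_of_step {a : N M → W M} (ha : IF M a) (h : ∀ m, a m < a (sc m)) {m n : N M}
    (hmn : m < n) : a m < a n := by
  revert hmn
  refine N.ind (fun n => m < n → a m < a n) (by fun_prop) (fun h => (N.not_lt_zero _ h).elim) ?_ n
  intro n ih hmn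
  rcases lt_or_eq_of_le (N.lt_sc.1 hmn) with h' | rfl
  · exact (ih h').trans (h n)
  · exact h m

/-- the local property of correct type -/
def CTl (lo : IFun M (W M × W M) Prop) (C : IFun M (W M) Prop) (G : G2 M)
    (g : IFun M (Ix M) (W M)) (c : W M) : Prop :=
  ∀ s, s < c → c < g (c, s, 0) ∧ (∀ m, g (c, s, m) < g (c, s, sc m)) ∧
    (∀ m, g (c, s, m) < G (c, s)) ∧ (∀ b, b < G (c, s) → ∃ m, b < g (c, s, m)) ∧ C (G (c, s)) ∧
    ∀ s', s' < c → lo (s', s) → G (c, s') < g (c, s, 0)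

omit [AD M] in
theorem CTl.lt {lo : IFun M (W M × W M) Prop} {C : IFun M (W M) Prop} {G : G2 M}
    {g : IFun M (Ix M) (W M)} {c : W M} (h : CTl lo C G g c) {s : W M} (hs : s < c) {m n : N M}
    (hmn : m < n) : g (c, s, m) < g (c, s, n) :=
  strict_of_step (a := fun m => g (c, s, m)) (by fun_prop) (h s hs).2.1 hmn

omit [AD M] in
theorem CTl.block_lt {lo : IFun M (W M × W M) Prop} {C : IFun M (W M) Prop} {G : G2 M}
    {g : IFun M (Ix M) (W M)} {c : W M} (h : CTl lo C G g c) {s : W M} (hs : s < c) (m : N M) :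
    c < g (c, s, m) := by
  rcases lt_or_eq_of_le (N.zero_le m) with h' | rfl
  · exact (h s hs).1.trans (h.lt hs h')
  · exact (h s hs).1

omit [AD M] in
theorem CTl.zero_le {lo : IFun M (W M × W M) Prop} {C : IFun M (W M) Prop} {G : G2 M}
    {g : IFun M (Ix M) (W M)} {c : W M} (h : CTl lo C G g c) {s : W M} (hs : s < c) (m : N M) :
    g (c, s, 0) ≤ g (c, s, m) := by
  rcases lt_or_eq_of_le (N.zero_le m) with h' | rfl
  · exact (h.lt hs h').le
  · exact le_rfl

omit [AD M] in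
theorem Hf_eq {lo : IFun M (W M × W M) Prop} {f : Fn M} {G : G2 M} {g : IFun M (Ix M) (W M)}
    {x y : Re M} {c : W M} (h : CTl lo (CP f) G g c)
    (hy : ∀ s, s < c → ∀ m, Fr K y (c, s, m) = g (c, s, m))
    (hx : ∀ s, s < c → ∀ m, Fr K x (c, s, m) ≤ f (g (c, s, m))) :
    ∀ s, s < c → Hf K x y (c, s) = G (c, s) := by
  intro s hs
  obtain ⟨h1, h2, h3, h4, h5, h6⟩ := h s hs
  have hub : ∀ m, Fr K x (c, s, m) ≤ G (c, s) ∧ Fr K y (c, s, m) ≤ G (c, s) := fun m =>
    ⟨(hx s hs m).trans (h5.2 _ (h3 m)).le, by rw [hy s hs m]; exact (h3 m).le⟩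
  refine le_antisymm ?_ (not_lt.1 fun hlt => ?_)
  · exact lst_le (M := M) (P := fun b => ∀ m, Fr K x (c, s, m) ≤ b ∧ Fr K y (c, s, m) ≤ b)
      (by fun_prop) hub
  · obtain ⟨m, hm⟩ := h4 _ hlt
    have := lst_spec (M := M) (P := fun b => ∀ m, Fr K x (c, s, m) ≤ b ∧ Fr K y (c, s, m) ≤ b)
      (by fun_prop) ⟨_, hub⟩ m
    rw [← hy s hs m] at hm
    exact not_le.2 hm this.2

/-- the code of a function of correct type belongs to the sets `BB` -/
theorem Ev_BB {lo : IFun M (W M × W M) Prop} {C : IFun M (W M) Prop} {G : G2 M}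
    {g : IFun M (Ix M) (W M)} {y : Re M} (hok : ∀ u, K.ok (y, u)) (hgd : ∀ p, Gd K y p)
    (hF : Ev (fun c => ∀ s, s < c → ∀ m, Fr K y (c, s, m) = g (c, s, m)))
    (hg : Ev (CTl lo C G g)) :
    Ev (fun c => ∀ s, s < c → ∀ m, BB K lo (c, s, m) (g (c, s, m)) y) := by
  have hce : IF M (fun u : W M => lst M (fun d : W M => K.cert (y, u, d))) := by fun_prop
  obtain ⟨f, hf⟩ := exists_bound (M := M) (lam (fun q : Ix M × W M => Fr K y q.1) (by fun_prop))
  have h1 : Ev (fun c : W M => Cp (⟨_, hce⟩ : Fn M) c) := Ev_Cp _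
  have h2 : Ev (fun c : W M => Cp f c) := Ev_Cp _
  refine (((hF.and hg).and h1).and h2).mono ?_
  rintro c ⟨⟨⟨hF, hg⟩, h1⟩, h2⟩ s hs m
  have hcg := hg.block_lt hs m
  constructor
  · intro u hu
    refine K.cert_mono y u (lst M (fun d : W M => K.cert (y, u, d))) _ ((h1.2 u hu).trans hcg).le ?_
    exact lst_spec (M := M) (P := fun d : W M => K.cert (y, u, d)) (by fun_prop)
      ((K.ok_iff y u).1 (hok u))
  · rintro ⟨c', s', m'⟩ hv hlt
    have hrl := (hgd (c', s', m')).2.rl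
    refine hrl.mono ?_
    show Fr K y (c', s', m') ≤ _
    rw [ilt_iff] at hlt
    rcases hlt with hlt | ⟨hlt, hlt' | ⟨hlt', hlt''⟩⟩
    · have h3 := hf (c', s', m') c' c' le_rfl hv.2.le le_rfl
      exact h3.trans ((h2.2 _ hlt).trans hcg).le
    · have e1 : c' = c := hlt
      subst e1
      have h4 : s' < c' := hv.2
      rw [hF s' h4 m']
      exact (((hg s' h4).2.2.1 m').trans ((hg s hs).2.2.2.2.2 s' h4 hlt')).le.trans
        (hg.zero_le hs m)
    · have e1 : c' = c := hlt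
      subst e1
      have e2 : s' = s := hlt'
      subst e2
      rw [hF s' hs m']
      exact (hg.lt hs hlt'').le

include K in
/-- The partition theorem, for a given coding. -/
theorem PT_of (lo : IFun M (W M × W M) Prop) (hlo : ILO lo) (R : IFun M (W M × G2 M) Prop)
    (hmono : ∀ d d' G, d ≤ d' → R (d, G) → R (d', G))
    (hinv : ∀ d G G', Ev (fun c => ∀ s, s < c → G (c, s) = G' (c, s)) → R (d, G) → R (d, G')) :
    (∃ d f, ∀ G, CT lo (CP f) G → R (d, G)) ∨ ∃ f, ∀ d G, CT lo (CP f) G → ¬ R (d, G) := by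
  have hilo := ilo_ilt hlo
  rcases AD.det (M := M) (lam (fun p : Re M × Re M => Win K lo R p.1 p.2) (by fun_prop)) with ⟨σ, hσ⟩ | ⟨τ, hτ⟩
  · left
    have hσ' : ∀ y, Win K lo R (ap1 σ y) y := hσ
    obtain ⟨d0, hd0⟩ := bdd (M := M) (P := fun _ : Re M => True) (f := fun y => sec (ap1 σ y) 0)
      (Sig.ct (by fun_prop)) (by fun_prop) (fun y _ => (hσ' y).1)
    have hx : Ct M (fun y : Re M => sec (ap1 σ y) (sc 0)) := by fun_prop
    obtain ⟨f, hf⟩ := exists_theta_fn K (lam (fun q : Ix M × W M × Re M => BB K lo q.1 q.2.1 q.2.2) (by fun_prop))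
      (fun p _ η => sig_BB K lo p η) hx (by
        intro p hp η y hy
        have hy' : BB K lo p η y := hy
        by_contra hcon
        rcases (hσ' y).2 with ⟨p', hp', hq⟩ | ⟨h1, _⟩
        · have h2 : ¬ ilt lo (p', p) := fun h => hy'.not_fl h hp'
          have h3 : ilt lo (p, p') ∨ p = p' := by
            by_cases h4 : p = p'
            · exact Or.inr h4
            · rcases hilo.tot p p' h4 with h5 | h5
              · exact Or.inl h5
              · exact (h2 h5).elim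
          exact hq p h3 ⟨hp, hcon⟩
        · exact h1 p ⟨hp, hcon⟩)
    refine ⟨d0, f, fun G hG => ?_⟩
    obtain ⟨g, hg⟩ := hG
    have hg' : Ev (CTl lo (CP f) G g) := hg
    obtain ⟨y, hok, hgd, hF⟩ := exists_codeG K g
    have hnf : ∀ p, ¬ fl K y p := fun p h => h.2 (hgd p)
    rcases (hσ' y).2 with ⟨p', hp', _⟩ | ⟨_, _, hR⟩
    · exact (hnf p' hp').elim
    · refine hinv d0 _ G ?_ (hmono _ _ _ (hd0 y trivial) hR)
      have hBB := Ev_BB K hok hgd hF hg'
      refine (((hBB.and hF).and hg').and Ev_Clo).mono ?_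
      rintro c ⟨⟨⟨hBB, hF⟩, hg⟩, hc⟩
      refine Hf_eq K hg hF fun s hs m => ?_
      have hv : valid (c, s, m) := ⟨hc, hs⟩
      exact hf (c, s, m) hv (g (c, s, m)) (g (c, s, m)) (hg.block_lt hs m).le le_rfl y (hBB s hs m)
  · right
    have hτ' : ∀ X, ¬ Win K lo R X (ap2 τ X) := hτ
    have hx : Ct M (fun X : Re M => ap2 τ X) := by fun_prop
    obtain ⟨f, hf⟩ := exists_theta_fn K (lam (fun q : Ix M × W M × Re M =>
      (WF (sec q.2.2 0) ∧ nrm (sec q.2.2 0) ≤ q.2.1) ∧ BB K lo q.1 q.2.1 (sec q.2.2 (sc 0)) ∧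
        RL (restr (Zr K (sec q.2.2 (sc 0))) q.1.1) (ndi q.1) q.2.1) (by fun_prop))
      (by
        intro p hp η
        have h1 := (sig_wf_le (M := M) η).comp (f := fun X : Re M => sec X 0) (by fun_prop)
        have h2 := (sig_BB K lo p η).comp (f := fun X : Re M => sec X (sc 0)) (by fun_prop)
        have h3 := (sig_rl K (le_refl p.1) hp.1 (ndi p) η).comp (f := fun X : Re M => sec X (sc 0))
          (by fun_prop)
        refine (h1.and (h2.and h3)).congr fun X => and_congr_right fun _ =>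
          and_congr_right fun hB => ?_
        exact ⟨fun h => ⟨hB.1, h⟩, fun h => h.2⟩) hx (by
        intro p hp η X hX
        obtain ⟨⟨hw, hn⟩, hB, hrl⟩ := hX
        by_contra hcon
        refine hτ' X ⟨hw, Or.inl ⟨p, ⟨hp, hcon⟩, ?_⟩⟩
        rintro q (hq | rfl)
        · exact hB.not_fl hq
        · intro h
          exact h.2 ⟨ok_of_cert hB.1, hrl.rkd⟩)
    refine ⟨f, fun d G hG hR => ?_⟩
    obtain ⟨g, hg⟩ := hG
    have hg' : Ev (CTl lo (CP f) G g) := hg
    obtain ⟨y1, hok, hgd, hF⟩ := exists_codeG K g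
    obtain ⟨r, hr⟩ := exists_PWc d
    obtain ⟨X, hX0, hX1⟩ := exists_join2 r y1
    have hw : WF (sec X 0) := by rw [hX0]; exact hr.wf
    have hn : nrm (sec X 0) = d := by rw [hX0]; exact hr.nrm
    have hnf : ∀ p, ¬ fl K (sec X (sc 0)) p := fun p h => by
      rw [hX1] at h
      exact h.2 (hgd p)
    have hnf' : ∀ p, ¬ fl K (ap2 τ X) p := fun p h =>
      hτ' X ⟨hw, Or.inl ⟨p, h, fun q _ => hnf q⟩⟩
    refine hτ' X ⟨hw, Or.inr ⟨hnf, hnf', ?_⟩⟩
    rw [hn, hX1, Hf_comm]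
    refine hinv d G _ ?_ hR
    have hBB := Ev_BB K hok hgd hF hg'
    refine ((((hBB.and hF).and hg').and Ev_Clo).and (Ev_gt d)).mono ?_
    rintro c ⟨⟨⟨⟨hBB, hF⟩, hg⟩, hc⟩, hd⟩ s hs
    refine (Hf_eq K (x := ap2 τ X) (y := y1) hg hF (fun s hs m => ?_) s hs).symm
    have hv : valid (c, s, m) := ⟨hc, hs⟩
    refine hf (c, s, m) hv (g (c, s, m)) (g (c, s, m)) (hg.block_lt hs m).le le_rfl X ?_
    refine ⟨⟨hw, by rw [hn]; exact (hd.trans (hg.block_lt hs m)).le⟩, ?_, ?_⟩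
    · show BB K lo (c, s, m) (g (c, s, m)) (sec X (sc 0))
      rw [hX1]
      exact hBB s hs m
    · show RL (restr (Zr K (sec X (sc 0))) c) (ndi (c, s, m)) (g (c, s, m))
      rw [hX1, ← hF s hs m]
      exact (hgd (c, s, m)).2.rl

/-- **The partition theorem** (uniform strong partition relation on `ω_1` with a monotone
parameter). -/
theorem PT (lo : IFun M (W M × W M) Prop) (hlo : ILO lo) (R : IFun M (W M × G2 M) Prop)
    (hmono : ∀ d d' G, d ≤ d' → R (d, G) → R (d', G))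
    (hinv : ∀ d G G', Ev (fun c => ∀ s, s < c → G (c, s) = G' (c, s)) → R (d, G) → R (d, G')) :
    (∃ d f, ∀ G, CT lo (CP f) G → R (d, G)) ∨ ∃ f, ∀ d G, CT lo (CP f) G → ¬ R (d, G) := by
  obtain ⟨K⟩ := exists_coding (M := M)
  exact PT_of K lo hlo R hmono hinv

end Pool.Agent.Helper48.MG
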