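import Pool.Agent.Helper48.MG.Arith

/-!
# Ranks of relations, wellfounded relations, codes of countable ordinals
-/

set_option autoImplicit false

namespace Pool.Agent.Helper48.MG

variable {M : Type} [ZFM M]
variable {α β γ δ : Type} [Cl M α] [Cl M β] [Cl M γ] [Cl M δ]
variable {X : Type} [Cl M X] [Ob M X]
variable {T : Type} [Cl M T] [Ob M T] [LinearOrder T] [IWO M T]

/-- `RL R x a`: `x` is in the wellfounded part of `R` and its rank is at most `a`
(`R (y, x)` means that `y` is below `x`). -/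
def RL (R : IFun M (X × X) Prop) (x : X) (a : T) : Prop :=
  ∀ S : IFun M (X × T) Prop,
    (∀ x a, (∀ y, R (y, x) → ∃ b, b < a ∧ S (y, b)) → S (x, a)) → S (x, a)

@[fun_prop] theorem IF.RL {f : α → IFun M (X × X) Prop} {g : α → X} {h : α → T}
    (hf : IF M f) (hg : IF M g) (hh : IF M h) : IF M (fun c => RL (f c) (g c) (h c)) := by
  unfold MG.RL; fun_prop

theorem RL.intro {R : IFun M (X × X) Prop} {x : X} {a : T}
    (h : ∀ y, R (y, x) → ∃ b, b < a ∧ RL R y b) : RL R x a := by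
  intro S hS
  refine hS x a fun y hy => ?_
  obtain ⟨b, hb, hb'⟩ := h y hy
  exact ⟨b, hb, hb' S hS⟩

/-- induction -/
theorem RL.ind {R : IFun M (X × X) Prop} {P : X → T → Prop} (hP : IF M (fun q : X × T => P q.1 q.2))
    (hs : ∀ x a, (∀ y, R (y, x) → ∃ b, b < a ∧ RL R y b ∧ P y b) → P x a)
    {x : X} {a : T} (h : RL R x a) : P x a := by
  have h1 : IF M (fun q : X × T => MG.RL R q.1 q.2 ∧ P q.1 q.2) := by fun_prop
  have := h ⟨_, h1⟩ (fun x a hxa => by
    refine ⟨RL.intro fun y hy => ?_, hs x a fun y hy => ?_⟩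
    · obtain ⟨b, hb, hb'⟩ := hxa y hy
      exact ⟨b, hb, hb'.1⟩
    · obtain ⟨b, hb, hb'⟩ := hxa y hy
      exact ⟨b, hb, hb'.1, hb'.2⟩)
  exact this.2

theorem RL.elim {R : IFun M (X × X) Prop} {x : X} {a : T} (h : RL R x a) :
    ∀ y, R (y, x) → ∃ b, b < a ∧ RL R y b := by
  refine RL.ind (P := fun x a => ∀ y, R (y, x) → ∃ b, b < a ∧ MG.RL R y b) (by fun_prop) ?_ h
  intro x a h y hy
  obtain ⟨b, hb, hb', _⟩ := h y hy
  exact ⟨b, hb, hb'⟩

theorem RL_iff {R : IFun M (X × X) Prop} {x : X} {a : T} :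
    RL R x a ↔ ∀ y, R (y, x) → ∃ b, b < a ∧ RL R y b := ⟨RL.elim, RL.intro⟩

theorem RL.mono {R : IFun M (X × X) Prop} {x : X} {a b : T} (h : RL R x a) (hab : a ≤ b) :
    RL R x b :=
  RL.intro fun y hy => by
    obtain ⟨c, hc, hc'⟩ := h.elim y hy
    exact ⟨c, lt_of_lt_of_le hc hab, hc'⟩

/-- `x` has a rank (in the well-order `T`) -/
def Rkd (T : Type) [Cl M T] [Ob M T] [LinearOrder T] [IWO M T]
    (R : IFun M (X × X) Prop) (x : X) : Prop := ∃ a : T, RL R x a

@[fun_prop] theorem IF.Rkd {f : α → IFun M (X × X) Prop} {g : α → X}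
    (hf : IF M f) (hg : IF M g) : IF M (fun c => Rkd T (f c) (g c)) := by
  unfold MG.Rkd; fun_prop

variable [Nonempty T]

/-- the rank of `x` -/
noncomputable def rk (T : Type) [Cl M T] [Ob M T] [LinearOrder T] [IWO M T] [Nonempty T]
    (R : IFun M (X × X) Prop) (x : X) : T := lst M (fun a => RL R x a)

@[fun_prop] theorem IF.rk {f : α → IFun M (X × X) Prop} {g : α → X}
    (hf : IF M f) (hg : IF M g) : IF M (fun c => rk T (f c) (g c)) := by
  unfold MG.rk; fun_prop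

theorem Rkd.rl {R : IFun M (X × X) Prop} {x : X} (h : Rkd T R x) : RL R x (rk T R x) :=
  lst_spec (P := fun a : T => RL R x a) (by fun_prop) h

theorem RL.rkd {R : IFun M (X × X) Prop} {x : X} {a : T} (h : RL R x a) : Rkd T R x := ⟨a, h⟩

theorem RL.rk_le {R : IFun M (X × X) Prop} {x : X} {a : T} (h : RL R x a) : rk T R x ≤ a :=
  lst_le (P := fun a : T => RL R x a) (by fun_prop) h

theorem rl_iff {R : IFun M (X × X) Prop} {x : X} {a : T} :
    RL R x a ↔ Rkd T R x ∧ rk T R x ≤ a :=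
  ⟨fun h => ⟨h.rkd, h.rk_le⟩, fun h => h.1.rl.mono h.2⟩

theorem Rkd.below {R : IFun M (X × X) Prop} {x y : X} (h : Rkd T R x) (hy : R (y, x)) :
    Rkd T R y := by
  obtain ⟨b, _, hb⟩ := h.rl.elim y hy
  exact hb.rkd

theorem rk_lt {R : IFun M (X × X) Prop} {x y : X} (h : Rkd T R x) (hy : R (y, x)) :
    rk T R y < rk T R x := by
  obtain ⟨b, hb, hb'⟩ := h.rl.elim y hy
  exact lt_of_le_of_lt hb'.rk_le hb

theorem rk_le_iff {R : IFun M (X × X) Prop} {x : X} {a : T} (h : Rkd T R x) :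
    rk T R x ≤ a ↔ ∀ y, R (y, x) → rk T R y < a := by
  constructor
  · intro h1 y hy; exact lt_of_lt_of_le (rk_lt h hy) h1
  · intro h1
    refine RL.rk_le (RL.intro fun y hy => ⟨_, h1 y hy, (h.below hy).rl⟩)

/-- the ranks form an initial segment -/
theorem exists_rk_eq {R : IFun M (X × X) Prop} {x : X} (h : Rkd T R x) {a : T}
    (ha : a ≤ rk T R x) : ∃ y, Rkd T R y ∧ rk T R y = a := by
  have h1 : IF M (fun b : T => ∃ x, Rkd T R x ∧ rk T R x = b ∧ a ≤ b) := by fun_prop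
  obtain ⟨b, ⟨y, hy, hyb, hab⟩, hmin⟩ := IWO.least (M := M) _ h1 ⟨_, x, h, rfl, ha⟩
  refine ⟨y, hy, ?_⟩
  rw [hyb]
  by_contra hne
  have hlt : a < b := lt_of_le_of_ne hab fun h => hne h.symm
  have h2 : ¬ rk T R y ≤ a := by rw [hyb]; exact not_le.2 hlt
  rw [rk_le_iff hy] at h2
  push Not at h2
  obtain ⟨z, hz, hz'⟩ := h2
  have h3 := hmin (rk T R z) ⟨z, hy.below hz, rfl, hz'⟩
  have h4 := rk_lt hy hz
  rw [hyb] at h4
  exact not_le.2 h4 h3

/-- internal wellfoundedness -/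
def IWf (R : IFun M (X × X) Prop) : Prop :=
  ∀ P : IFun M X Prop, (∃ x, P x) → ∃ x, P x ∧ ∀ y, R (y, x) → ¬ P y

@[fun_prop] theorem IF.IWf {f : α → IFun M (X × X) Prop}
    (hf : IF M f) : IF M (fun c => IWf (f c)) := by
  unfold MG.IWf; fun_prop

theorem iwf_of_rkd {R : IFun M (X × X) Prop} (h : ∀ x, Rkd T R x) : IWf R := by
  rintro P ⟨x, hx⟩
  obtain ⟨a, ⟨y, hy, hya⟩, hmin⟩ := IWO.least (M := M) (fun a : T => ∃ y, P y ∧ rk T R y = a)
    (by fun_prop) ⟨_, x, hx, rfl⟩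
  refine ⟨y, hy, fun z hz hPz => ?_⟩
  have h1 := hmin _ ⟨z, hPz, rfl⟩
  have h2 := rk_lt (h y) hz
  rw [hya] at h2
  exact not_le.2 h2 h1

/-- A wellfounded relation has ranks in `T` if its field does not cover `T`. -/
theorem rkd_of_iwf {R : IFun M (X × X) Prop} (h : IWf R)
    (hX : ∀ f : IFun M X T, ∃ b, ∀ x, f x ≠ b) : ∀ x, Rkd T R x := by
  by_contra hcon
  push Not at hcon
  obtain ⟨x, hx, hx'⟩ := h (lam (fun x => ¬ Rkd T R x) (by fun_prop)) hcon
  have h1 : IF M (fun x => rk T R x) := by fun_prop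
  obtain ⟨b, hb⟩ := hX ⟨_, h1⟩
  apply hx
  refine (RL.intro (a := b) fun y hy => ?_ : RL R x b).rkd
  have hy' : Rkd T R y := not_not.1 (hx' y hy)
  refine ⟨rk T R y, ?_, hy'.rl⟩
  by_contra hlt
  obtain ⟨z, _, hz⟩ := exists_rk_eq hy' (not_lt.1 hlt)
  exact hb z hz

/-- the ranks are bounded if the field does not cover `T` -/
theorem exists_rk_le {R : IFun M (X × X) Prop} (h : ∀ x, Rkd T R x)
    (hX : ∀ f : IFun M X T, ∃ b, ∀ x, f x ≠ b) : ∃ b : T, ∀ x, rk T R x < b := by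
  have h1 : IF M (fun x => rk T R x) := by fun_prop
  obtain ⟨b, hb⟩ := hX ⟨_, h1⟩
  refine ⟨b, fun x => ?_⟩
  by_contra hlt
  obtain ⟨z, _, hz⟩ := exists_rk_eq (h x) (not_lt.1 hlt)
  exact hb z hz

/-! ### reals as relations on `N` -/

/-- the relation on `N` coded by the real `r` -/
noncomputable def rel (r : Re M) : IFun M (N M × N M) Prop := lam (fun p => r (pr p.1 p.2) = 0) (by fun_prop)

@[fun_prop] theorem IF.rel {f : α → Re M} (hf : IF M f) : IF M (fun c => rel (f c)) := by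
  unfold MG.rel; fun_prop

@[simp] theorem rel_apply (r : Re M) (p : N M × N M) : (rel r).toFun p ↔ r (pr p.1 p.2) = 0 := Iff.rfl

/-- every relation on `N` is coded by a real -/
theorem exists_rel (R : IFun M (N M × N M) Prop) : ∃ r : Re M, ∀ k l, rel r (k, l) ↔ R (k, l) := by
  classical
  have hf : IF M (fun m : N M => if ∃ k l, m = pr k l ∧ R (k, l) then (0 : N M) else sc 0) := by
    fun_prop
  refine ⟨⟨_, hf⟩, fun k l => ?_⟩
  show (if ∃ k' l', pr k l = pr k' l' ∧ R (k', l') then (0 : N M) else sc 0) = 0 ↔ R (k, l)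
  by_cases h : ∃ k' l', pr k l = pr k' l' ∧ R (k', l')
  · rw [if_pos h]
    obtain ⟨k', l', h1, h2⟩ := h
    obtain ⟨rfl, rfl⟩ := pr_inj h1
    simp [h2]
  · rw [if_neg h]
    constructor
    · intro h1; exact (N.sc_ne_zero _ h1).elim
    · intro h1; exact (h ⟨k, l, rfl, h1⟩).elim

/-- the real `r` codes a wellfounded relation -/
def WF (r : Re M) : Prop := ∀ k, Rkd (W M) (rel r) k

@[fun_prop] theorem IF.WF {f : α → Re M} (hf : IF M f) : IF M (fun c => WF (f c)) := by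
  unfold MG.WF; fun_prop

theorem WF_iff {r : Re M} : WF r ↔ IWf (rel r) :=
  ⟨iwf_of_rkd, fun h => rkd_of_iwf h not_cov_W⟩

/-- the norm: the supremum of the ranks of the elements -/
noncomputable def nrm (r : Re M) : W M := lst M (fun a => ∀ k, RL (rel r) k a)

@[fun_prop] theorem IF.nrm {f : α → Re M} (hf : IF M f) : IF M (fun c => nrm (f c)) := by
  unfold MG.nrm; fun_prop

theorem WF.rk_le_nrm {r : Re M} (h : WF r) (k : N M) : rk (W M) (rel r) k ≤ nrm r := by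
  obtain ⟨b, hb⟩ := exists_rk_le h not_cov_W
  have h1 : ∀ k, RL (rel r) k (nrm r) :=
    lst_spec (P := fun a : W M => ∀ k, RL (rel r) k a) (by fun_prop)
      ⟨b, fun k => (h k).rl.mono (hb k).le⟩
  exact (h1 k).rk_le

theorem WF.nrm_le_iff {r : Re M} (h : WF r) {a : W M} : nrm r ≤ a ↔ ∀ k, rk (W M) (rel r) k ≤ a := by
  constructor
  · intro h1 k; exact (h.rk_le_nrm k).trans h1
  · intro h1
    exact lst_le (P := fun a : W M => ∀ k, RL (rel r) k a) (by fun_prop)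
      (fun k => (h k).rl.mono (h1 k))

/-- `r` is an exact code of `b`: there is a map of `N` onto the ordinals `≤ b` such that
`rel r` is the pullback of the order -/
def PWc (r : Re M) (b : W M) : Prop :=
  ∃ f : IFun M (N M) (W M), (∀ k l, rel r (k, l) ↔ f k < f l) ∧ ∀ c, (∃ k, f k = c) ↔ c ≤ b

@[fun_prop] theorem IF.PWc {f : α → Re M} {g : α → W M} (hf : IF M f) (hg : IF M g) :
    IF M (fun c => PWc (f c) (g c)) := by
  unfold MG.PWc; fun_prop

/-- the map in `PWc` is the rank -/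
theorem PWc.rk {r : Re M} {b : W M} (h : PWc r b) :
    WF r ∧ (∀ k l, rel r (k, l) ↔ rk (W M) (rel r) k < rk (W M) (rel r) l) ∧
      (∀ c, (∃ k, rk (W M) (rel r) k = c) ↔ c ≤ b) ∧ nrm r = b := by
  obtain ⟨f, hf, hfb⟩ := h
  have h1 : ∀ a : W M, ∀ k, f k = a → RL (rel r) k a ∧ ∀ c, RL (rel r) k c → a ≤ c := by
    by_contra hcon
    push Not at hcon
    obtain ⟨a, ⟨k, hk, hk'⟩, hmin⟩ := IWO.least (M := M)
      (fun a : W M => ∃ k, f k = a ∧ ¬ (RL (rel r) k a ∧ ∀ c, RL (rel r) k c → a ≤ c)) (by fun_prop) (by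
        obtain ⟨a, k, hk, h⟩ := hcon
        refine ⟨a, k, hk, fun h' => ?_⟩
        obtain ⟨c, hc, hc'⟩ := h h'.1
        exact not_le.2 hc' (h'.2 c hc))
    have ih : ∀ c, c < a → ∀ l, f l = c → RL (rel r) l c ∧ ∀ d, RL (rel r) l d → c ≤ d := by
      intro c hc l hl
      by_contra h
      exact not_le.2 hc (hmin c ⟨l, hl, h⟩)
    apply hk'
    constructor
    · refine RL.intro fun l hl => ?_
      have h2 : f l < a := by rw [← hk]; exact (hf l k).1 hl
      exact ⟨f l, h2, (ih _ h2 l rfl).1⟩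
    · intro c hc
      by_contra hlt
      rw [not_le] at hlt
      have hca : c < a := hlt
      obtain ⟨l, hl⟩ := (hfb c).2 (hca.le.trans ((hfb a).1 ⟨k, hk⟩))
      have h3 : rel r (l, k) := (hf l k).2 (by rw [hl, hk]; exact hca)
      obtain ⟨d, hd, hd'⟩ := hc.elim l h3
      exact not_le.2 hd ((ih c hca l hl).2 d hd')
  have h2 : ∀ k, MG.rk (W M) (rel r) k = f k := fun k => by
    obtain ⟨h3, h4⟩ := h1 _ k rfl
    exact le_antisymm h3.rk_le (h4 _ h3.rkd.rl)
  have hwf : WF r := fun k => (h1 _ k rfl).1.rkd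
  refine ⟨hwf, fun k l => by rw [h2, h2]; exact hf k l, fun c => ?_, ?_⟩
  · simp only [h2]; exact hfb c
  · refine le_antisymm ((hwf.nrm_le_iff).2 fun k => ?_) ?_
    · rw [h2]; exact (hfb _).1 ⟨k, rfl⟩
    · obtain ⟨k, hk⟩ := (hfb b).2 le_rfl
      rw [← hk, ← h2]
      exact hwf.rk_le_nrm k

theorem PWc.wf {r : Re M} {b : W M} (h : PWc r b) : WF r := h.rk.1
theorem PWc.nrm {r : Re M} {b : W M} (h : PWc r b) : nrm r = b := h.rk.2.2.2

/-- every countable ordinal has an exact code -/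
theorem exists_PWc (b : W M) : ∃ r, PWc r b := by
  classical
  obtain ⟨f, hf⟩ := exists_cov_W b
  have hg : IF M (fun n => if f n ≤ b then f n else b) := by fun_prop
  obtain ⟨r, hr⟩ := exists_rel (M := M) (lam (fun p : N M × N M =>
    (if f p.1 ≤ b then f p.1 else b) < (if f p.2 ≤ b then f p.2 else b)) (by fun_prop))
  refine ⟨r, ⟨_, hg⟩, fun k l => hr k l, fun c => ⟨?_, fun hc => ?_⟩⟩
  · rintro ⟨k, rfl⟩
    show (if f k ≤ b then f k else b) ≤ b
    split_ifs with h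
    · exact h
    · exact le_rfl
  · obtain ⟨k, hk⟩ := hf c hc
    exact ⟨k, by show (if f k ≤ b then f k else b) = c; rw [hk, if_pos hc]⟩

end Pool.Agent.Helper48.MG
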