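import Pool.Agent.Helper48.MG.Base

/-!
# The statements about a model `(M, E)` of ZF: `ω`, `ℵ_ω`, AD, Magidor cardinals
-/

set_option autoImplicit false

namespace Pool.Agent.Helper48.MG

section stmt

variable {M : Type} (E : M → M → Prop)

/-- `x` is the empty set -/
def IsEmp (x : M) : Prop := ∀ y, ¬ E y x

/-- `z = {x, y}` -/
def IsUPair (z x y : M) : Prop := ∀ t, E t z ↔ t = x ∨ t = y

/-- `z = (x, y) = {{x}, {x, y}}` -/
def IsOPair (z x y : M) : Prop := ∀ u, E u z ↔ IsUPair E u x x ∨ IsUPair E u x y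

/-- `x ⊆ y` -/
def Subs (x y : M) : Prop := ∀ z, E z x → E z y

/-- `(x, y) ∈ f` -/
def Apl (f x y : M) : Prop := ∃ z, IsOPair E z x y ∧ E z f

/-- `f` is a function from `a` to `b` -/
def IsFn (f a b : M) : Prop :=
  (∀ z, E z f → ∃ x y, E x a ∧ E y b ∧ IsOPair E z x y) ∧
    ∀ x, E x a → ∃ y, Apl E f x y ∧ ∀ y', Apl E f x y' → y' = y

/-- `f` is an injection of `a` into `b` -/
def IsInj (f a b : M) : Prop :=
  IsFn E f a b ∧ ∀ x x' y, Apl E f x y → Apl E f x' y → x = x'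

/-- `f` is a bijection of `a` onto `b` -/
def IsBij (f a b : M) : Prop := IsInj E f a b ∧ ∀ y, E y b → ∃ x, Apl E f x y

/-- `x` is an ordinal (a transitive set of transitive sets; the model satisfies Foundation) -/
def IsOrdinal (x : M) : Prop :=
  (∀ y, E y x → Subs E y x) ∧ ∀ y, E y x → ∀ z, E z y → Subs E z y

/-- `y = x ∪ {x}` -/
def IsSuc (y x : M) : Prop := ∀ z, E z y ↔ E z x ∨ z = x

/-- `s` is inductive -/
def IsInd (s : M) : Prop := (∃ e, IsEmp E e ∧ E e s) ∧ ∀ x, E x s → ∃ y, IsSuc E y x ∧ E y s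

/-- `w = ω` -/
def IsOmega (w : M) : Prop := IsInd E w ∧ ∀ s, IsInd E s → Subs E w s

/-- `b` is the least ordinal which cannot be injected into `a` (for an infinite cardinal `a`:
`b = a⁺`) -/
def IsNext (b a : M) : Prop :=
  IsOrdinal E b ∧ (¬ ∃ f, IsInj E f b a) ∧ ∀ c, E c b → ∃ f, IsInj E f c a

/-- `l = ℵ_ω`: there is a function `s` with domain `ω`, `s(0) = ω`, `s(n+1) = s(n)⁺`, and `l` is
the union of the values of `s` -/
def IsAlephOmega (l : M) : Prop :=
  ∃ w s, IsOmega E w ∧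
    (∀ z, E z s → ∃ n a, E n w ∧ IsOPair E z n a) ∧
    (∀ n, E n w → ∃ a, Apl E s n a ∧ ∀ a', Apl E s n a' → a' = a) ∧
    (∀ n, IsEmp E n → Apl E s n w) ∧
    (∀ n m a b, E n w → IsSuc E m n → Apl E s n a → Apl E s m b → IsNext E b a) ∧
    ∀ x, E x l ↔ ∃ n a, Apl E s n a ∧ E x a

/-- `n` is an even natural number: it belongs to every set which contains `0` and is closed under
adding two -/
def IsEvn (n : M) : Prop :=
  ∀ s, (∀ e, IsEmp E e → E e s) → (∀ k k' k'', E k s → IsSuc E k' k → IsSuc E k'' k' → E k'' s) →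
    E n s

/-- `q` is the restriction of `z` to `n` -/
def IsRestr (q z n : M) : Prop := ∀ t, E t q ↔ E t z ∧ ∃ k v, E k n ∧ IsOPair E t k v

/-- `f` is a strategy in the game on the natural numbers `w`: it assigns a natural number to
every finite sequence of natural numbers -/
def IsStrat (w f : M) : Prop :=
  ∀ n q, E n w → IsFn E q n w → ∃ v, E v w ∧ Apl E f q v ∧ ∀ v', Apl E f q v' → v' = v

/-- The Axiom of Determinacy: for every `A ⊆ ω^ω` one of the two players has a winning strategy in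
the game in which player I plays `z(0), z(2), …`, player II plays `z(1), z(3), …` and I wins iff
`z ∈ A`. -/
def ADet : Prop :=
  ∀ w, IsOmega E w → ∀ A : M,
    (∃ f, IsStrat E w f ∧ ∀ z, IsFn E z w w →
      (∀ n q v, E n w → IsEvn E n → IsRestr E q z n → Apl E f q v → Apl E z n v) → E z A) ∨
    (∃ f, IsStrat E w f ∧ ∀ z, IsFn E z w w →
      (∀ n q v, E n w → ¬ IsEvn E n → IsRestr E q z n → Apl E f q v → Apl E z n v) → ¬ E z A)

/-- `x ∈ [a]^{ℵ₀-bd}` for `a ⊆ l`: `x` is a subset of `a` of cardinality `ℵ₀` and bounded in `l` -/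
def CtblBd (l a x : M) : Prop :=
  Subs E x a ∧ (∃ w f, IsOmega E w ∧ IsBij E f w x) ∧ ∃ b, E b l ∧ ∀ y, E y x → E y b

/-- `l` is a Magidor cardinal: for every function `f : [l]^{ℵ₀-bd} → l` there is `a ⊆ l` of
cardinality `l` such that `f` omits a value on `[a]^{ℵ₀-bd}`. -/
def Magidor (l : M) : Prop :=
  ∀ f, (∀ z, E z f → ∃ x y, CtblBd E l l x ∧ E y l ∧ IsOPair E z x y) →
    (∀ x, CtblBd E l l x → ∃ y, Apl E f x y ∧ ∀ y', Apl E f x y' → y' = y) →
    ∃ a, Subs E a l ∧ (∃ g, IsBij E g a l) ∧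
      ∃ v, E v l ∧ ∀ x, CtblBd E l a x → ¬ Apl E f x v

end stmt

end Pool.Agent.Helper48.MG
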